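import Mathlib

set_option autoImplicit false

namespace Pool.Agent.Lib.MP_7903c7_al.CD

open scoped Classical

section basic

variable {α β M : Type} [AddCommGroup M] [Module ℚ M]

/-- Basis chain. -/
noncomputable def sg (a : α) : α →₀ ℚ := Finsupp.single a 1

/-- Linear extension. -/
noncomputable def lin (f : α → M) : (α →₀ ℚ) →ₗ[ℚ] M := Finsupp.linearCombination ℚ f

@[simp] lemma lin_sg (f : α → M) (a : α) : lin f (sg a) = f a := by
  simp [lin, sg]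

lemma sg_apply (a b : α) : sg a b = if a = b then 1 else 0 := by
  simp [sg, Finsupp.single_apply]

lemma sg_ne {a b : α} (h : sg a b ≠ 0) : a = b := by
  by_contra h'
  exact h (by rw [sg_apply, if_neg h'])

lemma eq_sum_sg (c : α →₀ ℚ) : c = ∑ a ∈ c.support, c a • sg a := by
  conv_lhs => rw [← c.sum_single]
  refine Finset.sum_congr rfl fun a _ => ?_
  simp [sg]

lemma map_eq_sum (f : (α →₀ ℚ) →ₗ[ℚ] M) (c : α →₀ ℚ) :
    f c = ∑ a ∈ c.support, c a • f (sg a) := by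
  conv_lhs => rw [eq_sum_sg c]
  simp only [map_sum, map_smul]

lemma ext_on (f g : (α →₀ ℚ) →ₗ[ℚ] M) (c : α →₀ ℚ)
    (h : ∀ a, c a ≠ 0 → f (sg a) = g (sg a)) : f c = g c := by
  rw [map_eq_sum f, map_eq_sum g]
  exact Finset.sum_congr rfl fun a ha => by rw [h a (Finsupp.mem_support_iff.mp ha)]

lemma ext_sg (f g : (α →₀ ℚ) →ₗ[ℚ] M) (h : ∀ a, f (sg a) = g (sg a)) (c : α →₀ ℚ) :
    f c = g c := ext_on f g c fun a _ => h a

lemma zero_on (f : (α →₀ ℚ) →ₗ[ℚ] M) (c : α →₀ ℚ) (h : ∀ a, c a ≠ 0 → f (sg a) = 0) :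
    f c = 0 := ext_on f 0 c h

lemma map_ne (f : (α →₀ ℚ) →ₗ[ℚ] (β →₀ ℚ)) {c : α →₀ ℚ} {b : β} (h : f c b ≠ 0) :
    ∃ a, c a ≠ 0 ∧ f (sg a) b ≠ 0 := by
  rw [map_eq_sum, Finsupp.finsetSum_apply] at h
  obtain ⟨a, ha, h2⟩ := Finset.exists_ne_zero_of_sum_ne_zero h
  refine ⟨a, Finsupp.mem_support_iff.mp ha, fun h3 => h2 ?_⟩
  rw [Finsupp.smul_apply, h3, smul_zero]

lemma add_ne {c c' : α →₀ ℚ} {a : α} (h : (c + c') a ≠ 0) : c a ≠ 0 ∨ c' a ≠ 0 := by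
  by_contra h'
  push Not at h'
  exact h (by rw [Finsupp.add_apply, h'.1, h'.2, add_zero])

lemma sub_ne {c c' : α →₀ ℚ} {a : α} (h : (c - c') a ≠ 0) : c a ≠ 0 ∨ c' a ≠ 0 := by
  by_contra h'
  push Not at h'
  exact h (by rw [Finsupp.sub_apply, h'.1, h'.2, sub_zero])

lemma smul_ne {c : α →₀ ℚ} {r : ℚ} {a : α} (h : (r • c) a ≠ 0) : c a ≠ 0 := by
  intro h'
  exact h (by rw [Finsupp.smul_apply, h', smul_zero])

/-- Push forward of chains. -/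
noncomputable def mp (φ : α → β) : (α →₀ ℚ) →ₗ[ℚ] (β →₀ ℚ) := lin fun a => sg (φ a)

@[simp] lemma mp_sg (φ : α → β) (a : α) : mp φ (sg a) = sg (φ a) := lin_sg _ _

lemma mp_ne {φ : α → β} {c : α →₀ ℚ} {b : β} (h : mp φ c b ≠ 0) : ∃ a, c a ≠ 0 ∧ φ a = b := by
  obtain ⟨a, h1, h2⟩ := map_ne _ h
  rw [mp_sg] at h2
  exact ⟨a, h1, sg_ne h2⟩

lemma mp_mp {γ : Type} (φ : α → β) (ψ : β → γ) (c : α →₀ ℚ) :
    mp ψ (mp φ c) = mp (fun a => ψ (φ a)) c :=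
  ext_sg ((mp ψ).comp (mp φ)) _ (by simp) c

lemma mp_id (c : α →₀ ℚ) : mp (fun a => a) c = c :=
  ext_sg _ LinearMap.id (by simp) c

/-- Restriction of chains. -/
noncomputable def rs (A : α → Prop) : (α →₀ ℚ) →ₗ[ℚ] (α →₀ ℚ) :=
  lin fun a => if A a then sg a else 0

lemma rs_sg (A : α → Prop) (a : α) : rs A (sg a) = if A a then sg a else 0 := lin_sg _ _

lemma rs_apply (A : α → Prop) (c : α →₀ ℚ) (a : α) : rs A c a = if A a then c a else 0 := by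
  have := ext_sg ((Finsupp.lapply a).comp (rs A))
    (if A a then Finsupp.lapply a else 0 : (α →₀ ℚ) →ₗ[ℚ] ℚ) (fun b => by
      rw [LinearMap.comp_apply, rs_sg]
      by_cases h : b = a
      · subst h
        split_ifs <;> simp
      · split_ifs <;> simp [sg_apply, h]) c
  rw [LinearMap.comp_apply, Finsupp.lapply_apply] at this
  rw [this]
  split_ifs <;> simp

lemma rs_ne {A : α → Prop} {c : α →₀ ℚ} {a : α} (h : rs A c a ≠ 0) : A a ∧ c a ≠ 0 := by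
  rw [rs_apply] at h
  split_ifs at h with h1
  · exact ⟨h1, h⟩
  · exact absurd rfl h

lemma rs_eq_self {A : α → Prop} {c : α →₀ ℚ} (h : ∀ a, c a ≠ 0 → A a) : rs A c = c :=
  ext_on _ LinearMap.id c fun a ha => by simp [rs_sg, h a ha]

lemma rs_eq_zero {A : α → Prop} {c : α →₀ ℚ} (h : ∀ a, c a ≠ 0 → ¬ A a) : rs A c = 0 :=
  zero_on _ c fun a ha => by simp [rs_sg, h a ha]

lemma rs_mp (A : β → Prop) (φ : α → β) (c : α →₀ ℚ) :
    rs A (mp φ c) = mp φ (rs (fun a => A (φ a)) c) :=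
  ext_sg ((rs A).comp (mp φ)) ((mp φ).comp (rs fun a => A (φ a))) (fun a => by
    simp only [LinearMap.comp_apply, mp_sg, rs_sg]
    split_ifs <;> simp) c

variable (Λ : Subring ℚ)

/-- Chains with coefficients in the subring. -/
def IntC (α : Type) : Submodule Λ (α →₀ ℚ) where
  carrier := {c | ∀ a, c a ∈ Λ}
  add_mem' h1 h2 a := add_mem (h1 a) (h2 a)
  zero_mem' _ := zero_mem _
  smul_mem' r _ h a := mul_mem r.2 (h a)

variable {Λ}

lemma mem_IntC {c : α →₀ ℚ} : c ∈ IntC Λ α ↔ ∀ a, c a ∈ Λ := Iff.rfl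

lemma sg_int (a : α) : sg a ∈ IntC Λ α := fun b => by
  rw [sg_apply]
  split_ifs
  · exact one_mem _
  · exact zero_mem _

lemma map_mem (f : (α →₀ ℚ) →ₗ[ℚ] M) (N : Submodule Λ M) {c : α →₀ ℚ} (hc : c ∈ IntC Λ α)
    (h : ∀ a, c a ≠ 0 → f (sg a) ∈ N) : f c ∈ N := by
  rw [map_eq_sum]
  exact Submodule.sum_mem _ fun a ha =>
    N.smul_mem (⟨c a, hc a⟩ : Λ) (h a (Finsupp.mem_support_iff.mp ha))

lemma mp_int (φ : α → β) {c : α →₀ ℚ} (hc : c ∈ IntC Λ α) : mp φ c ∈ IntC Λ β :=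
  map_mem _ _ hc fun a _ => by rw [mp_sg]; exact sg_int _

lemma rs_int (A : α → Prop) {c : α →₀ ℚ} (hc : c ∈ IntC Λ α) : rs A c ∈ IntC Λ α := fun a => by
  rw [rs_apply]
  split_ifs
  · exact hc a
  · exact zero_mem _

end basic

section chains

variable {G : Type} [Group G] {X X' : Type} [MulAction G X] [MulAction G X'] {Λ : Subring ℚ}

/-- Apply a map to the base point of a cell. -/
def fm {T : Type} (f : X → X') (τ : X × T) : X' × T := (f τ.1, τ.2)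

/-- Boundary of 1-chains; the edge `(x, u)` goes from `x` to `u • x`. -/
noncomputable def d1 : (X × G →₀ ℚ) →ₗ[ℚ] (X →₀ ℚ) := lin fun ε => sg (ε.2 • ε.1) - sg ε.1

/-- Boundary of 2-chains; the cell `(x, u, u')` has vertices `x`, `u • x`, `u' • u • x`. -/
noncomputable def d2 : (X × G × G →₀ ℚ) →ₗ[ℚ] (X × G →₀ ℚ) :=
  lin fun τ => sg (τ.2.1 • τ.1, τ.2.2) - sg (τ.1, τ.2.2 * τ.2.1) + sg (τ.1, τ.2.1)

@[simp] lemma d1_sg (x : X) (u : G) : d1 (sg (x, u)) = sg (u • x) - sg x := lin_sg _ _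

@[simp] lemma d2_sg (x : X) (u u' : G) :
    d2 (sg (x, u, u')) = sg (u • x, u') - sg (x, u' * u) + sg (x, u) := lin_sg _ _

lemma d1_d2 (η : X × G × G →₀ ℚ) : d1 (d2 η) = 0 :=
  zero_on (d1.comp d2) η fun ⟨x, u, u'⟩ _ => by simp [mul_smul]

lemma d1_mp {f : X → X'} (hf : ∀ (u : G) x, f (u • x) = u • f x) (c : X × G →₀ ℚ) :
    d1 (mp (fm f) c) = mp f (d1 c) :=
  ext_sg (d1.comp (mp (fm f))) ((mp f).comp d1) (fun ⟨x, u⟩ => by simp [fm, hf]) c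

lemma d2_mp {f : X → X'} (hf : ∀ (u : G) x, f (u • x) = u • f x) (η : X × G × G →₀ ℚ) :
    d2 (mp (fm f) η) = mp (fm f) (d2 η) :=
  ext_sg (d2.comp (mp (fm f))) ((mp (fm f)).comp d2) (fun ⟨x, u, u'⟩ => by simp [fm, hf]) η

lemma d2_int {η : X × G × G →₀ ℚ} (h : η ∈ IntC Λ _) : d2 η ∈ IntC Λ _ :=
  map_mem _ _ h fun ⟨x, u, u'⟩ _ => by
    rw [d2_sg]
    exact add_mem (sub_mem (sg_int _) (sg_int _)) (sg_int _)

lemma d1_rs {A : X → Prop} {c : X × G →₀ ℚ} (h : ∀ ε, c ε ≠ 0 → (A ε.1 ↔ A (ε.2 • ε.1))) :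
    d1 (rs (fun ε => A ε.1) c) = rs A (d1 c) :=
  ext_on (d1.comp (rs fun ε => A ε.1)) ((rs A).comp d1) c fun ⟨x, u⟩ hε => by
    have := h _ hε
    simp only [LinearMap.comp_apply, rs_sg, d1_sg, map_sub]
    by_cases h1 : A x
    · simp [h1, this.mp h1]
    · simp [h1, mt this.mpr h1]

/-- The commutator of the boundary with the restriction to cells based in `A`. -/
noncomputable def DD (A : X → Prop) : (X × G × G →₀ ℚ) →ₗ[ℚ] (X × G →₀ ℚ) :=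
  d2.comp (rs fun τ => A τ.1) - (rs fun ε => A ε.1).comp d2

lemma DD_apply (A : X → Prop) (η : X × G × G →₀ ℚ) :
    DD A η = d2 (rs (fun τ => A τ.1) η) - rs (fun ε => A ε.1) (d2 η) := rfl

lemma DD_sg (A : X → Prop) (x : X) (u u' : G) : DD A (sg (x, u, u')) =
    (if A x then sg (u • x, u') else 0) - (if A (u • x) then sg (u • x, u') else 0) := by
  simp only [DD_apply, rs_sg, d2_sg, map_add, map_sub]
  by_cases h1 : A x <;> simp [h1]

lemma DD_ne {A : X → Prop} {η : X × G × G →₀ ℚ} {ε : X × G} (h : DD A η ε ≠ 0) :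
    ∃ x u u', η (x, u, u') ≠ 0 ∧ ¬ (A x ↔ A (u • x)) ∧ ε = (u • x, u') := by
  obtain ⟨⟨x, u, u'⟩, h1, h2⟩ := map_ne _ h
  refine ⟨x, u, u', h1, ?_, ?_⟩
  · intro h3
    apply h2
    rw [DD_sg]
    by_cases h4 : A x
    · simp [h4, h3.mp h4]
    · simp [h4, mt h3.mpr h4]
  · rw [DD_sg] at h2
    rcases sub_ne h2 with h3 | h3 <;> split_ifs at h3
    · exact (sg_ne h3).symm
    · exact absurd rfl h3
    · exact (sg_ne h3).symm
    · exact absurd rfl h3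

lemma DD_eq_zero {A : X → Prop} {η : X × G × G →₀ ℚ}
    (h : ∀ x u u', η (x, u, u') ≠ 0 → (A x ↔ A (u • x))) : DD A η = 0 := by
  ext ε
  by_contra h1
  obtain ⟨x, u, u', h2, h3, -⟩ := DD_ne h1
  exact h3 (h x u u' h2)

lemma DD_int (A : X → Prop) {η : X × G × G →₀ ℚ} (h : η ∈ IntC Λ _) : DD A η ∈ IntC Λ _ :=
  sub_mem (d2_int (rs_int _ h)) (rs_int _ (d2_int h))

lemma DD_mp {f : X → X'} (hf : ∀ (u : G) x, f (u • x) = u • f x) (A : X' → Prop)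
    (η : X × G × G →₀ ℚ) : DD A (mp (fm f) η) = mp (fm f) (DD (fun x => A (f x)) η) := by
  rw [DD_apply, DD_apply, rs_mp, d2_mp hf, d2_mp hf, rs_mp, map_sub]
  rfl

end chains

/-- An equivariant normalisation of 2-chains with coefficients in `Λ`: it exists when the third
cohomology vanishes. -/
structure Fill (G : Type) [Group G] (Λ : Subring ℚ) where
  E0 : G → G → (G × G × G →₀ ℚ)
  int : ∀ u u', E0 u u' ∈ IntC Λ _
  dE : ∀ u u', d2 (E0 u u') = d2 (sg ((1 : G), u, u'))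
  E3 : ∀ x u u', mp (fm fun y => y * x) (E0 u u') = E0 (u * x) u' - E0 x (u' * u) + E0 x u

namespace Fill

variable {G : Type} [Group G] {Λ : Subring ℚ} (F : Fill G Λ)
  {X X' : Type} [MulAction G X] [MulAction G X']

/-- The normalisation operator on chains of any `G`-set. -/
noncomputable def E : (X × G × G →₀ ℚ) →ₗ[ℚ] (X × G × G →₀ ℚ) :=
  lin fun τ => mp (fm fun y : G => y • τ.1) (F.E0 τ.2.1 τ.2.2)

lemma E_sg (x : X) (u u' : G) :
    F.E (sg (x, u, u')) = mp (fm fun y : G => y • x) (F.E0 u u') := lin_sg _ _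

lemma d2_E (η : X × G × G →₀ ℚ) : d2 (F.E η) = d2 η :=
  ext_sg (d2.comp F.E) d2 (fun ⟨x, u, u'⟩ => by
    rw [LinearMap.comp_apply, E_sg, d2_mp (fun u y => mul_smul u y x), F.dE,
      ← d2_mp (fun u y => mul_smul u y x)]
    simp [fm]) η

lemma E_mp {f : X → X'} (hf : ∀ (u : G) x, f (u • x) = u • f x) (η : X × G × G →₀ ℚ) :
    F.E (mp (fm f) η) = mp (fm f) (F.E η) :=
  ext_sg (F.E.comp (mp (fm f))) ((mp (fm f)).comp F.E) (fun ⟨x, u, u'⟩ => by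
    simp only [LinearMap.comp_apply, mp_sg, fm, E_sg, mp_mp, hf]
    rfl) η

lemma E_int {η : X × G × G →₀ ℚ} (h : η ∈ IntC Λ _) : F.E η ∈ IntC Λ _ :=
  map_mem _ _ h fun ⟨x, u, u'⟩ _ => by
    rw [E_sg]
    exact mp_int _ (F.int _ _)

lemma E_ne {η : X × G × G →₀ ℚ} {τ : X × G × G} (h : F.E η τ ≠ 0) :
    ∃ x u u' t, η (x, u, u') ≠ 0 ∧ F.E0 u u' t ≠ 0 ∧ τ = (t.1 • x, t.2) := by
  obtain ⟨⟨x, u, u'⟩, h1, h2⟩ := map_ne _ h
  rw [E_sg] at h2
  obtain ⟨t, h3, h4⟩ := mp_ne h2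
  exact ⟨x, u, u', t, h1, h3, h4.symm⟩

/-- The filling operator on 1-chains of `G`. -/
noncomputable def σ : (G × G →₀ ℚ) →ₗ[ℚ] (G × G × G →₀ ℚ) := lin fun ε => F.E0 ε.1 ε.2

lemma σ_sg (x u : G) : F.σ (sg (x, u)) = F.E0 x u := lin_sg _ _

lemma σ_d2 (η : G × G × G →₀ ℚ) : F.σ (d2 η) = F.E η :=
  ext_sg (F.σ.comp d2) F.E (fun ⟨x, u, u'⟩ => by
    rw [LinearMap.comp_apply, d2_sg, map_add, map_sub, σ_sg, σ_sg, σ_sg, E_sg]
    exact (F.E3 x u u').symm) η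

lemma d2_σ {c : G × G →₀ ℚ} (hc : d1 c = 0) : d2 (F.σ c) = c := by
  have := ext_sg (d2.comp F.σ) (LinearMap.id - (mp fun x : G => ((1 : G), x)).comp d1)
    (fun ⟨x, u⟩ => by
      rw [LinearMap.comp_apply, σ_sg, F.dE]
      simp
      abel) c
  simpa [hc] using this

lemma σ_int {c : G × G →₀ ℚ} (h : c ∈ IntC Λ _) : F.σ c ∈ IntC Λ _ :=
  map_mem _ _ h fun ⟨x, u⟩ _ => by
    rw [σ_sg]
    exact F.int _ _

lemma σ_mp {c : G × G →₀ ℚ} (hc : d1 c = 0) (z : G) :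
    F.σ (mp (fm fun y => y * z) c) = mp (fm fun y => y * z) (F.σ c) := by
  have hf : ∀ u x : G, (u • x) * z = u • (x * z) := fun u x => mul_assoc u x z
  conv_lhs => rw [← F.d2_σ hc, ← d2_mp hf, σ_d2, F.E_mp hf, ← σ_d2, F.d2_σ hc]

end Fill

end Pool.Agent.Lib.MP_7903c7_al.CD
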