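import Pool.Agent.Lib.MP_7903c7_al.CD.Tree

set_option autoImplicit false

namespace Pool.Agent.Lib.MP_7903c7_al.CD

open scoped Classical Pointwise

variable {G : Type} [Group G] {Λ : Subring ℚ}

/-- Chains of `S`-neighbours inside `Z`. -/
def Ch (Z : G → Prop) (S : Finset G) : G → G → Prop :=
  Relation.ReflTransGen fun a b => Z b ∧ Cl S a b

lemma Ch.mul {Z : G → Prop} {S : Finset G} {c : G} (hc : ∀ x, Z x → Z (x * c)) {a b : G}
    (h : Ch Z S a b) : Ch Z S (a * c) (b * c) := by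
  induction h with
  | refl => exact .refl
  | tail _ h ih =>
    obtain ⟨h1, s, hs, rfl⟩ := h
    exact ih.tail ⟨hc _ h1, s, hs, mul_assoc _ _ _⟩

lemma Ch.mem {Z : G → Prop} {S : Finset G} {a b : G} (h : Ch Z S a b) (ha : Z a) : Z b := by
  rcases Relation.ReflTransGen.cases_tail h with h | ⟨_, _, h⟩
  · exact h ▸ ha
  · exact h.1

lemma Ch.symm {Z : G → Prop} {S : Finset G} (hi : ∀ u ∈ S, u⁻¹ ∈ S) {a b : G}
    (h : Ch Z S a b) (ha : Z a) : Ch Z S b a := by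
  induction h with
  | refl => exact .refl
  | tail h0 h ih => exact Relation.ReflTransGen.head ⟨Ch.mem h0 ha, h.2.symm hi⟩ ih

lemma finite_roots {p : ℕ} (hp : p.Prime) (S U : Finset G) :
    {w : G | (∀ k : ℤ, w ^ k = 1 → k = 0) ∧ ∃ (k : ℤ) (j : ℕ), ¬ (p : ℤ) ∣ k ∧ w ^ k ∈ S ∧
      w ^ p ^ j ∈ U}.Finite := by
  have hfin : (⋃ q ∈ (S ×ˢ U : Finset (G × G)), {w : G | (∀ k : ℤ, w ^ k = 1 → k = 0) ∧
      ∃ (k : ℤ) (j : ℕ), ¬ (p : ℤ) ∣ k ∧ w ^ k = q.1 ∧ w ^ p ^ j = q.2}).Finite := by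
    refine Set.Finite.biUnion (Finset.finite_toSet _) fun q _ => Set.Subsingleton.finite ?_
    rintro w ⟨hw, k, j, h1, h2, h3⟩ w' ⟨-, k', j', h1', h2', h3'⟩
    have h4 : k * (p : ℤ) ^ j' = (p : ℤ) ^ j * k' := by
      rw [← sub_eq_zero]
      apply hw
      rw [zpow_sub, zpow_mul, zpow_mul, h2, ← h2', ← Nat.cast_pow, ← Nat.cast_pow, zpow_natCast w,
        h3, ← h3', ← zpow_natCast w', ← zpow_mul, ← zpow_mul, mul_comm, mul_inv_cancel]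
    have hp0 : (p : ℤ) ≠ 0 := by exact_mod_cast hp.ne_zero
    have h5 : j = j' := by
      rcases lt_trichotomy j j' with h | h | h
      · obtain ⟨d, rfl⟩ := Nat.exists_eq_add_of_lt h
        refine absurd ⟨k * p ^ d, mul_left_cancel₀ (pow_ne_zero j hp0) ?_⟩ h1'
        rw [← h4]
        ring
      · exact h
      · obtain ⟨d, rfl⟩ := Nat.exists_eq_add_of_lt h
        refine absurd ⟨k' * p ^ d, mul_right_cancel₀ (pow_ne_zero j' hp0) ?_⟩ h1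
        rw [h4]
        ring
    subst h5
    have h6 : k = k' := mul_right_cancel₀ (pow_ne_zero j hp0) (by rw [h4, mul_comm])
    subst h6
    obtain ⟨a, b, hab⟩ : IsCoprime ((p : ℤ) ^ j) k :=
      ((Nat.prime_iff_prime_int.mp hp).coprime_iff_not_dvd.mpr h1).pow_left
    have key : ∀ v : G, v = (v ^ p ^ j) ^ a * (v ^ k) ^ b := fun v => by
      rw [← zpow_natCast, ← zpow_mul, ← zpow_mul, ← zpow_add, Nat.cast_pow, mul_comm _ a,
        mul_comm k, hab, zpow_one]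
    rw [key w, key w', h2, h3, h2', h3']
  refine hfin.subset ?_
  rintro w ⟨hw, k, j, h1, h2, h3⟩
  exact Set.mem_biUnion (x := (w ^ k, w ^ p ^ j)) (by simp [h2, h3]) ⟨hw, k, j, h1, rfl, rfl⟩

theorem cluster (F : Fill G Λ) {g : G} (hg : ∀ k : ℤ, g ^ k = 1 → k = 0) {p : ℕ} (hp : p.Prime)
    (U S2 : Finset G) (h1 : (1 : G) ∈ S2) (hi : ∀ u ∈ S2, u⁻¹ ∈ S2) :
    ∃ S3 : Finset G, U ⊆ S3 ∧ ∀ Z : G → Prop, (∀ x, Z x → ∃ j : ℕ, x * g ^ p ^ j * x⁻¹ ∈ U) →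
      (∀ x, Z x → Z (x * g)) → ∀ x0, Z x0 → Ch Z S2 x0 (x0 * g) →
      ∃ x, Z x ∧ x * g * x⁻¹ ∈ S3 := by
  obtain ⟨W⟩ := exists_wind F (z := g ^ p) fun k hk => by
    rw [← zpow_natCast, ← zpow_mul] at hk
    exact (mul_eq_zero.mp (hg _ hk)).resolve_left (by exact_mod_cast hp.ne_zero)
  obtain ⟨S, hS⟩ := W.tree U S2 h1
  refine ⟨U ∪ (finite_roots hp S U).toFinset, Finset.subset_union_left, ?_⟩
  intro Z hZ hZg x0 hx0 hch
  by_cases h0 : ∃ x, Z x ∧ x * g * x⁻¹ ∈ U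
  · obtain ⟨x, h2, h3⟩ := h0
    exact ⟨x, h2, Finset.mem_union_left _ h3⟩
  let P : XX (g ^ p) → Prop := fun a => ∃ x, Ch Z S2 x0 x ∧ cl _ x = a
  have hcon : ∀ x, Ch Z S2 x0 x →
      Relation.ReflTransGen (fun a b => P b ∧ Cl S2 a b) (cl _ x0) (cl _ x) ∧
      Relation.ReflTransGen (fun a b => P b ∧ Cl S2 a b) (cl _ x) (cl _ x0) := by
    intro x hx
    induction hx with
    | refl => exact ⟨.refl, .refl⟩
    | @tail b c h2 h3 ih =>
      have h4 : Cl S2 (cl (g ^ p) b) (cl _ c) := by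
        obtain ⟨s, hs, rfl⟩ := h3.2
        exact ⟨s, hs, rfl⟩
      exact ⟨ih.1.tail ⟨⟨c, h2.tail h3, rfl⟩, h4⟩, ih.2.head ⟨⟨b, h2, rfl⟩, h4.symm hi⟩⟩
  obtain ⟨_, k, ⟨x, hx, rfl⟩, hk, s, hs, h2⟩ := hS P ⟨g, mem_CZ.mpr (Commute.self_pow g p)⟩ p hp
    (by
      rintro _ ⟨x, hx, rfl⟩
      obtain ⟨j, hj⟩ := hZ x (hx.mem hx0)
      rcases j with _ | j
      · exact absurd ⟨x, hx.mem hx0, by simpa using hj⟩ h0
      have h3 : x * g ^ p ^ (j + 1) * x⁻¹ * x = x * (g ^ p) ^ ((p ^ j : ℕ) : ℤ) := by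
        rw [zpow_natCast, ← pow_mul, ← pow_succ', inv_mul_cancel_right]
      refine ⟨_, hj, by rw [cl_smul, h3, cl_mul_zpow], ?_⟩
      rw [W.θ_loop h3]
      exact_mod_cast pow_pos hp.pos j)
    (by
      rintro _ _ ⟨x, hx, rfl⟩ ⟨y, hy, rfl⟩
      exact (hcon x hx).2.trans (hcon y hy).1)
    (by
      rintro _ ⟨x, hx, rfl⟩
      exact ⟨x * g, Relation.ReflTransGen.trans hch (hx.mul hZg), rfl⟩)
    (rm_zpow _ (k := 1) (by simp)) ⟨_, x0, .refl, rfl⟩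
  rw [rm_cl, cl_smul, cl_eq] at h2
  obtain ⟨i, h2⟩ := h2
  obtain ⟨j, hj⟩ := hZ x (hx.mem hx0)
  refine ⟨x, hx.mem hx0, Finset.mem_union_right _ ((Set.Finite.mem_toFinset _).mpr
    ⟨fun l hl => hg l ?_, k + p * i, j, ?_, ?_, ?_⟩)⟩
  · rwa [conj_zpow, mul_inv_eq_one, mul_eq_left] at hl
  · rw [dvd_add_left (dvd_mul_right _ _)]
    exact_mod_cast hk
  · rw [conj_zpow, zpow_add, zpow_mul, zpow_natCast, zpow_natCast, ← mul_assoc]
    simp only [SubmonoidClass.coe_pow] at h2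
    rwa [← h2, mul_inv_cancel_right]
  · rwa [conj_pow]

end Pool.Agent.Lib.MP_7903c7_al.CD
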