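import Mathlib

set_option autoImplicit false

namespace Pool.Agent.Lib.MP_7903c7_al.CD

theorem exists_height {G : Type} [Group G] {r : G → G → Prop} (hr : Equivalence r) (w : G)
    (hw : ∀ (k : ℤ) x y, r x y → r (x * w ^ k) (y * w ^ k)) (M : ℕ)
    (h : ∀ x (k : ℤ), r (x * w ^ k) x → (M : ℤ) ∣ k) :
    ∃ n : G → ZMod M, (∀ x y, r x y → n x = n y) ∧ ∀ x, n (x * w) = n x + 1 := by
  let s : Setoid G := ⟨fun x y => ∃ k : ℤ, r (x * w ^ k) y, fun x => ⟨0, by simpa using hr.refl x⟩,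
    fun {x y} ⟨k, hk⟩ => ⟨-k, by simpa [mul_assoc] using hr.symm (hw (-k) _ _ hk)⟩,
    fun {x y z} ⟨k, hk⟩ ⟨l, hl⟩ => ⟨k + l, by
      rw [zpow_add, ← mul_assoc]
      exact hr.trans (hw l _ _ hk) hl⟩⟩
  have hex : ∀ x, ∃ k : ℤ, r ((Quotient.mk s x).out * w ^ k) x := fun x => Quotient.mk_out (s := s) x
  choose k hk using hex
  have key : ∀ (o y : G) (a b : ℤ), r (o * w ^ a) y → r (o * w ^ b) y →
      (a : ZMod M) = (b : ZMod M) := by
    intro o y a b h1 h2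
    have h3 := hr.trans h2 (hr.symm h1)
    rw [ZMod.intCast_eq_intCast_iff_dvd_sub]
    apply h (o * w ^ a)
    rwa [mul_assoc, ← zpow_add, add_sub_cancel]
  refine ⟨fun x => (k x : ZMod M), fun x y hxy => ?_, fun x => ?_⟩
  · have h1 : Quotient.mk s x = Quotient.mk s y := Quotient.sound ⟨0, by simpa using hxy⟩
    exact key _ y _ _ (hr.trans (hk x) hxy) (h1 ▸ hk y)
  · have h1 : Quotient.mk s x = Quotient.mk s (x * w) :=
      Quotient.sound ⟨1, by simpa using hr.refl _⟩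
    have h2 := hw 1 _ _ (hk x)
    rw [mul_assoc, ← zpow_add, zpow_one] at h2
    have := key _ _ _ _ (h1 ▸ hk (x * w)) h2
    simpa using this

end Pool.Agent.Lib.MP_7903c7_al.CD
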