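import Pool.Agent.Lib.MP_7903c7_al.CD.Chain
import Pool.Agent.Lib.MP_7903c7_al.CD.Height

set_option autoImplicit false

namespace Pool.Agent.Lib.MP_7903c7_al.CD

open scoped Classical

variable {G : Type} [Group G]

theorem exist_cob {k : Type} [CommRing k] (A : Rep k G)
    (h : CategoryTheory.Limits.IsZero (groupCohomology A 3))
    (f : G → G → G → A) (hf : ∀ a b c d, A.ρ a (f b c d) - f (a * b) c d + f a (b * c) d -
      f a b (c * d) + f a b c = 0) :
    ∃ φ : G → G → A, ∀ a b c, A.ρ a (φ b c) - φ (a * b) c + φ a (b * c) - φ a b = f a b c := by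
  have h1 := (HomologicalComplex.exactAt_iff_isZero_homology _ _).2 h
  rw [HomologicalComplex.exactAt_iff' _ 2 3 4 (by simp) (by simp),
    CategoryTheory.ShortComplex.moduleCat_exact_iff] at h1
  obtain ⟨φ, hφ⟩ := h1 (fun g : Fin 3 → G => f (g 0) (g 1) (g 2)) (by
    change (groupCohomology.inhomogeneousCochains A).d 3 (3 + 1) _ = 0
    rw [groupCohomology.inhomogeneousCochains.d_def]
    funext g
    refine Eq.trans ?_ (hf (g 0) (g 1) (g 2) (g 3))
    simp [inhomogeneousCochains.d_hom_apply, Fin.sum_univ_succ, Fin.contractNth, pow_succ]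
    abel)
  change (groupCohomology.inhomogeneousCochains A).d 2 (2 + 1) φ = _ at hφ
  rw [groupCohomology.inhomogeneousCochains.d_def] at hφ
  refine ⟨fun a b => φ ![a, b], fun a b c => ?_⟩
  refine Eq.trans ?_ (congrFun hφ ![a, b, c])
  have e0 : (fun i : Fin 2 => ![a, b, c] i.succ) = ![b, c] := by
    funext i; fin_cases i <;> rfl
  have e1 : Fin.contractNth (0 : Fin 3) (· * ·) ![a, b, c] = ![a * b, c] := by
    funext i; fin_cases i <;> rfl
  have e2 : Fin.contractNth (1 : Fin 3) (· * ·) ![a, b, c] = ![a, b * c] := by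
    funext i; fin_cases i <;> rfl
  have e3 : Fin.contractNth (2 : Fin 3) (· * ·) ![a, b, c] = ![a, b] := by
    funext i; fin_cases i <;> rfl
  rw [inhomogeneousCochains.d_hom_apply, Fin.sum_univ_three, e0, e1, e2, e3]
  simp [pow_succ]
  abel

/-- Rationals with denominator prime to `p`. -/
def existL (p : ℕ) : Subring ℚ where
  carrier := {q | p.Coprime q.den}
  mul_mem' {a b} ha hb := (Nat.Coprime.mul_right ha hb).coprime_dvd_right (Rat.mul_den_dvd a b)
  one_mem' := by simp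
  add_mem' {a b} ha hb := (Nat.Coprime.mul_right ha hb).coprime_dvd_right (Rat.add_den_dvd a b)
  zero_mem' := by simp
  neg_mem' {a} ha := by simpa using ha

/-- Integral 2-cycles. -/
def existM (G : Type) [Group G] (Λ : Subring ℚ) : AddSubgroup (G × G × G →₀ ℚ) where
  carrier := {c | d2 c = 0 ∧ c ∈ IntC Λ _}
  add_mem' ha hb := ⟨by rw [map_add, ha.1, hb.1, add_zero], add_mem ha.2 hb.2⟩
  zero_mem' := ⟨map_zero _, zero_mem _⟩
  neg_mem' ha := ⟨by rw [map_neg, ha.1, neg_zero], neg_mem ha.2⟩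

/-- The action on integral 2-cycles. -/
noncomputable def existR (G : Type) [Group G] (Λ : Subring ℚ) :
    Representation ℤ G (existM G Λ) where
  toFun γ := AddMonoidHom.toIntLinearMap
    { toFun := fun c => ⟨mp (fm fun y => y * γ⁻¹) c.1, by
        rw [d2_mp (fun u y => mul_assoc u y γ⁻¹), c.2.1, map_zero], mp_int _ c.2.2⟩
      map_zero' := Subtype.ext (map_zero _)
      map_add' := fun a b => Subtype.ext (map_add _ _ _) }
  map_one' := LinearMap.ext fun c => Subtype.ext (by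
    change mp _ c.1 = c.1
    simp only [inv_one, mul_one]
    exact mp_id _)
  map_mul' γ δ := LinearMap.ext fun c => Subtype.ext (by
    change mp _ c.1 = mp _ (mp _ c.1)
    simp only [mp_mp, fm, mul_inv_rev, mul_assoc]
    rfl)

theorem existR_val {Λ : Subring ℚ} (γ : G) (c : existM G Λ) :
    (existR G Λ γ c).1 = mp (fm fun y => y * γ⁻¹) c.1 := rfl

/-- The boundary of a 3-cell. -/
noncomputable def existD (Λ : Subring ℚ) (u1 u2 u3 : G) : existM G Λ :=
  ⟨sg (u1, u2, u3) - sg (1, u2 * u1, u3) + sg (1, u1, u3 * u2) - sg (1, u1, u2), by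
    simp only [map_sub, map_add, d2_sg, smul_eq_mul, mul_one, mul_assoc]
    abel, sub_mem (add_mem (sub_mem (sg_int _) (sg_int _)) (sg_int _)) (sg_int _)⟩

theorem exists_fill (p : ℕ) [Fact p.Prime]
    (H : ∀ A : Rep ℤ G, (∀ m : ℕ, p.Coprime m → Function.Bijective fun a : A => m • a) →
      CategoryTheory.Limits.IsZero (groupCohomology A 3)) :
    ∃ Λ : Subring ℚ, (p : ℚ)⁻¹ ∉ Λ ∧ Nonempty (Fill G Λ) := by
  have hp : p.Prime := Fact.out
  refine ⟨existL p, fun h => ?_, ?_⟩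
  · have h1 : p.Coprime ((p : ℚ)⁻¹).den := h
    rw [Rat.inv_natCast_den_of_pos hp.pos, Nat.coprime_self] at h1
    exact hp.one_lt.ne' h1
  obtain ⟨φ, hφ⟩ := exist_cob (Rep.of (existR G (existL p))) (H _ fun m hm => by
    have hm0 : m ≠ 0 := by
      rintro rfl
      exact hp.one_lt.ne' (by simpa using hm)
    have hm1 : (m : ℚ) ≠ 0 := Nat.cast_ne_zero.2 hm0
    refine ⟨fun a b e => Subtype.ext ?_, fun b => ⟨⟨(m : ℚ)⁻¹ • b.1, ?_, ?_⟩, Subtype.ext ?_⟩⟩
    · have e1 : m • a.1 = m • b.1 := congrArg Subtype.val e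
      rw [← Nat.cast_smul_eq_nsmul ℚ, ← Nat.cast_smul_eq_nsmul ℚ] at e1
      exact smul_right_injective _ hm1 e1
    · rw [map_smul, b.2.1, smul_zero]
    · have h1 : (m : ℚ)⁻¹ ∈ existL p := by
        change p.Coprime ((m : ℚ)⁻¹).den
        rwa [Rat.inv_natCast_den_of_pos (Nat.pos_of_ne_zero hm0)]
      exact fun a => mul_mem h1 (b.2.2 a)
    · change m • ((m : ℚ)⁻¹ • b.1) = b.1
      rw [← Nat.cast_smul_eq_nsmul ℚ, smul_smul, mul_inv_cancel₀ hm1, one_smul])
    (fun a b c => existD _ a⁻¹ b⁻¹ c⁻¹) (fun a b c d => Subtype.ext (by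
      change (existR G _ a _).1 - _ + _ - _ + _ = 0
      simp only [existR_val, existD, map_sub, map_add, mp_sg, fm, mul_inv_rev, one_mul, mul_assoc]
      abel))
  refine ⟨⟨fun u u' => sg (1, u, u') - (φ u⁻¹ u'⁻¹).1,
    fun u u' => sub_mem (sg_int _) (φ _ _).2.2, fun u u' => ?_, fun x u u' => ?_⟩⟩
  · rw [map_sub, (φ _ _).2.1, sub_zero]
  · have h1 : mp (fm fun y => y * x⁻¹⁻¹) (φ u⁻¹ u'⁻¹).1 - (φ (x⁻¹ * u⁻¹) u'⁻¹).1 +
        (φ x⁻¹ (u⁻¹ * u'⁻¹)).1 - (φ x⁻¹ u⁻¹).1 = (existD (existL p) x⁻¹⁻¹ u⁻¹⁻¹ u'⁻¹⁻¹).1 :=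
      congrArg Subtype.val (hφ x⁻¹ u⁻¹ u'⁻¹)
    simp only [inv_inv, existD] at h1
    simp only [map_sub, mp_sg, fm, one_mul, mul_inv_rev]
    rw [sub_eq_iff_eq_add, ← eq_sub_iff_add_eq, sub_eq_iff_eq_add] at h1
    rw [h1]
    abel

theorem no_torsion {Λ : Subring ℚ} (F : Fill G Λ) (p : ℕ) [Fact p.Prime] (hp : (p : ℚ)⁻¹ ∉ Λ)
    (w : G) (hw : w ^ p = 1) : w = 1 := by
  by_contra hne
  have hpp : p.Prime := Fact.out
  have ho : orderOf w = p := orderOf_eq_prime hw hne
  obtain ⟨n, -, hn⟩ := exists_height (r := Eq) eq_equivalence w (fun k x y h => by rw [h]) p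
    fun x k h => by rw [← ho, orderOf_dvd_iff_zpow_eq_one]; simpa using h
  let W : ZMod p → G := fun i => w ^ i.val
  have hW : ∀ i j, W i * W j = W (i + j) := fun i j => by
    simp only [W, ZMod.val_add, ← pow_eq_pow_mod _ hw, pow_add]
  have hW1 : W 1 = w := by simp only [W, ZMod.val_one, pow_one]
  have hk : ∀ x (k : ℕ), n (x * w ^ k) = n x + k := fun x k => by
    induction k with
    | zero => simp
    | succ k ih => rw [pow_succ, ← mul_assoc, hn, ih, Nat.cast_succ, add_assoc]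
  have hnW : ∀ x i, n (x * W i) = n x + i := fun x i => by rw [hk, ZMod.natCast_zmod_val]
  let c : G × G →₀ ℚ := ∑ j, sg (W j, w)
  have hc : d1 c = 0 := by
    simp only [c, map_sum, d1_sg, smul_eq_mul, Finset.sum_sub_distrib]
    rw [← Equiv.sum_comp (Equiv.addLeft (1 : ZMod p)) fun j => sg (W j), sub_eq_zero]
    simp only [Equiv.coe_addLeft, ← hW, hW1]
  have hR : ∀ i, mp (fm fun y => y * W i) c = c := fun i => by
    simp only [c, map_sum, mp_sg, fm, hW]
    exact Equiv.sum_comp (Equiv.addRight i) fun j => sg (W j, w)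
  have hξ : ∀ i, mp (fm fun y => y * W i) (F.σ c) = F.σ c := fun i => by
    rw [← F.σ_mp hc, hR]
  have hci : c ∈ IntC Λ _ := Submodule.sum_mem _ fun j _ => sg_int _
  let θ : G × G → ℚ := fun ε => ((n (ε.2 * ε.1) - n ε.1).val : ℚ)
  have hθ : ∀ x u i, θ (x * W i, u) = θ (x, u) := fun x u i => by
    simp only [θ, ← mul_assoc, hnW, add_sub_add_right_eq_sub]
  let L : (G × G →₀ ℚ) →ₗ[ℚ] ℚ := lin fun ε => if n ε.1 = n 1 then θ ε else 0
  have hs : ∀ (x : G) (t : ℚ), ∑ i, (if n (x * W i) = n 1 then t else 0) = t := fun x t => by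
    simp only [hnW, ← eq_sub_iff_add_eq', Finset.sum_ite_eq', Finset.mem_univ, if_true]
  have hf : ∀ i (u x : G), (u • x) * W i = u • (x * W i) := fun i u x => mul_assoc u x _
  have h1 : ∀ c', ∑ i, L (mp (fm fun y => y * W i) c') = lin θ c' := fun c' => by
    have := ext_sg (∑ i, L.comp (mp (fm fun y => y * W i))) (lin θ) (fun ⟨x, u⟩ => by
      simp only [LinearMap.sum_apply, LinearMap.comp_apply, mp_sg, L, lin_sg, fm, hθ, hs]) c'
    simpa only [LinearMap.sum_apply, LinearMap.comp_apply] using this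
  have h2 : ∀ η : G × G × G →₀ ℚ, ∑ i, lin θ (d2 (rs (fun τ => n τ.1 = n 1)
      (mp (fm fun y => y * W i) η))) = lin θ (d2 η) := fun η => by
    have := ext_sg (∑ i, (lin θ).comp (d2.comp ((rs fun τ : G × G × G => n τ.1 = n 1).comp
      (mp (fm fun y => y * W i))))) ((lin θ).comp d2) (fun ⟨x, u, u'⟩ => by
      simp only [LinearMap.sum_apply, LinearMap.comp_apply, mp_sg, fm, rs_sg, apply_ite d2,
        apply_ite (lin θ), map_zero, d2_sg, map_add, map_sub, lin_sg, smul_eq_mul, ← mul_assoc,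
        hθ, hs]) η
    simpa only [LinearMap.sum_apply, LinearMap.comp_apply] using this
  have h3 : L c = lin θ (d2 (rs (fun τ => n τ.1 = n 1) (F.σ c))) := by
    have e1 := h1 c
    have e2 := h2 (F.σ c)
    simp only [hR, hξ, F.d2_σ hc, Finset.sum_const, Finset.card_univ, ZMod.card,
      nsmul_eq_mul] at e1 e2
    exact mul_left_cancel₀ (Nat.cast_ne_zero.2 hpp.ne_zero) (e1.trans e2.symm)
  have h4 : L c = 1 := by
    have e1 : θ (1, w) = 1 := by
      have := hn 1
      rw [one_mul] at this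
      simp only [θ, mul_one, this, add_sub_cancel_left, ZMod.val_one, Nat.cast_one]
    have e2 := hs 1 1
    have e3 := hθ 1 w
    simp only [one_mul] at e2 e3
    simp only [c, map_sum, L, lin_sg, e3, e1, e2]
  have h5 := map_mem ((lin θ).comp d2) (Submodule.span Λ {(p : ℚ)})
    (rs_int (fun τ : G × G × G => n τ.1 = n 1) (F.σ_int hci)) fun ⟨x, u, u'⟩ _ => by
      obtain ⟨k, hk⟩ := (ZMod.intCast_zmod_eq_zero_iff_dvd (((n (u' * (u * x)) - n (u * x)).val : ℤ)
        - (n (u' * u * x) - n x).val + (n (u * x) - n x).val) p).1 (by simp [mul_assoc])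
      refine Submodule.mem_span_singleton.2 ⟨k, ?_⟩
      simp only [LinearMap.comp_apply, d2_sg, map_add, map_sub, lin_sg, θ, smul_eq_mul]
      have e : (((n (u' * (u * x)) - n (u * x)).val : ℚ) - (n (u' * u * x) - n x).val +
          (n (u * x) - n x).val) = p * k := by exact_mod_cast hk
      rw [e, mul_comm]
      rfl
  rw [LinearMap.comp_apply, ← h3, h4] at h5
  obtain ⟨a, ha⟩ := Submodule.mem_span_singleton.1 h5
  exact hp (eq_inv_of_mul_eq_one_left ha ▸ a.2)

end Pool.Agent.Lib.MP_7903c7_al.CD
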