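import Pool.Agent.Lib.MP_7903c7_al.CD.Kern

set_option autoImplicit false

namespace Pool.Agent.Lib.MP_7903c7_al.CD

open scoped Classical Pointwise

/-- In characteristic `p` an invariant sum equals the sum over the fixed points of a map whose
order is a power of `p`. -/
lemma rot_sum_fixed {α F : Type} [DecidableEq α] [Field F] {p : ℕ} [Fact p.Prime] [CharP F p] (m : ℕ)
    (s : Finset α) (f : α → α) (φ : α → F) (hs : ∀ a ∈ s, f a ∈ s)
    (hper : ∀ a ∈ s, f^[p ^ m] a = a) (hφ : ∀ a ∈ s, φ (f a) = φ a) :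
    ∑ a ∈ s, φ a = ∑ a ∈ s.filter (fun a => f a = a), φ a := by
  rw [← Finset.sum_fiberwise_of_maps_to (s := s) (t := s.image φ) (g := φ)
      (fun a ha => Finset.mem_image_of_mem φ ha),
    ← Finset.sum_fiberwise_of_maps_to (s := s.filter fun a => f a = a) (t := s.image φ) (g := φ)
      (fun a ha => Finset.mem_image_of_mem φ (Finset.mem_filter.1 ha).1)]
  refine Finset.sum_congr rfl fun c _ => ?_
  rw [Finset.sum_congr rfl fun a ha => (Finset.mem_filter.1 ha).2,
    Finset.sum_congr (s₁ := (s.filter fun a => f a = a).filter fun a => φ a = c) rfl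
      fun a ha => (Finset.mem_filter.1 ha).2,
    Finset.sum_const, Finset.sum_const, nsmul_eq_mul, nsmul_eq_mul]
  congr 1
  rw [CharP.natCast_eq_natCast F p]
  let t := s.filter fun a => φ a = c
  let f' : Function.End t := fun a => ⟨f a.1, Finset.mem_filter.2
    ⟨hs _ (Finset.mem_filter.1 a.2).1,
      (hφ _ (Finset.mem_filter.1 a.2).1).trans (Finset.mem_filter.1 a.2).2⟩⟩
  have hit : ∀ (k : ℕ) (a : t), ((f' ^ k) a).1 = f^[k] a.1 := by
    intro k
    induction k with
    | zero => intro a; rfl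
    | succ k ih =>
      intro a
      rw [pow_succ, Function.iterate_succ_apply]
      exact ih (f' a)
  have h1 : f' ^ p ^ m = 1 :=
    funext fun a => Subtype.ext ((hit _ a).trans (hper _ (Finset.mem_filter.1 a.2).1))
  have h2 := Equiv.Perm.card_fixedPoints_modEq h1
  rw [Fintype.card_coe] at h2
  refine h2.trans ?_
  rw [← Fintype.card_coe]
  refine congrArg (· % p) (Fintype.card_congr ?_)
  refine ⟨fun a => ⟨a.1.1, Finset.mem_filter.2 ⟨Finset.mem_filter.2
      ⟨(Finset.mem_filter.1 a.1.2).1, congrArg Subtype.val a.2⟩, (Finset.mem_filter.1 a.1.2).2⟩⟩,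
    fun a => ⟨⟨a.1, Finset.mem_filter.2 ⟨(Finset.mem_filter.1 (Finset.mem_filter.1 a.2).1).1,
      (Finset.mem_filter.1 a.2).2⟩⟩,
      Subtype.ext (Finset.mem_filter.1 (Finset.mem_filter.1 a.2).1).2⟩,
    fun _ => rfl, fun _ => rfl⟩

variable {G : Type} [Group G] {F : Type} [Field F] [Fintype F]
  {I : Type} [Fintype I] [DecidableEq I] {S : Finset G} {e : G → Matrix I I F}

/-- The words of length `m` with letters in `S`. -/
noncomputable def rotW (S : Finset G) : ℕ → Finset (List G)
  | 0 => {[]}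
  | m + 1 => (S ×ˢ rotW S m).image fun a => a.1 :: a.2

omit [Group G] in
lemma rot_mem_W {m : ℕ} {w : List G} : w ∈ rotW S m ↔ w.length = m ∧ ∀ u ∈ w, u ∈ S := by
  induction m generalizing w with
  | zero =>
    rw [rotW, Finset.mem_singleton, List.length_eq_zero_iff]
    exact ⟨fun h => ⟨h, by simp [h]⟩, fun h => h.1⟩
  | succ m ih =>
    rw [rotW, Finset.mem_image]
    constructor
    · rintro ⟨⟨u, w⟩, ha, rfl⟩
      obtain ⟨h1, h2⟩ := Finset.mem_product.1 ha
      obtain ⟨h3, h4⟩ := ih.1 h2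
      exact ⟨congrArg (· + 1) h3, List.forall_mem_cons.2 ⟨h1, h4⟩⟩
    · rintro ⟨h1, h2⟩
      cases w with
      | nil => simp at h1
      | cons u w =>
        obtain ⟨h3, h4⟩ := List.forall_mem_cons.1 h2
        exact ⟨(u, w), Finset.mem_product.2 ⟨h3, ih.2 ⟨by simpa using h1, h4⟩⟩, rfl⟩

lemma rot_prod_mem {m : ℕ} {w : List G} (hw : w ∈ rotW S m) : w.prod ∈ S ^ m := by
  induction m generalizing w with
  | zero =>
    rw [rotW, Finset.mem_singleton] at hw
    simp [hw]
  | succ m ih =>
    obtain ⟨⟨u, w⟩, ha, rfl⟩ := Finset.mem_image.1 hw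
    obtain ⟨h1, h2⟩ := Finset.mem_product.1 ha
    exact mul_mem_pow_succ h1 (ih h2)

/-- All right subproducts satisfy `A`. -/
def rotGood (A : G → Prop) (w : List G) : Prop := ∀ t : List G, t <:+ w → A t.prod

lemma rotGood_cons (A : G → Prop) (u : G) (w : List G) :
    rotGood A (u :: w) ↔ A (u * w.prod) ∧ rotGood A w := by
  simp only [rotGood, List.suffix_cons_iff, or_imp, forall_and, forall_eq, List.prod_cons]

omit [Fintype F] in
lemma rot_KK (A : G → Prop) (m : ℕ) (v : G) : KK S e A m v =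
    ∑ w ∈ rotW S m, if w.prod = v ∧ rotGood A w then (w.map e).prod else 0 := by
  induction m generalizing v with
  | zero => simp [KK_zero, rotW, rotGood, eq_comm]
  | succ m ih =>
    rw [KK_succ, rotW, Finset.sum_image (fun a _ b _ h => Prod.ext (List.cons.inj h).1
      (List.cons.inj h).2), Finset.sum_product]
    simp only [ih, Finset.mul_sum, List.prod_cons, rotGood_cons, List.map_cons, mul_ite,
      mul_zero]
    split_ifs with hv
    · refine Finset.sum_congr rfl fun u _ => Finset.sum_congr rfl fun w _ => if_congr ?_ rfl rfl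
      rw [eq_inv_mul_iff_mul_eq]
      exact ⟨fun h => ⟨h.1, h.1 ▸ hv, h.2⟩, fun h => ⟨h.1, h.2.2⟩⟩
    · refine (Finset.sum_eq_zero fun u _ => Finset.sum_eq_zero fun w _ => if_neg ?_).symm
      exact fun h => hv (h.1 ▸ h.2.1)

/-- The rotation of a based word. -/
noncomputable def rotR {g : G} : CC g × List G → CC g × List G
  | (x, []) => (x, [])
  | (x, u :: w) => (u⁻¹ • x, w ++ [u])

lemma rotR_iter {g : G} (w w' : List G) (x : CC g) :
    rotR^[w.length] (x, w ++ w') = (w.prod⁻¹ • x, w' ++ w) := by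
  induction w generalizing w' x with
  | nil => simp
  | cons u w ih =>
    rw [List.length_cons, Function.iterate_succ_apply, List.cons_append, rotR, List.append_assoc,
      ih, List.prod_cons, mul_inv_rev, mul_smul, List.append_assoc, List.singleton_append]

omit [Group G] in
lemma rot_replicate {u : G} {w : List G} (h : w ++ [u] = u :: w) :
    w = List.replicate w.length u := by
  induction w with
  | nil => rfl
  | cons a w ih =>
    obtain ⟨rfl, h2⟩ := List.cons.inj h
    rw [List.length_cons, List.replicate_succ, ← ih h2]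

lemma rot_lp_pow (g : G) (x : CC g) (k n : ℕ) : lp g x k ^ n = lp g x (k * n) := by
  rw [lp, lp, conj_pow, pow_mul]

lemma rot_root {p : ℕ} (hp : ∀ w : G, w ^ p = 1 → w = 1) (m : ℕ) {g u : G} {x : CC g} {k : ℕ}
    (h1 : u • x = x) (h2 : u ^ p ^ m = lp g x (k * p ^ m)) : u = lp g x k := by
  have hq : ∀ (m : ℕ) (w : G), w ^ p ^ m = 1 → w = 1 := by
    intro m
    induction m with
    | zero => intro w hw; simpa using hw
    | succ m ih =>
      intro w hw
      rw [pow_succ, pow_mul] at hw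
      exact ih w (hp _ hw)
  have hc : Commute u (lp g x k) := by
    have := lp_smul g u x k
    rw [h1, eq_mul_inv_iff_mul_eq] at this
    exact this.symm
  refine mul_inv_eq_one.1 (hq m _ ?_)
  rw [hc.inv_right.mul_pow, inv_pow, rot_lp_pow, h2, mul_inv_cancel]

lemma rot_step {p : ℕ} [Fact p.Prime] [CharP F p] (h : Idem S e) (g : G)
    (hp : ∀ w : G, w ^ p = 1 → w = 1) (B : Finset (CC g)) (χ χ' : CC g → Prop) (k : ℕ)
    (h1 : ∀ x u, u ∈ S → lp g x (k * Fintype.card F) ∈ S ^ Fintype.card F →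
      lp g (u • x) (k * Fintype.card F) ∈ S ^ Fintype.card F → (χ' x ↔ χ' (u • x)))
    (h2 : ∀ x, lp g x k ∈ S → (χ x ↔ χ' x)) :
    ∑ x ∈ B.filter χ', (KK S e (fun v => v • x ∈ B) (Fintype.card F)
        (lp g x (k * Fintype.card F))).trace = ∑ x ∈ B.filter χ, (e (lp g x k)).trace := by
  obtain ⟨m, -, hm⟩ := FiniteField.card F p
  have hQ : Fintype.card F ≠ 0 := Fintype.card_ne_zero
  let Ω := (B ×ˢ rotW S (Fintype.card F)).filter fun a => χ' a.1 ∧
    a.2.prod = lp g a.1 (k * Fintype.card F) ∧ rotGood (fun v => v • a.1 ∈ B) a.2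
  have hΩ : ∀ x w, (x, w) ∈ Ω ↔ (x ∈ B ∧ w ∈ rotW S (Fintype.card F)) ∧ χ' x ∧
      w.prod = lp g x (k * Fintype.card F) ∧ rotGood (fun v => v • x ∈ B) w := fun x w => by
    simp only [Ω, Finset.mem_filter, Finset.mem_product]
  have e1 : ∑ x ∈ B.filter χ', (KK S e (fun v => v • x ∈ B) (Fintype.card F)
      (lp g x (k * Fintype.card F))).trace = ∑ a ∈ Ω, (a.2.map e).prod.trace := by
    rw [Finset.sum_filter, Finset.sum_filter, Finset.sum_product]
    refine Finset.sum_congr rfl fun x _ => ?_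
    by_cases hx : χ' x
    · rw [if_pos hx, rot_KK, Matrix.trace_sum]
      refine Finset.sum_congr rfl fun w _ => ?_
      simp only [hx, true_and]
      split_ifs
      · rfl
      · exact Matrix.trace_zero _ _
    · simp only [hx, false_and, if_false, Finset.sum_const_zero]
  rw [e1, rot_sum_fixed (p := p) m Ω rotR]
  · refine Finset.sum_bij_ne_zero (fun a _ _ => a.1) ?_ ?_ ?_ ?_
    all_goals
      have key : ∀ a ∈ Ω.filter (fun a => rotR a = a),
          a.2 = List.replicate (Fintype.card F) (lp g a.1 k) := by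
        rintro ⟨x, w⟩ ha
        obtain ⟨ha, hr⟩ := Finset.mem_filter.1 ha
        obtain ⟨⟨-, h4⟩, -, h6, -⟩ := (hΩ _ _).1 ha
        have h8 := (rot_mem_W.1 h4).1
        cases w with
        | nil => exact absurd h8.symm hQ
        | cons u w =>
          obtain ⟨h9, h10⟩ := Prod.mk.inj hr
          have h11 : u :: w = List.replicate (Fintype.card F) u := by
            rw [← h8, List.length_cons, List.replicate_succ, ← rot_replicate h10]
          rw [h11, List.prod_replicate, hm] at h6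
          rw [h11, rot_root hp m (inv_smul_eq_iff.1 h9).symm h6]
    · intro a ha _
      obtain ⟨⟨h3, h4⟩, h5, -, -⟩ := (hΩ a.1 a.2).1 (Finset.mem_filter.1 ha).1
      rw [key a ha] at h4
      exact Finset.mem_filter.2 ⟨h3, (h2 _ ((rot_mem_W.1 h4).2 _
        (List.mem_replicate.2 ⟨hQ, rfl⟩))).2 h5⟩
    · intro a ha _ b hb _ hab
      refine Prod.ext hab ?_
      rw [key a ha, key b hb, hab]
    · intro x hx hne
      obtain ⟨h3, h4⟩ := Finset.mem_filter.1 hx
      have h5 : lp g x k ∈ S := by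
        by_contra h5
        exact hne (by rw [h.supp _ h5, Matrix.trace_zero])
      refine ⟨(x, List.replicate (Fintype.card F) (lp g x k)), Finset.mem_filter.2 ⟨(hΩ _ _).2
        ⟨⟨h3, rot_mem_W.2 ⟨List.length_replicate, fun u hu => ?_⟩⟩, (h2 _ h5).1 h4, ?_, ?_⟩, ?_⟩,
        ?_, rfl⟩
      · rwa [List.eq_of_mem_replicate hu]
      · rw [List.prod_replicate, rot_lp_pow]
      · intro t ht
        rw [(List.suffix_replicate_iff.1 ht).2, List.prod_replicate, rot_lp_pow, lp_smul_self]
        exact h3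
      · obtain ⟨n, hn⟩ := Nat.exists_eq_succ_of_ne_zero hQ
        rw [hn, List.replicate_succ, rotR, ← List.replicate_succ', List.replicate_succ,
          inv_smul_eq_iff.2 (lp_smul_self g x k).symm]
      · rwa [List.map_replicate, List.prod_replicate, FiniteField.trace_pow_card,
          FiniteField.pow_card]
    · intro a ha _
      rw [key a ha, List.map_replicate, List.prod_replicate, FiniteField.trace_pow_card,
        FiniteField.pow_card]
  · rintro ⟨x, w⟩ ha
    obtain ⟨⟨h3, h4⟩, h5, h6, h7⟩ := (hΩ _ _).1 ha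
    cases w with
    | nil => exact ha
    | cons u w =>
      obtain ⟨h8, h9⟩ := rot_mem_W.1 h4
      have h10 : u⁻¹ • x = w.prod • x := by
        rw [inv_smul_eq_iff, ← mul_smul, ← List.prod_cons, h6, lp_smul_self]
      have h11 : w ++ [u] ∈ rotW S (Fintype.card F) :=
        rot_mem_W.2 ⟨by simpa using h8, fun v hv => h9 v (by simpa [or_comm] using hv)⟩
      have h12 : (w ++ [u]).prod = lp g (u⁻¹ • x) (k * Fintype.card F) := by
        rw [lp_smul, ← h6]
        simp
      have h13 : u⁻¹ • x ∈ B := h10 ▸ h7 w (List.suffix_cons u w)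
      refine (hΩ _ _).2 ⟨⟨h13, h11⟩, (h1 x u⁻¹ (h.inv_mem u (h9 u List.mem_cons_self))
        (h6 ▸ rot_prod_mem h4) (h12 ▸ rot_prod_mem h11)).1 h5, h12, fun t ht => ?_⟩
      rcases List.suffix_concat_iff.1 ht with rfl | ⟨t, rfl, ht'⟩
      · simpa using h13
      · simpa [mul_smul] using h7 t (ht'.trans (List.suffix_cons u w))
  · rintro ⟨x, w⟩ ha
    obtain ⟨⟨-, h4⟩, -, h6, -⟩ := (hΩ _ _).1 ha
    have := rotR_iter w [] x
    rw [List.append_nil, List.nil_append, (rot_mem_W.1 h4).1, hm] at this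
    rw [this, h6, inv_smul_eq_iff.2 (lp_smul_self g x _).symm]
  · rintro ⟨x, w⟩ -
    cases w with
    | nil => rfl
    | cons u w =>
      simp only [rotR, List.map_append, List.prod_append, List.map_cons, List.map_nil,
        List.prod_cons, List.prod_nil, mul_one]
      exact Matrix.trace_mul_comm _ _

theorem level_sum {p : ℕ} [Fact p.Prime] [CharP F p] (h : Idem S e) (g : G)
    (hp : ∀ w : G, w ^ p = 1 → w = 1) (B : Finset (CC g)) (χ : CC g → ℕ → Prop)
    (h0 : ∀ x, lp g x 1 ∈ S → x ∈ B ∧ χ x 0)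
    (h1 : ∀ x j u, u ∈ S → lp g x (Fintype.card F ^ j) ∈ S ^ Fintype.card F →
      lp g (u • x) (Fintype.card F ^ j) ∈ S ^ Fintype.card F → (χ x j ↔ χ (u • x) j))
    (h2 : ∀ x j, lp g x (Fintype.card F ^ j) ∈ S → (χ x j ↔ χ x (j + 1)))
    (J : ℕ) (hJ : ∀ x ∈ B, lp g x (Fintype.card F ^ J) ∉ S) :
    ∑ j ∈ Finset.range J, ∑ x ∈ B.filter (fun x => χ x (j + 1)),
        ff S e (Fintype.card F) (fun v => v • x ∈ B) (lp g x (Fintype.card F ^ (j + 1))) =
      ∑ w ∈ S.filter (fun w => IsConj w g), (e w).trace := by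
  let T : ℕ → F := fun j =>
    ∑ x ∈ B.filter (fun x => χ x j), (e (lp g x (Fintype.card F ^ j))).trace
  have e1 : ∀ j, ∑ x ∈ B.filter (fun x => χ x (j + 1)),
      ff S e (Fintype.card F) (fun v => v • x ∈ B) (lp g x (Fintype.card F ^ (j + 1)))
        = T j - T (j + 1) := by
    intro j
    simp only [ff, Finset.sum_sub_distrib]
    congr 1
    · exact rot_step h g hp B (fun x => χ x j) (fun x => χ x (j + 1)) (Fintype.card F ^ j)
        (fun x u => h1 x (j + 1) u) fun x => h2 x j
    · refine Finset.sum_congr rfl fun x hx => ?_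
      rw [KK_one h, if_pos]
      rw [lp_smul_self, one_smul, and_self]
      exact (Finset.mem_filter.1 hx).1
  have e2 : T J = 0 := Finset.sum_eq_zero fun x hx => by
    rw [h.supp _ (hJ x (Finset.mem_filter.1 hx).1), Matrix.trace_zero]
  rw [Finset.sum_congr rfl fun j _ => e1 j, Finset.sum_range_sub', e2, sub_zero]
  refine Finset.sum_bij_ne_zero (fun x _ _ => lp g x 1) ?_ ?_ ?_ ?_
  · intro x _ hne
    refine Finset.mem_filter.2 ⟨?_, ?_⟩
    · by_contra h5
      exact hne (by rw [pow_zero, h.supp _ h5, Matrix.trace_zero])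
    · exact (isConj_iff.2 ⟨x.out, by rw [lp, pow_one]⟩).symm
  · intro x _ _ y _ _ hxy
    rw [← x.out_eq', ← y.out_eq', QuotientGroup.eq]
    rintro _ rfl
    simp only [lp, pow_one] at hxy
    have h5 := congrArg (fun z => x.out⁻¹ * z * y.out) hxy
    simpa [mul_assoc] using h5
  · intro w hw hne
    obtain ⟨h3, h4⟩ := Finset.mem_filter.1 hw
    obtain ⟨c, hc⟩ := isConj_iff.1 h4.symm
    have h5 : lp g (QuotientGroup.mk c) 1 = w := by rw [lp_mk, pow_one, hc]
    exact ⟨QuotientGroup.mk c, Finset.mem_filter.2 (h0 _ (h5 ▸ h3)), by rwa [pow_zero, h5], h5⟩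
  · intro x _ _
    rw [pow_zero]

end Pool.Agent.Lib.MP_7903c7_al.CD
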