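import Pool.Agent.Lib.MP_7903c7_al.CD.Pattern
import Pool.Agent.Lib.MP_7903c7_al.CD.Rot
import Pool.Agent.Lib.MP_7903c7_al.CD.Exist

set_option autoImplicit false

namespace Pool.Agent.Lib.MP_7903c7_al.CD

open scoped Classical Pointwise

variable {G : Type} [Group G] {Λ : Subring ℚ}

lemma sum_classes {α M : Type} [AddCommMonoid M] (L : Finset α) (r : α → α → Prop) (f : α → M)
    (h1 : ∀ a, r a a) (h2 : ∀ a ∈ L, ∀ b ∈ L, r a b → r b a) (h3 : ∀ a b c, r a b → r b c → r a c)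
    (h : ∀ a ∈ L, ∑ b ∈ L.filter (r a), f b = 0) : ∑ a ∈ L, f a = 0 := by
  rw [← Finset.sum_fiberwise_of_maps_to (t := L.image fun a => L.filter (r a))
    (fun a ha => Finset.mem_image_of_mem _ ha)]
  refine Finset.sum_eq_zero fun C hC => ?_
  obtain ⟨a, ha, rfl⟩ := Finset.mem_image.mp hC
  rw [← h a ha]
  refine Finset.sum_congr (Finset.filter_congr fun b hb => ⟨fun h4 => ?_, fun h4 => ?_⟩)
    fun _ _ => rfl
  · exact (Finset.mem_filter.mp (h4 ▸ Finset.mem_filter.mpr ⟨hb, h1 b⟩)).2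
  · exact Finset.filter_congr fun c _ => ⟨h3 _ _ _ h4, h3 _ _ _ (h2 a ha b hb h4)⟩

lemma card_orbit {g : G} {p : ℕ} (hp : p.Prime) (htf : ∀ w : G, w ^ p = 1 → w = 1)
    (H : Subgroup (CZ g)) (hg : ∀ c : CZ g, (c : G) = g → c ∈ H)
    (hroot : ∀ ρ ∈ H, (ρ : G) ^ p ≠ g) (hfin : ((fun c : CZ g => cl g c) '' H).Finite) :
    ¬ p ∣ ((fun c : CZ g => cl g c) '' H).ncard := by
  let g0 : CZ g := ⟨g, mem_CZ.mpr (Commute.refl g)⟩
  let K : Subgroup H := (Subgroup.zpowers g).comap ((CZ g).subtype.comp H.subtype)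
  have hK : ∀ c : H, c ∈ K ↔ ∃ k : ℤ, g ^ k = c := fun c => Subgroup.mem_zpowers_iff
  have : K.Normal := ⟨fun a ha b => by
    obtain ⟨k, hk⟩ := (hK a).mp ha
    refine (hK _).mpr ⟨k, ?_⟩
    simp only [Subgroup.coe_mul, Subgroup.coe_inv]
    rw [← hk, ((CZ_comm b.1).zpow_right k).eq, mul_inv_cancel_right]⟩
  let φ : H ⧸ K → XX g := Quotient.map' (fun c => ((c : CZ g) : G)) fun a b h => by
    rw [QuotientGroup.leftRel_apply] at h ⊢
    exact h
  have hφ : Function.Injective φ := by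
    intro a b h
    induction a using QuotientGroup.induction_on with
    | H a =>
    induction b using QuotientGroup.induction_on with
    | H b =>
      have h' : cl g (a.1 : G) = cl g (b.1 : G) := h
      have h'' := QuotientGroup.eq.mp h'
      exact QuotientGroup.eq.mpr h''
  have hr : Set.range φ = (fun c : CZ g => cl g c) '' H := by
    ext x
    constructor
    · rintro ⟨a, rfl⟩
      induction a using QuotientGroup.induction_on with
      | H a => exact ⟨a.1, a.2, rfl⟩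
    · rintro ⟨c, hc, rfl⟩
      exact ⟨QuotientGroup.mk ⟨c, hc⟩, rfl⟩
  rw [← hr] at hfin ⊢
  have : Finite (H ⧸ K) := (Set.finite_range_iff hφ).mp hfin
  rw [Set.ncard_range_of_injective hφ]
  intro hd
  have := Fact.mk hp
  obtain ⟨q, hq⟩ := exists_prime_orderOf_dvd_card' p hd
  induction q using QuotientGroup.induction_on with
  | H c =>
  have h1 : c ^ p ∈ K := by
    rw [← QuotientGroup.eq_one_iff, QuotientGroup.mk_pow, ← hq, pow_orderOf_eq_one]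
  obtain ⟨k, hk⟩ := (hK _).mp h1
  simp only [SubmonoidClass.coe_pow] at hk
  have hc := CZ_comm c.1
  by_cases h2 : (p : ℤ) ∣ k
  · obtain ⟨l, rfl⟩ := h2
    have h3 := htf ((c.1 : G) * g ^ (-l)) (by
      rw [(hc.zpow_right _).mul_pow, ← hk, ← zpow_natCast (g ^ (-l)), ← zpow_mul, ← zpow_add]
      simp [mul_comm])
    have h4 : (c : H ⧸ K) = 1 := (QuotientGroup.eq_one_iff c).mpr ((hK c).mpr
      ⟨l, by rw [zpow_neg, mul_inv_eq_one] at h3; exact h3.symm⟩)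
    rw [h4, orderOf_one] at hq
    exact hp.one_lt.ne hq
  · obtain ⟨a, b, hab⟩ := (Nat.prime_iff_prime_int.mp hp).coprime_iff_not_dvd.mpr h2
    refine hroot (c.1 ^ b * g0 ^ a) (mul_mem (zpow_mem c.2 b) (zpow_mem (hg g0 rfl) a)) ?_
    simp only [Subgroup.coe_mul, SubgroupClass.coe_zpow, g0]
    rw [(hc.zpow_zpow b a).mul_pow, ← zpow_natCast, ← zpow_natCast, ← zpow_mul, ← zpow_mul,
      mul_comm b, zpow_mul, zpow_natCast, ← hk, ← zpow_mul, ← zpow_add, add_comm, mul_comm k, hab,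
      zpow_one]

/-- Equality of patterns. -/
def PE (Λ : Subring ℚ) {g : G} (B : Finset (CC g)) (a a' : XX g × G × G →₀ ℚ) : Prop :=
  rs (fun τ => pj g τ.1 ∈ B) (a' - a) ∈ IntC Λ _

section PE

variable {g : G} {B : Finset (CC g)} {a a' a'' : XX g × G × G →₀ ℚ}

lemma PE.of_int (h : a' - a ∈ IntC Λ _) : PE Λ B a a' := rs_int _ h

lemma PE.refl : PE Λ B a a := PE.of_int (by rw [sub_self]; exact zero_mem _)

lemma PE.symm (h : PE Λ B a a') : PE Λ B a' a := by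
  rw [PE, ← neg_sub, map_neg]
  exact neg_mem h

lemma PE.trans (h : PE Λ B a a') (h' : PE Λ B a' a'') : PE Λ B a a'' := by
  rw [PE, ← sub_add_sub_cancel a'' a' a, map_add]
  exact add_mem h' h

lemma PE.mp (h : PE Λ B a a') (r : CZ g) : PE Λ B (mp (fm (rm r)) a) (mp (fm (rm r)) a') := by
  rw [PE, ← map_sub, rs_mp]
  refine mp_int _ ?_
  simp only [fm, pj_rm]
  exact h

end PE

variable {F : Type} [Field F] [Fintype F] {I : Type} [Fintype I] [DecidableEq I]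
  {S : Finset G} {e : G → Matrix I I F}

theorem core (Fl : Fill G Λ) {p : ℕ} [Fact p.Prime] [CharP F p] (hΛ : (p : ℚ)⁻¹ ∉ Λ)
    (h : Idem S e) {g : G} (hg : ∀ k : ℤ, g ^ k = 1 → k = 0) :
    ∑ w ∈ S.filter (fun w => IsConj w g), (e w).trace = 0 := by
  have hp : p.Prime := Fact.out
  obtain ⟨W⟩ := exists_wind Fl hg
  have htf := no_torsion Fl p hΛ
  obtain ⟨m, -, hQ⟩ := FiniteField.card F p
  have hQ2 : 2 ≤ Fintype.card F := Fintype.one_lt_card
  obtain ⟨B0, Sp, f0, fmove, fpat, fb, fc⟩ := W.flux hp hΛ (S ^ Fintype.card F) S h.one_mem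
  obtain ⟨B, hB0, hpat⟩ := W.pattern_sum h B0
  have hls := level_sum h g htf B
  generalize Fintype.card F = Q at hQ hQ2 f0 fmove fpat fb fc hB0 hpat hls
  have h1 : ∀ n, (1 : G) ∈ S ^ n := fun n => mem_pow_mono h.one_mem (Nat.zero_le n) (by simp)
  have hSU : ∀ u ∈ S, u ∈ S ^ Q := fun u hu =>
    mem_pow_mono h.one_mem (m := 1) (by omega) (by simpa using hu)
  have hRL : ∀ (x : XX g) (j : ℕ), lp g (pj g x) (Q ^ j) ∈ S ^ Q →
      W.RL Q (S ^ Q) x (lp g (pj g x) (Q ^ j)) := fun x j hj =>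
    ⟨⟨hj, (W.lp_loop x _).1, by rw [(W.lp_loop x _).2]; positivity⟩, j, (W.lp_loop x _).2⟩
  have hRl : ∀ {x u}, W.RL Q (S ^ Q) x u → W.Rl p (S ^ Q) x u := fun ⟨h2, j, h3⟩ =>
    ⟨h2, m * j, by rw [h3, hQ, pow_mul]⟩
  have hinj : ∀ x : CC g, Function.Injective fun j => lp g x (Q ^ j) := by
    intro x j j' h2
    simp only [lp, mul_left_inj, mul_right_inj] at h2
    rw [← zpow_natCast, ← zpow_natCast] at h2
    exact Nat.pow_right_injective hQ2 (by exact_mod_cast W.zpow_inj h2)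
  obtain ⟨J, hJ⟩ := (Set.Finite.biUnion B.finite_toSet fun x _ =>
    (S ^ Q).finite_toSet.preimage (hinj x).injOn).bddAbove
  replace hJ : ∀ x ∈ B, ∀ j, lp g x (Q ^ j) ∈ S ^ Q → j ≤ J := fun x hx j hj =>
    hJ (Set.mem_biUnion hx hj)
  rw [← hls (fun x j => ∃ y, pj g y = x ∧ Sp y (lp g x (Q ^ j))) ?_ ?_ ?_ (J + 1)
    (fun x hx h2 => by have := hJ x hx _ (hSU _ h2); omega)]
  rotate_left
  · intro x hx
    obtain ⟨y, rfl⟩ : ∃ y, pj g y = x := ⟨cl g x.out, QuotientGroup.out_eq' x⟩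
    have h2 := hRL y 0 (by simpa using hSU _ hx)
    have h3 := f0 _ _ h2.1 ((W.lp_loop y (Q ^ 0)).2.trans (by simp))
    exact ⟨by simpa using hB0 _ h3.1 1 (h1 _), y, rfl, h3.2⟩
  · intro x j u hu h2 h3
    have key : ∀ y, pj g y = x → (Sp y (lp g x (Q ^ j)) ↔ Sp (u • y) (lp g (u • x) (Q ^ j))) := by
      rintro y rfl
      rw [← pj_smul] at h3 ⊢
      exact fmove _ _ _ _ hu (hRl (hRL _ _ h2)) (hRl (hRL _ _ h3))
    constructor
    · rintro ⟨y, h4, h5⟩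
      exact ⟨u • y, by rw [pj_smul, h4], (key y h4).mp h5⟩
    · rintro ⟨y, h4, h5⟩
      have h6 : pj g (u⁻¹ • y) = x := by rw [pj_smul, h4, inv_smul_smul]
      exact ⟨_, h6, (key _ h6).mpr (by rwa [smul_inv_smul])⟩
  · intro x j h2
    refine exists_congr fun y => and_congr_right ?_
    rintro rfl
    have h3 : lp g (pj g y) (Q ^ (j + 1)) ∈ S ^ Q := by
      have := Finset.pow_mem_pow (n := Q) h2
      rwa [lp, conj_pow, ← pow_mul, ← pow_succ] at this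
    simpa using fmove y 1 _ _ h.one_mem (hRl (hRL _ _ (hSU _ h2)))
      (by rw [one_smul]; exact hRl (hRL _ _ h3))
  let f : CC g × G → F := fun b => ff S e Q (fun w => w • b.1 ∈ B) b.2
  have hf0 : ∀ b, f b ≠ 0 → b.1 ∉ B0 := fun b h2 h3 =>
    h2 (ff_full h (by omega) (hB0 _ h3) _)
  let L := (B ×ˢ (S ^ Q)).filter fun b =>
    b.1 ∉ B0 ∧ ∃ x, pj g x = b.1 ∧ W.RL Q (S ^ Q) x b.2 ∧ Sp x b.2
  have hL : ∀ b, b ∈ L ↔ (b.1 ∈ B ∧ b.2 ∈ S ^ Q) ∧
      b.1 ∉ B0 ∧ ∃ x, pj g x = b.1 ∧ W.RL Q (S ^ Q) x b.2 ∧ Sp x b.2 := fun b => by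
    simp only [L, Finset.mem_filter, Finset.mem_product]
  rw [Finset.sum_sigma', Finset.sum_bij_ne_zero (t := L) (g := f)
    (fun q _ _ => (q.2, lp g q.2 (Q ^ (q.1 + 1)))) ?_ ?_ ?_ (fun _ _ _ => rfl)]
  rotate_left
  · rintro ⟨j, x⟩ hq h2
    simp only [Finset.mem_sigma, Finset.mem_filter] at hq
    obtain ⟨-, h3, y, rfl, h4⟩ := hq
    have h5 : lp g (pj g y) (Q ^ (j + 1)) ∈ S ^ Q := by
      by_contra h5
      apply h2
      rw [ff, KK_supp _ h5, KK_supp _ (fun h6 => h5 (mem_pow_mono h.one_mem (by omega) h6)),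
        sub_self]
    exact (hL _).mpr ⟨⟨h3, h5⟩, hf0 (_, _) h2, y, rfl, hRL _ _ h5, h4⟩
  · rintro ⟨j, x⟩ _ _ ⟨j', x'⟩ _ _ h2
    obtain ⟨rfl, h3⟩ := Prod.mk.inj h2
    obtain rfl : j = j' := Nat.succ_injective (hinj _ h3)
    rfl
  · rintro ⟨x, v⟩ hb h2
    obtain ⟨⟨h3, h4⟩, h5, y, rfl, ⟨h6, j, h7⟩, h8⟩ := (hL _).mp hb
    obtain rfl := W.eq_lp h6.2.1 h7
    rcases j with _ | j
    · exact absurd (f0 _ _ h6 (by simpa using h7)).1 h5
    have := hJ _ h3 _ h4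
    refine ⟨⟨j, pj g y⟩, ?_, h2, rfl⟩
    simp only [Finset.mem_sigma, Finset.mem_filter, Finset.mem_range]
    exact ⟨by omega, h3, y, rfl, h8⟩
  have hrm : ∀ {x u x' u'}, W.Lp (S ^ Q) x u → W.Lp (S ^ Q) x' u' →
      PE Λ B0 (W.al x u) (W.al x' u') → ∀ r, PE Λ B0 (W.al (rm r x) u) (W.al (rm r x') u') :=
    fun h2 h3 h4 r => ((PE.of_int (h2.al_rm_int r)).symm.trans (h4.mp r)).trans
      (PE.of_int (h3.al_rm_int r))
  have hlift : ∀ {x x' u}, pj g x = pj g x' → W.RL Q (S ^ Q) x u → W.RL Q (S ^ Q) x' u := by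
    rintro x x' u h2 ⟨h3, j, h4⟩
    obtain ⟨r, rfl⟩ := pj_eq h2
    exact ⟨h3.rm r, j, (Wind.θ_rm r h3.2.1).trans h4⟩
  refine sum_classes L (fun b b' => ∀ x, pj g x = b.1 →
    ∃ x', pj g x' = b'.1 ∧ PE Λ B0 (W.al x b.2) (W.al x' b'.2)) f
    (fun b x hx => ⟨x, hx, PE.refl⟩) ?_ ?_ ?_
  · intro b hb b' hb' h2 x' hx'
    obtain ⟨-, -, x, h3, h4, -⟩ := (hL _).mp hb
    obtain ⟨-, -, y, h5, h6, -⟩ := (hL _).mp hb'
    obtain ⟨x'', h7, h8⟩ := h2 x h3
    obtain ⟨r, rfl⟩ := pj_eq (h7.trans hx'.symm)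
    exact ⟨rm r x, (pj_rm r x).trans h3,
      (hrm h4.1 (hlift (h5.trans h7.symm) h6).1 h8 r).symm⟩
  · intro a b c h2 h3 x hx
    obtain ⟨y, h4, h5⟩ := h2 x hx
    obtain ⟨w, h6, h7⟩ := h3 y h4
    exact ⟨w, h6, h5.trans h7⟩
  rintro ⟨_, v0⟩ hb0
  obtain ⟨⟨k1, -⟩, k2, x0, rfl, k3, k4⟩ := (hL _).mp hb0
  obtain ⟨T, hT, hsum⟩ := hpat x0 v0 k3 k1 (fb _ _ k3.1 k2 k4)
  replace hT : ∀ q, q ∈ T ↔ pj g q.1 ∈ B ∧ W.RL Q (S ^ Q) q.1 q.2 ∧
    PE Λ B0 (W.al x0 v0) (W.al q.1 q.2) := hT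
  let H : Subgroup (CZ g) :=
    { carrier := {c | PE Λ B0 (W.al x0 v0) (mp (fm (rm c)) (W.al x0 v0))}
      one_mem' := by
        have : fm (T := G × G) (rm (1 : CZ g)) = fun a => a := funext fun a => by
          simp [fm, rm_one]
        rw [Set.mem_ofPred_eq, this, mp_id]
        exact PE.refl
      mul_mem' := fun {a b} ha hb => by
        have := ha.mp b
        rw [mp_mp] at this
        have e1 : fm (T := G × G) (rm (a * b)) = fun τ => fm (rm b) (fm (rm a) τ) :=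
          funext fun τ => by simp only [fm, rm_mul]
        rw [Set.mem_ofPred_eq, e1]
        exact hb.trans this
      inv_mem' := fun {a} ha => by
        have := ha.mp a⁻¹
        rw [mp_mp] at this
        simp only [fm, rm_inv, mp_id] at this
        exact this.symm }
  have hfib : ∀ q1 ∈ T, ((T.filter fun q => (pj g q.1, q.2) = (pj g q1.1, q1.2)) : Set (XX g × G)) =
      (fun x => (q1.1.out • x, q1.2)) '' ((fun c : CZ g => cl g c) '' H) := by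
    rintro ⟨x1, v1⟩ hq1
    obtain ⟨l1, l2, l3⟩ := (hT _).mp hq1
    have hx1 : ∀ c : CZ g, x1.out • cl g c = rm c x1 := fun c => by
      rw [cl_smul, ← rm_cl, cl, QuotientGroup.out_eq']
    ext ⟨x, v⟩
    simp only [Finset.coe_filter, Set.mem_ofPred_eq, Prod.mk.injEq, Set.image_image, hx1,
      Set.mem_image, hT]
    constructor
    · rintro ⟨⟨-, -, l4⟩, l5, rfl⟩
      obtain ⟨c, rfl⟩ := pj_eq l5.symm
      exact ⟨c, (l4.trans (PE.of_int (l2.1.al_rm_int c)).symm).trans (l3.mp c).symm, rfl, rfl⟩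
    · rintro ⟨c, hc, rfl, rfl⟩
      exact ⟨⟨by rwa [pj_rm], hlift (pj_rm c x1).symm l2,
        (PE.trans hc (l3.mp c)).trans (PE.of_int (l2.1.al_rm_int c))⟩, pj_rm c x1, rfl⟩
  have hi : ∀ q1 : XX g × G, Function.Injective fun x : XX g => (q1.1.out • x, q1.2) :=
    fun q1 x x' h2 => MulAction.injective _ (Prod.mk.inj h2).1
  have hN : ¬ p ∣ ((fun c : CZ g => cl g c) '' H).ncard := by
    refine card_orbit hp htf H (fun c hc => ?_) (fun ρ hρ h2 => fc _ _ ρ k3.1 k2 k4 h2 hρ) ?_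
    · have : fm (T := G × G) (rm c) = fun a => a := funext fun a => by
        simp [fm, rm_zpow c (k := 1) (by simpa using hc)]
      show PE Λ B0 _ (mp (fm (rm c)) _)
      rw [this, mp_id]
      exact PE.refl
    · rw [← Set.finite_image_iff (hi (x0, v0)).injOn,
        ← hfib (x0, v0) ((hT _).mpr ⟨k1, k3, PE.refl⟩)]
      exact Finset.finite_toSet _
  generalize hNN : ((fun c : CZ g => cl g c) '' H).ncard = N at hN
  have h2 : ∑ q ∈ T, f (pj g q.1, q.2) = 0 := hsum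
  rw [Finset.sum_comp f fun q : XX g × G => (pj g q.1, q.2),
    Finset.sum_congr rfl (g := fun b => N • f b), ← Finset.smul_sum, nsmul_eq_mul, mul_eq_zero,
    CharP.cast_eq_zero_iff F p] at h2
  · rw [← h2.resolve_left hN]
    refine Finset.sum_subset ?_ ?_
    · intro b hb
      obtain ⟨l1, l2⟩ := Finset.mem_filter.mp hb
      obtain ⟨x, l3, l4⟩ := l2 x0 rfl
      obtain ⟨⟨l5, -⟩, -, y, l6, l7, -⟩ := (hL _).mp l1
      exact Finset.mem_image.mpr ⟨(x, b.2), (hT _).mpr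
        ⟨l3 ▸ l5, hlift (l6.trans l3.symm) l7, l4⟩, Prod.ext l3 rfl⟩
    · intro b hb l1
      obtain ⟨⟨x, v⟩, l2, rfl⟩ := Finset.mem_image.mp hb
      obtain ⟨l3, l4, l5⟩ := (hT _).mp l2
      by_contra l6
      refine l1 (Finset.mem_filter.mpr ⟨(hL _).mpr ⟨⟨l3, l4.1.1⟩, hf0 _ l6, x, rfl, l4,
        fpat _ _ _ _ k3.1 l4.1 k2 (hf0 _ l6) l5 k4⟩, fun y hy => ?_⟩)
      obtain ⟨r, rfl⟩ := pj_eq hy.symm
      exact ⟨rm r x, pj_rm r x, hrm k3.1 l4.1 l5 r⟩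
  · intro b hb
    obtain ⟨q1, l1, rfl⟩ := Finset.mem_image.mp hb
    rw [← Set.ncard_coe_finset, hfib q1 l1, Set.ncard_image_of_injective _ (hi q1), hNN]

end Pool.Agent.Lib.MP_7903c7_al.CD
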