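import Pool.Agent.Lib.MP_7903c7_al.CD.Clus

set_option autoImplicit false

namespace Pool.Agent.Lib.MP_7903c7_al.CD

open scoped Classical Pointwise

variable {G : Type} [Group G] {Λ : Subring ℚ}

/-- The projection to cosets of the centraliser. -/
def pj (g : G) : XX g → CC g :=
  Subgroup.quotientMapOfLE (Subgroup.zpowers_le.mpr (mem_CZ.mpr (Commute.refl g)))

lemma pj_cl (g y : G) : pj g (cl g y) = QuotientGroup.mk y := rfl

lemma pj_smul {g : G} (u : G) (x : XX g) : pj g (u • x) = u • pj g x := by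
  obtain ⟨y, rfl⟩ := cl_surj x
  rfl

lemma pj_rm {g : G} (r : CZ g) (x : XX g) : pj g (rm r x) = pj g x := by
  obtain ⟨y, rfl⟩ := cl_surj x
  rw [rm_cl, pj_cl, pj_cl, QuotientGroup.mk_mul_of_mem _ r.2]

lemma pj_eq {g : G} {x x' : XX g} (h : pj g x = pj g x') : ∃ r : CZ g, rm r x = x' := by
  obtain ⟨y, rfl⟩ := cl_surj x
  obtain ⟨y', rfl⟩ := cl_surj x'
  exact ⟨⟨y⁻¹ * y', QuotientGroup.eq.mp h⟩, by rw [rm_cl, mul_inv_cancel_left]⟩

lemma lp_one_inj (g : G) : Function.Injective fun x => lp g x 1 := by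
  intro x x' h
  induction x using QuotientGroup.induction_on with
  | H y =>
  induction x' using QuotientGroup.induction_on with
  | H y' =>
    simp only [lp_mk, pow_one] at h
    rw [QuotientGroup.eq, mem_CZ, Commute, SemiconjBy]
    calc y⁻¹ * y' * g = y⁻¹ * (y' * g * y'⁻¹) * y' := by group
      _ = g * (y⁻¹ * y') := by rw [← h]; group

lemma bezout_pow {p : ℕ} (hp : p.Prime) {k : ℤ} {t : ℕ} (h : ¬ ((p ^ (t + 1) : ℕ) : ℤ) ∣ k)
    (n : ℕ) : ∃ a b : ℤ, k * a + (p ^ n : ℕ) * b = (p ^ t : ℕ) := by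
  obtain ⟨i, -, hi⟩ := (Nat.dvd_prime_pow hp).mp
    (show Int.gcd k (p ^ n : ℕ) ∣ p ^ n by exact_mod_cast Int.gcd_dvd_right k (p ^ n : ℕ))
  have h1 : i ≤ t := by
    by_contra h2
    refine h (dvd_trans ?_ (Int.gcd_dvd_left k (p ^ n : ℕ)))
    rw [hi]
    exact_mod_cast pow_dvd_pow p (by omega)
  obtain ⟨d, rfl⟩ := Nat.exists_eq_add_of_le h1
  refine ⟨Int.gcdA k (p ^ n : ℕ) * p ^ d, Int.gcdB k (p ^ n : ℕ) * p ^ d, ?_⟩
  rw [← mul_assoc, ← mul_assoc, ← add_mul, ← Int.gcd_eq_gcd_ab, hi]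
  push_cast
  ring

/-- Vertices close to one cluster. -/
def Rel (Z : G → Prop) (T : Finset G) (y y' : G) : Prop :=
  y = y' ∨ ∃ x x', Z x ∧ Ch Z (T⁻¹ * T) x x' ∧ Cl T x y ∧ Cl T x' y'

lemma rel_equiv (Z : G → Prop) (T : Finset G) : Equivalence (Rel Z T) := by
  refine ⟨fun _ => Or.inl rfl, ?_, ?_⟩
  · rintro y y' (h | ⟨x, x', h1, h2, h3, h4⟩)
    · exact Or.inl h.symm
    · exact Or.inr ⟨x', x, h2.mem h1, h2.symm inv_mem_inv_mul h1, h4, h3⟩
  · rintro y y' y'' (rfl | ⟨x, x', h1, h2, h3, h4⟩) h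
    · exact h
    · rcases h with rfl | ⟨w, w', k1, k2, k3, k4⟩
      · exact Or.inr ⟨x, x', h1, h2, h3, h4⟩
      · exact Or.inr ⟨x, w', h1, (h2.tail ⟨k1, h4.two k3⟩).trans k2, h3, k4⟩

lemma Cl.mul {T : Finset G} {x y : G} (h : Cl T x y) (c : G) : Cl T (x * c) (y * c) := by
  obtain ⟨s, hs, rfl⟩ := h
  exact ⟨s, hs, mul_assoc _ _ _⟩

lemma Rel.mul {Z : G → Prop} {T : Finset G} {c : G} (hc : ∀ x, Z x → Z (x * c)) {y y' : G}
    (h : Rel Z T y y') : Rel Z T (y * c) (y' * c) := by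
  rcases h with rfl | ⟨x, x', h1, h2, h3, h4⟩
  · exact Or.inl rfl
  · exact Or.inr ⟨x * c, x' * c, hc _ h1, h2.mul hc, h3.mul c, h4.mul c⟩

theorem rel_height {g : G} (hg : ∀ k : ℤ, g ^ k = 1 → k = 0) {p : ℕ} (hp : p.Prime)
    {Z : G → Prop} {T : Finset G} (h1 : (1 : G) ∈ T)
    (hZ : ∀ x, Z x → ∃ j : ℕ, x * g ^ p ^ j * x⁻¹ ∈ T)
    (hC : ∀ (c : CZ g) x, Z x → Z (x * c)) (hno : ∀ x, Z x → ¬ Ch Z (T⁻¹ * T) x (x * g))
    (ρ : CZ g) (t : ℕ) (hρ : (ρ : G) ^ p ^ t = g) :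
    ∃ n : G → ZMod (p ^ (t + 1)), (∀ x y, Rel Z T x y → n x = n y) ∧ ∀ x, n (x * ρ) = n x + 1 := by
  have he := rel_equiv Z T
  have hw : ∀ (k : ℤ) x y, Rel Z T x y → Rel Z T (x * (ρ : G) ^ k) (y * (ρ : G) ^ k) :=
    fun k x y h => h.mul (hC (ρ ^ k))
  refine exists_height he (ρ : G) hw _ fun y k h => ?_
  have hmul : ∀ k : ℤ, Rel Z T (y * (ρ : G) ^ k) y → ∀ a : ℤ,
      Rel Z T (y * (ρ : G) ^ (k * a)) y := fun k h => int_ind (by simpa using he.refl y) fun a => by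
    have h2 := hw (k * a) _ _ h
    rw [mul_assoc, ← zpow_add, ← mul_one_add, add_comm] at h2
    exact ⟨fun h3 => he.trans h2 h3, fun h3 => he.trans (he.symm h2) h3⟩
  have hk0 : ∀ k : ℤ, y * (ρ : G) ^ k = y → k = 0 := fun k h2 => hg k (by
    rw [← hρ, ← zpow_natCast, ← zpow_mul, mul_comm, zpow_mul, mul_eq_left.mp h2, one_zpow])
  rcases h with h | ⟨x, x', k1, k2, k3, k4⟩
  · rw [hk0 k h]
    exact dvd_zero _
  by_contra hk
  have hx' := k2.mem k1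
  obtain ⟨j, hj⟩ := hZ x' hx'
  obtain ⟨a, b, hab⟩ := bezout_pow hp hk (t + j)
  have h3 : Rel Z T (y * (ρ : G) ^ ((p ^ (t + j) : ℕ) : ℤ)) y := by
    rw [zpow_natCast, pow_add, pow_mul, hρ]
    refine he.symm (Or.inr ⟨x', x' * g ^ p ^ j, hx', .single ⟨hC ⟨_, mem_CZ.mpr
      (Commute.pow_self g _)⟩ _ hx', Cl.two ⟨_, hj, ?_⟩ ⟨1, h1, (one_smul _ _).symm⟩⟩, k4, k4.mul _⟩)
    rw [smul_eq_mul, inv_mul_cancel_right]
  have h4 := he.trans (hw ((p ^ (t + j) : ℕ) * b) _ _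
    (hmul k (Or.inr ⟨x, x', k1, k2, k3, k4⟩) a)) (hmul _ h3 b)
  rw [mul_assoc, ← zpow_add, hab, zpow_natCast, hρ] at h4
  rcases h4 with h4 | ⟨w, w', l1, l2, l3, l4⟩
  · exact one_ne_zero (hg 1 (by rw [zpow_one]; exact mul_eq_left.mp h4))
  · have hw' := l2.mem l1
    exact hno w' hw' ((l2.symm inv_mem_inv_mul l1).tail
      ⟨hC ⟨g, mem_CZ.mpr (Commute.refl g)⟩ _ hw', l3.two (l4.mul g)⟩)

namespace Wind

variable {F : Fill G Λ} {g : G} (W : Wind F g)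

/-- Relevant loops. -/
def Rl (p : ℕ) (U : Finset G) (x : XX g) (u : G) : Prop :=
  W.Lp U x u ∧ ∃ j : ℕ, W.θ (x, u) = (p ^ j : ℕ)

lemma th_mem_span {p M : ℕ} (hM : p ∣ M) {R : G → G → Prop} (n : G → ZMod M)
    (hn : ∀ x y, R x y → n x = n y) (hg : ∀ x, n (x * g) = n x + 1) {c : XX g × G →₀ ℚ}
    (hc : c ∈ IntC Λ _) (h0 : d1 c = 0)
    (hs : ∀ ε, c ε ≠ 0 → ∃ y, cl g y = ε.1 ∧ R y (ε.2 * y)) :
    W.th c ∈ Submodule.span Λ {(p : ℚ)} := by
  have hk : ∀ x (k : ℤ), n (x * g ^ k) = n x + k := fun x =>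
    int_ind (by simp) fun k => by
      rw [zpow_add_one, ← mul_assoc, hg, Int.cast_add, Int.cast_one, ← add_assoc, add_left_inj]
  let δ : XX g → ℤ := fun x => ((W.n x.out : ZMod M) - n x.out).cast
  have hδ : ∀ y, (δ (cl g y) : ZMod M) = W.n y - n y := by
    intro y
    obtain ⟨k, h⟩ := cl_eq.mp (QuotientGroup.out_eq' (cl g y)).symm
    simp only [δ, ZMod.intCast_cast, ZMod.cast_id', id]
    rw [h, W.n_mul, hk]
    push_cast
    ring
  have := map_mem (W.th - (lin fun x => (δ x : ℚ)).comp d1) (Submodule.span Λ {(p : ℚ)}) hc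
    fun ⟨x, u⟩ hε => by
      obtain ⟨y, rfl, h2⟩ := hs _ hε
      have h3 : (M : ℤ) ∣ W.θ (cl g y, u) - (δ (u • cl g y) - δ (cl g y)) := by
        rw [← ZMod.intCast_eq_intCast_iff_dvd_sub, Int.cast_sub, cl_smul, hδ, hδ, W.θ_mk,
          hn _ _ h2]
        push_cast
        ring
      obtain ⟨k, h4⟩ := (Int.natCast_dvd_natCast.mpr hM).trans h3
      refine Submodule.mem_span_singleton.mpr ⟨⟨k, intCast_mem _ k⟩, ?_⟩
      simp only [LinearMap.sub_apply, LinearMap.comp_apply, th_sg, d1_sg, map_sub, lin_sg]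
      have h5 := congrArg (Int.cast : ℤ → ℚ) h4
      push_cast at h5
      rw [h5, mul_comm]
      rfl
  simpa [h0] using this

theorem flux {p : ℕ} (hp : p.Prime) (hΛ : (p : ℚ)⁻¹ ∉ Λ) (U S : Finset G) (h1 : (1 : G) ∈ S) :
    ∃ (B : Finset (CC g)) (Sp : XX g → G → Prop),
      (∀ x u, W.Lp U x u → W.θ (x, u) = 1 → pj g x ∈ B ∧ Sp x u) ∧
      (∀ x s u u', s ∈ S → W.Rl p U x u → W.Rl p U (s • x) u' → (Sp x u ↔ Sp (s • x) u')) ∧
      (∀ x u x' u', W.Lp U x u → W.Lp U x' u' → pj g x ∉ B → pj g x' ∉ B →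
        rs (fun τ => pj g τ.1 ∈ B) (W.al x' u' - W.al x u) ∈ IntC Λ _ → Sp x u → Sp x' u') ∧
      (∀ x u, W.Lp U x u → pj g x ∉ B → Sp x u →
        rs (fun τ => pj g τ.1 ∈ B) (W.al x u) ∉ IntC Λ _) ∧
      (∀ x u (ρ : CZ g), W.Lp U x u → pj g x ∉ B → Sp x u → (ρ : G) ^ p = g →
        rs (fun τ => pj g τ.1 ∈ B) (mp (fm (rm ρ)) (W.al x u) - W.al x u) ∉ IntC Λ _) := by
  have hg : ∀ k : ℤ, g ^ k = 1 → k = 0 := fun k h => W.zpow_inj (by rw [h, zpow_zero])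
  have hone : (1 : ℚ) ∉ Submodule.span Λ {(p : ℚ)} := by
    intro h
    obtain ⟨a, ha⟩ := Submodule.mem_span_singleton.mp h
    exact hΛ (by rw [← eq_inv_of_mul_eq_one_left (show (a : ℚ) * p = 1 from ha)]; exact a.2)
  obtain ⟨T1, hT1⟩ := W.annulus U S
  obtain ⟨T, hT, hfa⟩ := exists_faces T1 (U ∪ S)
  have h1T : (1 : G) ∈ T := hT (Finset.mem_union_right _ h1)
  obtain ⟨S3, hS3, hcl⟩ := cluster F hg hp U (T⁻¹ * T) (by
    have := Finset.mul_mem_mul (Finset.inv_mem_inv h1T) h1T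
    rwa [inv_mul_cancel] at this) inv_mem_inv_mul
  let G0 : Finset (CC g) := S3.preimage (fun x => lp g x 1) (lp_one_inj g).injOn
  let B : Finset (CC g) := (T ×ˢ G0).image fun q => q.1 • q.2
  have hB : ∀ y, y * g * y⁻¹ ∈ S3 → ∀ s ∈ T, pj g (s • cl g y) ∈ B := fun y hy s hs =>
    Finset.mem_image.mpr ⟨(s, pj g (cl g y)), Finset.mem_product.mpr ⟨hs,
      Finset.mem_preimage.mpr (by rwa [pj_cl, lp_mk, pow_one])⟩, (pj_smul s (cl g y)).symm⟩
  let In : XX g → Prop := fun x => pj g x ∈ B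
  have hIn : ∀ r : CZ g, (fun x => In (rm r x)) = In := fun r => funext fun x => by
    simp only [In, pj_rm]
  let Z : G → Prop := fun y => (∃ u, W.Rl p U (cl g y) u) ∧
    ∃ s ∈ T, ∃ s' ∈ T, ¬ (In (s • cl g y) ↔ In (s' • cl g y))
  have hZU : ∀ x, Z x → ∃ j : ℕ, x * g ^ p ^ j * x⁻¹ ∈ U := by
    rintro x ⟨⟨u, hu, j, hj⟩, -⟩
    refine ⟨j, ?_⟩
    rw [← zpow_natCast, ← hj, ← W.loop_eq hu.2.1, mul_inv_cancel_right]
    exact hu.1
  have hC : ∀ (c : CZ g) x, Z x → Z (x * c) := by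
    rintro c x ⟨⟨u, hu, j, hj⟩, s, hs, s', hs', h⟩
    refine ⟨⟨u, hu.rm c, j, (θ_rm c hu.2.1).trans hj⟩, s, hs, s', hs', ?_⟩
    rwa [← rm_cl, ← rm_smul, ← rm_smul, congrFun (hIn c), congrFun (hIn c)]
  have hno : ∀ x, Z x → ¬ Ch Z (T⁻¹ * T) x (x * g) := by
    intro x hx h
    obtain ⟨y, ⟨-, s, hs, s', hs', h2⟩, h3⟩ :=
      hcl Z hZU (hC ⟨g, mem_CZ.mpr (Commute.refl g)⟩) x hx h
    exact h2 (iff_of_true (hB y h3 s hs) (hB y h3 s' hs'))
  have hH := rel_height hg hp h1T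
    (fun x hx => (hZU x hx).imp fun j hj => hT (Finset.mem_union_left _ hj)) hC hno
  obtain ⟨n1, hn1, hn1'⟩ := hH ⟨g, mem_CZ.mpr (Commute.refl g)⟩ 0 (by simp)
  let ZE : (XX g × G →₀ ℚ) → Prop := fun c =>
    ∀ ε, c ε ≠ 0 → ∃ y, cl g y = ε.1 ∧ Rel Z T y (ε.2 * y)
  have hZ : ∀ c ∈ IntC Λ _, d1 c = 0 → ZE c → W.th c ∈ Submodule.span Λ {(p : ℚ)} :=
    fun c hc h0 hs => W.th_mem_span (dvd_pow_self p (Nat.succ_ne_zero 0)) n1 hn1 hn1' hc h0 hs
  let Sat : (XX g → Prop) → Prop := fun V => ∀ y y', Rel Z T y y' → (V (cl g y) ↔ V (cl g y'))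
  let Cc : (XX g × G →₀ ℚ) → Prop := fun c => d1 c = 0 ∧ ZE c ∧
    ∀ V, Sat V → ∃ k : ℤ, W.th (rs (fun ε => V ε.1) c) = k
  have hCadd : ∀ c c', Cc c → Cc c' → Cc (c + c') := by
    rintro c c' ⟨a1, a2, a3⟩ ⟨b1, b2, b3⟩
    refine ⟨by rw [map_add, a1, b1, add_zero], fun ε h => (add_ne h).elim (a2 ε) (b2 ε),
      fun V hV => ?_⟩
    obtain ⟨k, hk⟩ := a3 V hV
    obtain ⟨l, hl⟩ := b3 V hV
    exact ⟨k + l, by rw [map_add, map_add, hk, hl, Int.cast_add]⟩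
  have hCsub : ∀ c c', Cc c → Cc c' → Cc (c - c') := by
    rintro c c' ⟨a1, a2, a3⟩ ⟨b1, b2, b3⟩
    refine ⟨by rw [map_sub, a1, b1, sub_zero], fun ε h => (sub_ne h).elim (a2 ε) (b2 ε),
      fun V hV => ?_⟩
    obtain ⟨k, hk⟩ := a3 V hV
    obtain ⟨l, hl⟩ := b3 V hV
    exact ⟨k - l, by rw [map_sub, map_sub, hk, hl, Int.cast_sub]⟩
  let Sp : XX g → G → Prop := fun x u => ∃ c, Cc c ∧ DD In (W.al x u) - c ∈ IntC Λ _ ∧
    W.th c = if In x then 0 else 1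
  have hfar : ∀ x u, W.Lp U x u → ¬ In x →
      rs (fun ε => In ε.1) (d2 (W.al x u)) ∈ IntC Λ _ := by
    intro x u h hx
    rw [h.d2_al, map_sub, rs_be, if_neg hx]
    exact sub_mem (zero_mem _) (rs_int _ (sg_int _))
  refine ⟨B, Sp, ?_, ?_, ?_, ?_, ?_⟩
  · intro x u h h2
    obtain ⟨y, rfl⟩ := cl_surj x
    have h3 : In (cl g y) := by
      have h4 := W.loop_eq h.2.1
      rw [h2, zpow_one] at h4
      simpa using hB y (hS3 (by rw [← h4, mul_inv_cancel_right]; exact h.1)) 1 h1T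
    refine ⟨h3, 0, ⟨map_zero _, fun ε h => absurd rfl h, fun V _ => ⟨0, by simp⟩⟩, ?_,
      by rw [if_pos h3, map_zero]⟩
    rw [sub_zero, al, be, h2, Int.cast_one, inv_one, one_smul]
    exact DD_int _ (W.Θ_int _ (sg_int _))
  · intro x s u u' hs h h'
    obtain ⟨y, rfl⟩ := cl_surj x
    have hth : W.th (DD In (W.al (s • cl g y) u' - W.al (cl g y) u)) =
        (if In (s • cl g y) then 0 else 1) - (if In (cl g y) then 0 else 1) := by
      rw [h.1.DD_sub h'.1, map_sub, W.th_d2, map_sub]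
      split_ifs <;> simp only [h.1.th_be, h'.1.th_be, map_zero] <;> norm_num
    have hsup : ∀ ε, DD In (W.al (s • cl g y) u' - W.al (cl g y) u) ε ≠ 0 →
        ∃ w, cl g w = ε.1 ∧ Rel Z T w (ε.2 * w) ∧ Rel Z T y w := by
      intro ε hε
      obtain ⟨a, v, v', k1, k2, rfl⟩ := DD_ne hε
      obtain ⟨t, ht, k3⟩ := hT1 _ s u u' hs h.1 h'.1 _ k1
      obtain ⟨rfl, k4⟩ := Prod.mk.inj k3
      obtain ⟨⟨s1, hs1, c1⟩, c2, c3⟩ := hfa G y (t.1 * y) v v' ⟨t, ht, by rw [k4]; rfl⟩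
      obtain ⟨s2, hs2, c4⟩ := id c2
      have hy : Z y := ⟨⟨u, h⟩, s1, hs1, s2, hs2, by
        rw [cl_smul, cl_smul, ← smul_eq_mul, ← smul_eq_mul s2, ← c1, ← c4]
        exact k2⟩
      exact ⟨v * (t.1 * y), rfl, Or.inr ⟨y, y, hy, .refl, c2, c3⟩,
        Or.inr ⟨y, y, hy, .refl, ⟨1, h1T, (one_smul _ _).symm⟩, c2⟩⟩
    have hc : Cc (DD In (W.al (s • cl g y) u' - W.al (cl g y) u)) := by
      refine ⟨?_, fun ε hε => (hsup ε hε).imp fun w hw => ⟨hw.1, hw.2.1⟩, fun V hV => ?_⟩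
      · rw [h.1.DD_sub h'.1, map_sub, d1_d2, map_sub]
        split_ifs <;> simp only [h.1.d1_be, h'.1.d1_be, map_zero, sub_self]
      · by_cases hVy : V (cl g y)
        · rw [rs_eq_self, hth]
          · exact ⟨(if In (s • cl g y) then 0 else 1) - (if In (cl g y) then 0 else 1), by
              split_ifs <;> simp⟩
          · intro ε hε
            obtain ⟨w, k1, -, k2⟩ := hsup ε hε
            exact k1 ▸ (hV _ _ k2).mp hVy
        · rw [rs_eq_zero]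
          · exact ⟨0, by simp⟩
          · intro ε hε
            obtain ⟨w, k1, -, k2⟩ := hsup ε hε
            exact k1 ▸ mt (hV _ _ k2).mpr hVy
    constructor
    · rintro ⟨c, k1, k2, k3⟩
      refine ⟨_, hCadd _ _ k1 hc, ?_, by rw [map_add, k3, hth, add_sub_cancel]⟩
      convert k2 using 1
      rw [map_sub]
      abel
    · rintro ⟨c, k1, k2, k3⟩
      refine ⟨_, hCsub _ _ k1 hc, ?_, by rw [map_sub, k3, hth, sub_sub_cancel]⟩
      convert k2 using 1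
      rw [map_sub]
      abel
  · rintro x u x' u' h h' hx hx' hi ⟨c, k1, k2, k3⟩
    refine ⟨c, k1, ?_, by rw [k3, if_neg hx, if_neg hx']⟩
    have := add_mem k2 (d2_int hi)
    convert this using 1
    have k4 := h.DD_sub h' In
    rw [if_neg hx, if_neg hx', sub_zero, sub_zero, map_sub] at k4
    rw [← k4]
    abel
  · rintro x u h hx ⟨c, k1, k2, k3⟩ hi
    rw [if_neg hx] at k3
    refine hone (k3 ▸ hZ c ?_ k1.1 k1.2.1)
    have e1 : DD In (W.al x u) ∈ IntC Λ _ := by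
      rw [DD_apply]
      exact sub_mem (d2_int hi) (hfar x u h hx)
    simpa using sub_mem e1 k2
  · rintro x u ρ h hx ⟨c, ⟨k0, k1, k4⟩, k2, k3⟩ hρ hi
    rw [if_neg hx] at k3
    have hci : mp (fm (rm ρ)) c - c ∈ IntC Λ _ := by
      have e1 : DD In (mp (fm (rm ρ)) (W.al x u) - W.al x u) ∈ IntC Λ _ := by
        rw [DD_apply]
        refine sub_mem (d2_int hi) ?_
        rw [map_sub, map_sub, d2_mp (rm_smul ρ), rs_mp]
        refine sub_mem (mp_int _ ?_) (hfar x u h hx)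
        simpa only [fm, congrFun (hIn ρ)] using hfar x u h hx
      rw [map_sub, DD_mp (rm_smul ρ), hIn] at e1
      convert add_mem (sub_mem e1 (mp_int (fm (rm ρ)) k2)) k2 using 1
      rw [map_sub]
      abel
    obtain ⟨n2, hn2, hn2'⟩ := hH ρ 1 (by rwa [pow_one])
    have : NeZero p := ⟨hp.ne_zero⟩
    let r0 : G → ZMod p := fun y =>
      ZMod.castHom (dvd_pow_self p (Nat.succ_ne_zero 1)) (ZMod p) (n2 y)
    have hr0 : ∀ y, r0 (y * ρ) = r0 y + 1 := fun y => by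
      simp only [r0, hn2', map_add, map_one]
    have hr1 : ∀ y (k : ℤ), r0 (y * (ρ : G) ^ k) = r0 y + k := fun y =>
      int_ind (by simp) fun k => by
        rw [zpow_add_one, ← mul_assoc, hr0, Int.cast_add, Int.cast_one, ← add_assoc, add_left_inj]
    let rr : XX g → ZMod p := fun x => r0 x.out
    have hrr : ∀ y, rr (cl g y) = r0 y := by
      intro y
      obtain ⟨k, hk⟩ := cl_eq.mp (QuotientGroup.out_eq' (cl g y)).symm
      simp only [rr]
      rw [hk]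
      conv_lhs => rw [← hρ]
      rw [← zpow_natCast, ← zpow_mul, hr1]
      simp
    have hrm : ∀ x, rr (rm ρ x) = rr x + 1 := by
      intro x
      obtain ⟨y, rfl⟩ := cl_surj x
      rw [rm_cl, hrr, hrr, hr0]
    have hsat : ∀ i, Sat fun x => rr x = i := fun i y y' hy => by
      simp only [hrr, r0, hn2 _ _ hy]
    have hcyc : ∀ c, d1 c = 0 → ZE c → ∀ i, d1 (rs (fun ε => rr ε.1 = i) c) = 0 := by
      intro c h0 hs i
      rw [d1_rs (A := fun x => rr x = i), h0, map_zero]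
      rintro ⟨x, u⟩ hε
      obtain ⟨y, rfl, hy⟩ := hs _ hε
      exact hsat i _ _ hy
    have hZE : ZE (mp (fm (rm ρ)) c - c) := by
      intro ε hε
      rcases sub_ne hε with h2 | h2
      · obtain ⟨ε', h3, rfl⟩ := mp_ne h2
        obtain ⟨y, h4, h5⟩ := k1 ε' h3
        refine ⟨y * ρ, by rw [← rm_cl, h4]; rfl, ?_⟩
        rw [← mul_assoc]
        exact h5.mul (hC ρ)
      · exact k1 ε h2
    let κ : ZMod p → ℚ := fun i => W.th (rs (fun ε => rr ε.1 = i) c)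
    have hstep : ∀ i, κ i - κ (i + 1) ∈ Submodule.span Λ {(p : ℚ)} := by
      intro i
      have e0 : d1 (mp (fm (rm ρ)) c - c) = 0 := by
        rw [map_sub, d1_mp (rm_smul ρ), k0, map_zero, sub_zero]
      have := hZ _ (rs_int (fun ε => rr ε.1 = i + 1) hci) (hcyc _ e0 hZE (i + 1))
        (fun ε hε => hZE ε (rs_ne hε).2)
      rw [map_sub, map_sub, rs_mp] at this
      simp only [fm, hrm, add_left_inj] at this
      rwa [W.th_mp ρ (hcyc c k0 k1 i)] at this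
    have hall : ∀ m : ℕ, κ 0 - κ m ∈ Submodule.span Λ {(p : ℚ)} := by
      intro m
      induction m with
      | zero => simp
      | succ m ih => simpa using add_mem ih (hstep m)
    have hsum : ∑ i, κ i = 1 := by
      rw [← k3, ← map_sum]
      congr 1
      ext ε
      simp only [Finsupp.finsetSum_apply, rs_apply]
      rw [Finset.sum_eq_single (rr ε.1), if_pos rfl]
      · exact fun i _ hi => if_neg hi.symm
      · exact fun h => absurd (Finset.mem_univ _) h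
    obtain ⟨k, hk⟩ := k4 (fun x => rr x = 0) (hsat 0)
    apply hone
    have e1 : ∑ i, (κ 0 - κ i) ∈ Submodule.span Λ {(p : ℚ)} :=
      Submodule.sum_mem _ fun i _ => by simpa using hall i.val
    rw [Finset.sum_sub_distrib, hsum, Finset.sum_const, Finset.card_univ, ZMod.card] at e1
    have e2 : p • κ 0 ∈ Submodule.span Λ {(p : ℚ)} :=
      Submodule.mem_span_singleton.mpr ⟨⟨k, intCast_mem _ k⟩, by
        rw [nsmul_eq_mul, mul_comm]
        exact congrArg (· * (p : ℚ)) hk.symm⟩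
    simpa using sub_mem e2 e1

end Wind

end Pool.Agent.Lib.MP_7903c7_al.CD
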