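import Mathlib

set_option autoImplicit false

namespace Pool.Agent.Lib.MP_7903c7_al.CD

open scoped Classical Pointwise

variable {G : Type} [Group G] {F : Type} [Field F] {I : Type} [Fintype I] [DecidableEq I]

/-- `e` is an idempotent matrix over the group ring, given by its coefficients, supported in the
symmetric finite set `S`. -/
structure Idem (S : Finset G) (e : G → Matrix I I F) : Prop where
  one_mem : (1 : G) ∈ S
  inv_mem : ∀ u ∈ S, u⁻¹ ∈ S
  supp : ∀ u, u ∉ S → e u = 0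
  idem : ∀ v, ∑ u ∈ S, e u * e (u⁻¹ * v) = e v

/-- The `m`-step kernel: the sum of `e u_m * ... * e u_1` over the words with product `v` all of
whose right subproducts `1, u_1, u_2 u_1, ...` satisfy `A`. -/
noncomputable def KK (S : Finset G) (e : G → Matrix I I F) (A : G → Prop) :
    ℕ → G → Matrix I I F
  | 0, v => if v = 1 ∧ A 1 then 1 else 0
  | m + 1, v => if A v then ∑ u ∈ S, e u * KK S e A m (u⁻¹ * v) else 0

/-- The local defect. -/
noncomputable def ff (S : Finset G) (e : G → Matrix I I F) (Q : ℕ) (A : G → Prop) (v : G) : F :=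
  (KK S e A Q v).trace - (KK S e A 1 v).trace

variable {S : Finset G} {e : G → Matrix I I F}

lemma KK_zero (A : G → Prop) (v : G) : KK S e A 0 v = if v = 1 ∧ A 1 then 1 else 0 := rfl

lemma KK_succ (A : G → Prop) (m : ℕ) (v : G) :
    KK S e A (m + 1) v = if A v then ∑ u ∈ S, e u * KK S e A m (u⁻¹ * v) else 0 := rfl

lemma KK_one (h : Idem S e) (A : G → Prop) (v : G) :
    KK S e A 1 v = if A v ∧ A 1 then e v else 0 := by
  rw [KK_succ]
  by_cases h1 : A v
  · by_cases h2 : A 1
    · rw [if_pos h1, if_pos ⟨h1, h2⟩, Finset.sum_eq_single v]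
      · simp [KK_zero, h2]
      · intro u _ hu
        rw [KK_zero, if_neg, mul_zero]
        rintro ⟨h3, -⟩
        exact hu (inv_mul_eq_one.mp h3)
      · intro hv
        rw [h.supp v hv, zero_mul]
    · simp [KK_zero, h2]
  · simp [h1]

lemma mul_mem_pow_succ {u v : G} {m : ℕ} (hu : u ∈ S) (hv : v ∈ S ^ m) : u * v ∈ S ^ (m + 1) := by
  rw [pow_succ']
  exact Finset.mul_mem_mul hu hv

lemma mul_mem_pow_add {u v : G} {m n : ℕ} (hu : u ∈ S ^ m) (hv : v ∈ S ^ n) :
    u * v ∈ S ^ (m + n) := by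
  rw [pow_add]
  exact Finset.mul_mem_mul hu hv

lemma mem_pow_mono (h1 : (1 : G) ∈ S) {v : G} {m n : ℕ} (hmn : m ≤ n) (hv : v ∈ S ^ m) :
    v ∈ S ^ n := Finset.pow_subset_pow_right h1 hmn hv

lemma inv_mem_pow (hi : ∀ u ∈ S, u⁻¹ ∈ S) {v : G} {m : ℕ} (hv : v ∈ S ^ m) : v⁻¹ ∈ S ^ m := by
  induction m generalizing v with
  | zero => simpa using hv
  | succ m ih =>
    rw [pow_succ'] at hv
    obtain ⟨a, ha, b, hb, rfl⟩ := Finset.mem_mul.mp hv
    rw [mul_inv_rev, pow_succ]
    exact Finset.mul_mem_mul (ih hb) (hi a ha)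

lemma KK_supp (A : G → Prop) {m : ℕ} {v : G} (hv : v ∉ S ^ m) : KK S e A m v = 0 := by
  induction m generalizing v with
  | zero =>
    rw [KK_zero, if_neg]
    rintro ⟨rfl, -⟩
    simp at hv
  | succ m ih =>
    rw [KK_succ]
    split_ifs
    · refine Finset.sum_eq_zero fun u hu => ?_
      rw [ih, mul_zero]
      intro h2
      apply hv
      simpa using mul_mem_pow_succ hu h2
    · rfl

lemma KK_not (A : G → Prop) {m : ℕ} {v : G} (hv : ¬ A v) : KK S e A m v = 0 := by
  cases m with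
  | zero =>
    rw [KK_zero, if_neg]
    rintro ⟨rfl, h⟩
    exact hv h
  | succ m => rw [KK_succ, if_neg hv]

lemma KK_congr (h1 : (1 : G) ∈ S) {A A' : G → Prop} {m : ℕ} (H : ∀ w ∈ S ^ m, A w ↔ A' w)
    (v : G) : KK S e A m v = KK S e A' m v := by
  induction m generalizing v with
  | zero => rw [KK_zero, KK_zero, H 1 (by simp)]
  | succ m ih =>
    by_cases hv : v ∈ S ^ (m + 1)
    · rw [KK_succ, KK_succ, H v hv]
      simp only [ih (fun w hw => H w (mem_pow_mono h1 (Nat.le_succ m) hw))]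
    · rw [KK_supp _ hv, KK_supp _ hv]

lemma KK_true (h : Idem S e) (m : ℕ) (v : G) : KK S e (fun _ => True) (m + 1) v = e v := by
  induction m generalizing v with
  | zero => simp [KK_one h]
  | succ m ih =>
    rw [KK_succ, if_pos trivial]
    simp only [ih]
    exact h.idem v

lemma ff_congr (h1 : (1 : G) ∈ S) {A A' : G → Prop} {Q : ℕ} (hQ : 1 ≤ Q)
    (H : ∀ w ∈ S ^ Q, A w ↔ A' w) (v : G) : ff S e Q A v = ff S e Q A' v := by
  rw [ff, ff, KK_congr h1 H, KK_congr h1 (fun w hw => H w (mem_pow_mono h1 hQ hw))]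

lemma ff_full (h : Idem S e) {A : G → Prop} {Q : ℕ} (hQ : 1 ≤ Q)
    (H : ∀ w ∈ S ^ Q, A w) (v : G) : ff S e Q A v = 0 := by
  rw [ff_congr h.one_mem hQ (A' := fun _ => True) (fun w hw => by simp [H w hw])]
  obtain ⟨m, rfl⟩ := Nat.exists_eq_add_of_le' hQ
  rw [ff, KK_true h, show (1 : ℕ) = 0 + 1 from rfl, KK_true h, sub_self]

/-- Cosets of the centraliser. -/
abbrev CC (g : G) : Type := G ⧸ Subgroup.centralizer ({g} : Set G)

/-- The conjugate of `g ^ k` at a coset of the centraliser. -/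
noncomputable def lp (g : G) (x : CC g) (k : ℕ) : G := x.out * g ^ k * x.out⁻¹

lemma lp_mk (g y : G) (k : ℕ) : lp g (QuotientGroup.mk y) k = y * g ^ k * y⁻¹ := by
  obtain ⟨c, hc⟩ := QuotientGroup.mk_out_eq_mul (Subgroup.centralizer ({g} : Set G)) y
  have h1 : Commute (c : G) g := (c.2 g rfl).symm
  rw [lp, hc, mul_inv_rev, mul_assoc y, (h1.pow_right k).eq]
  group

lemma lp_smul (g u : G) (x : CC g) (k : ℕ) : lp g (u • x) k = u * lp g x k * u⁻¹ := by
  induction x using QuotientGroup.induction_on with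
  | H y =>
    rw [MulAction.Quotient.smul_mk, lp_mk, lp_mk, smul_eq_mul]
    group

lemma lp_smul_self (g : G) (x : CC g) (k : ℕ) : lp g x k • x = x := by
  induction x using QuotientGroup.induction_on with
  | H y =>
    rw [lp_mk, MulAction.Quotient.smul_mk, smul_eq_mul, QuotientGroup.eq]
    rintro _ rfl
    group

end Pool.Agent.Lib.MP_7903c7_al.CD
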