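import Pool.Agent.Lib.MP_7903c7_al.CD.Wind

set_option autoImplicit false

namespace Pool.Agent.Lib.MP_7903c7_al.CD

open scoped Classical

variable {G : Type} [Group G] {Λ : Subring ℚ}

/-- The chain comparing `b` times a loop with the loop of the `b`-th power. -/
noncomputable def pc {X : Type} (x : X) (u : G) (b : ℕ) : X × G × G →₀ ℚ :=
  ∑ i ∈ Finset.range b, sg (x, u ^ i, u) - sg (x, 1, 1)

lemma mp_pc {X X' : Type} (f : X → X') (x : X) (u : G) (b : ℕ) :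
    mp (fm f) (pc x u b) = pc (f x) u b := by
  simp [pc, fm, map_sum]

lemma pow_smul_fix {X : Type} [MulAction G X] {x : X} {u : G} (h : u • x = x) (b : ℕ) :
    u ^ b • x = x := by
  induction b with
  | zero => simp
  | succ b ih => rw [pow_succ, mul_smul, h, ih]

lemma d2_pc {X : Type} [MulAction G X] {x : X} {u : G} (h : u • x = x) (b : ℕ) :
    d2 (pc x u b) = (b : ℚ) • sg (x, u) - sg (x, u ^ b) := by
  induction b with
  | zero => simp [pc]
  | succ b ih =>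
    have : pc x u (b + 1) = pc x u b + sg (x, u ^ b, u) := by
      rw [pc, pc, Finset.sum_range_succ]
      abel
    rw [this, map_add, ih, d2_sg, pow_smul_fix h, ← pow_succ']
    push_cast
    module

/-- A cell lies in the translate of a finite set of cells. -/
def Nr {X : Type} [MulAction G X] (T : Finset (G × G × G)) (x : X) (τ : X × G × G) : Prop :=
  ∃ t ∈ T, τ = (t.1 • x, t.2)

namespace Wind

variable {F : Fill G Λ} {z : G} (W : Wind F z)

/-- Short loops of positive winding number. -/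
def Lp (U : Finset G) (x : XX z) (u : G) : Prop := u ∈ U ∧ u • x = x ∧ 0 < W.θ (x, u)

/-- The normalised loop. -/
noncomputable def be (x : XX z) (u : G) : XX z × G →₀ ℚ := (W.θ (x, u) : ℚ)⁻¹ • sg (x, u)

/-- The filling of the normalised loop. -/
noncomputable def al (x : XX z) (u : G) : XX z × G × G →₀ ℚ := W.Θ (W.be x u)

variable {W} {U : Finset G} {x x' : XX z} {u u' : G}

lemma Lp.ne (h : W.Lp U x u) : (W.θ (x, u) : ℚ) ≠ 0 := by
  exact_mod_cast h.2.2.ne'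

lemma Lp.d1_be (h : W.Lp U x u) : d1 (W.be x u) = 0 := by
  rw [be, map_smul, d1_sg, h.2.1, sub_self, smul_zero]

lemma Lp.th_be (h : W.Lp U x u) : W.th (W.be x u) = 1 := by
  rw [be, map_smul, th_sg, smul_eq_mul, inv_mul_cancel₀ h.ne]

lemma be_ne {ε : XX z × G} (h : W.be x u ε ≠ 0) : ε = (x, u) := (sg_ne (smul_ne h)).symm

lemma rs_be (A : XX z → Prop) :
    rs (fun ε => A ε.1) (W.be x u) = if A x then W.be x u else 0 := by
  split_ifs with h
  · exact rs_eq_self fun ε hε => by rw [be_ne hε]; exact h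
  · exact rs_eq_zero fun ε hε => by rw [be_ne hε]; exact h

lemma Lp.d2_al (h : W.Lp U x u) : d2 (W.al x u) = W.be x u - sg (cl z 1, z) := by
  rw [al, W.d_Θ' h.d1_be, h.th_be, one_smul]

lemma Lp.d2_sub (h : W.Lp U x u) (h' : W.Lp U x' u') :
    d2 (W.al x' u' - W.al x u) = W.be x' u' - W.be x u := by
  rw [map_sub, h.d2_al, h'.d2_al]
  abel

lemma Lp.E_sub (h : W.Lp U x u) (h' : W.Lp U x' u') :
    F.E (W.al x' u' - W.al x u) = W.al x' u' - W.al x u := by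
  rw [← W.Θ_d, h.d2_sub h', map_sub, al, al]

lemma θ_rm (r : CZ z) (h : u • x = x) : W.θ (rm r x, u) = W.θ (x, u) := by
  have := W.th_mp r (c := sg (x, u)) (by rw [d1_sg, h, sub_self])
  rw [mp_sg, th_sg, th_sg] at this
  exact_mod_cast this

lemma Lp.rm (h : W.Lp U x u) (r : CZ z) : W.Lp U (rm r x) u :=
  ⟨h.1, by rw [← rm_smul, h.2.1], by rw [θ_rm r h.2.1]; exact h.2.2⟩

lemma Lp.be_rm (h : W.Lp U x u) (r : CZ z) :
    W.be (CD.rm r x) u = mp (fm (CD.rm r)) (W.be x u) := by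
  rw [be, be, map_smul, mp_sg, θ_rm r h.2.1]
  rfl

lemma Lp.al_rm_int (h : W.Lp U x u) (r : CZ z) :
    W.al (CD.rm r x) u - mp (fm (CD.rm r)) (W.al x u) ∈ IntC Λ _ := by
  rw [al, al, h.be_rm]
  exact W.Θ_mp_int r h.d1_be h.th_be

lemma Lp.sub_rm (h : W.Lp U x u) (h' : W.Lp U x' u') (r : CZ z) :
    W.al (CD.rm r x') u' - W.al (CD.rm r x) u = mp (fm (CD.rm r)) (W.al x' u' - W.al x u) := by
  rw [al, al, al, al, h.be_rm, h'.be_rm, ← map_sub, ← map_sub, ← map_sub]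
  exact W.Θ_mp r (by rw [map_sub, h.d1_be, h'.d1_be, sub_self])
    (by rw [map_sub, h.th_be, h'.th_be, sub_self])

lemma loop_pow {y : G} (h : u • cl z y = cl z y) (b : ℕ) :
    u ^ b * y = y * z ^ (b * W.θ (cl z y, u)) := by
  have := eq_mul_inv_iff_mul_eq.mpr (W.loop_eq h)
  rw [← eq_mul_inv_iff_mul_eq, mul_comm (b : ℤ), zpow_mul, zpow_natCast, ← conj_pow, ← this]

variable (W)

theorem annulus (U S : Finset G) : ∃ T : Finset (G × G × G), ∀ (x : XX z) (s u u' : G), s ∈ S →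
    W.Lp U x u → W.Lp U (s • x) u' → ∀ τ, (W.al (s • x) u' - W.al x u) τ ≠ 0 → Nr T x τ := by
  have hex : ∀ q : G × G × G, ∃ ab : ℕ × ℕ,
      (∃ ab : ℕ × ℕ, 0 < ab.1 ∧ q.2.2 ^ ab.1 * q.1 = q.1 * q.2.1 ^ ab.2) →
        0 < ab.1 ∧ q.2.2 ^ ab.1 * q.1 = q.1 * q.2.1 ^ ab.2 := fun q => by
    by_cases h : ∃ ab : ℕ × ℕ, 0 < ab.1 ∧ q.2.2 ^ ab.1 * q.1 = q.1 * q.2.1 ^ ab.2
    · obtain ⟨ab, h⟩ := h
      exact ⟨ab, fun _ => h⟩
    · exact ⟨0, fun h' => absurd h' h⟩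
  choose ab hab using hex
  let η : G × G × G → (G × G × G →₀ ℚ) := fun q =>
    sg (1, q.1, q.2.2 ^ (ab q).1) - sg (1, q.2.1 ^ (ab q).2, q.1) + pc q.1 q.2.2 (ab q).1 -
      pc 1 q.2.1 (ab q).2
  refine ⟨(S ×ˢ U ×ˢ U).biUnion fun q => (F.E (η q)).support, ?_⟩
  intro x s u u' hs h h' τ hτ
  obtain ⟨y, rfl⟩ := cl_surj x
  have key : ∀ a b : ℕ, u' ^ a * s = s * u ^ b ↔
      z ^ (a * W.θ (cl z (s * y), u')) = z ^ (b * W.θ (cl z y, u)) := by
    intro a b
    rw [← mul_left_inj y, mul_assoc, mul_assoc, loop_pow (W := W) h.2.1,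
      loop_pow (W := W) (y := s * y) h'.2.1, mul_assoc, mul_right_inj, mul_right_inj]
  obtain ⟨ha, hq⟩ := hab (s, u, u') ⟨((W.θ (cl z y, u)).toNat, (W.θ (cl z (s * y), u')).toNat),
    by have := h.2.2; simp only; omega, (key _ _).mpr (by
      rw [Int.toNat_of_nonneg h.2.2.le, ← cl_smul, Int.toNat_of_nonneg h'.2.2.le, mul_comm])⟩
  simp only at ha hq
  generalize hA : (ab (s, u, u')).1 = a at ha hq
  generalize hB : (ab (s, u, u')).2 = b at hq
  have hN := W.zpow_inj ((key _ _).mp hq)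
  have hNq : (a : ℚ) * W.θ (s • cl z y, u') = b * W.θ (cl z y, u) := by exact_mod_cast hN
  have hf : ∀ (v w : G), (v • w) • cl z y = v • w • cl z y := fun v w => mul_smul v w _
  have hd : d2 (mp (fm fun w : G => w • cl z y) (η (s, u, u'))) =
      ((a : ℚ) * W.θ (s • cl z y, u')) • (W.be (s • cl z y) u' - W.be (cl z y) u) := by
    simp only [η, hA, hB, map_add, map_sub, mp_sg, mp_pc, fm, one_smul, d2_sg, d2_pc h.2.1,
      d2_pc h'.2.1, hq, pow_smul_fix h.2.1]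
    rw [smul_sub]
    conv_rhs => rw [be, smul_smul, mul_inv_cancel_right₀ h'.ne, hNq, be, smul_smul,
      mul_inv_cancel_right₀ h.ne]
    abel
  have ha0 : (a : ℚ) * W.θ (s • cl z y, u') ≠ 0 :=
    mul_ne_zero (by exact_mod_cast ha.ne') h'.ne
  have h1 := congrArg W.Θ hd
  rw [W.Θ_d, F.E_mp hf, map_smul, map_sub W.Θ] at h1
  have h2 : mp (fm fun w : G => w • cl z y) (F.E (η (s, u, u'))) τ ≠ 0 := by
    rw [h1, Finsupp.smul_apply]
    exact smul_ne_zero ha0 hτ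
  obtain ⟨t, h3, rfl⟩ := mp_ne h2
  exact ⟨t, Finset.mem_biUnion.mpr ⟨(s, u, u'), by simp [hs, h.1, h'.1],
    Finsupp.mem_support_iff.mpr h3⟩, rfl⟩

end Wind

end Pool.Agent.Lib.MP_7903c7_al.CD
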