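import Pool.Agent.Lib.MP_7903c7_al.CD.Core

set_option autoImplicit false

namespace Pool.Agent.Lib.MP_7903c7_al.CD

open scoped Classical Pointwise

variable {G : Type} [Group G] {I : Type} [Fintype I] [DecidableEq I]

omit [DecidableEq I] in
theorem reduce_finite {R : Type} [CommRing R] [IsDomain R] (C : G → Prop)
    {A : Matrix I I (MonoidAlgebra R G)} (hA : A * A = A) (hne : tau C A ≠ 0) :
    ∃ (k : Type) (_ : Field k) (_ : Finite k) (p : ℕ) (_ : p.Prime) (_ : CharP k p)
      (A' : Matrix I I (MonoidAlgebra k G)), p ∣ ringChar R ∧ A' * A' = A' ∧ tau C A' ≠ 0 := by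
  let S : Set R := ⋃ i, ⋃ j, Set.range (A i j).coeff
  have hS : S.Finite :=
    Set.finite_iUnion fun i => Set.finite_iUnion fun j => (A i j).coeff.finite_range
  let R0 := Algebra.adjoin ℤ S
  have : Algebra.FiniteType ℤ R0 := .adjoin_of_finite hS
  have := int_jacobson
  have : IsJacobsonRing R0 := isJacobsonRing_of_finiteType (A := ℤ)
  let ι : R0 →+* R := R0.val.toRingHom
  have hι : Function.Injective ι := Subtype.val_injective
  have hex : ∀ i j, ∃ a : MonoidAlgebra R0 G, MonoidAlgebra.mapRingHom G ι a = A i j := by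
    intro i j
    have : A i j ∈ Set.range (MonoidAlgebra.map (M := G) (ι : R0 →+ R)) := by
      rw [MonoidAlgebra.range_map]
      intro h
      exact ⟨⟨_, Algebra.subset_adjoin (Set.mem_iUnion₂.mpr ⟨i, j, h, rfl⟩)⟩, rfl⟩
    exact this
  choose A0 hA0 using hex
  have hmap : (Matrix.of A0).map (MonoidAlgebra.mapRingHom G ι) = A := by
    ext1 i j
    exact hA0 i j
  have hinj : Function.Injective (MonoidAlgebra.mapRingHom G ι) :=
    MonoidAlgebra.map_injective (ι : R0 →+ R) hι
  have hidem : Matrix.of A0 * Matrix.of A0 = Matrix.of A0 := by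
    apply Matrix.map_injective hinj
    simp only
    rw [Matrix.map_mul, hmap, hA]
  have hne0 : tau C (Matrix.of A0) ≠ 0 := by
    intro h0
    apply hne
    rw [← hmap, tau_map, h0, map_zero]
  obtain ⟨m, hm, hxm⟩ := exists_maximal_notMem hne0
  let := Ideal.Quotient.field m
  have hfin := finite_of_finite_type_of_isJacobsonRing ℤ (R0 ⧸ m)
  obtain ⟨p, hp⟩ := CharP.exists (R0 ⧸ m)
  have hprime : p.Prime := by
    refine (CharP.char_is_prime_or_zero (R0 ⧸ m) p).resolve_right ?_
    rintro rfl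
    have : CharZero (R0 ⧸ m) := CharP.charP_to_charZero _
    exact Int.not_isField (isField_of_isIntegral_of_isField (R := ℤ) (S := R0 ⧸ m)
      (algebraMap ℤ (R0 ⧸ m)).injective_int (Field.toIsField _))
  refine ⟨R0 ⧸ m, inferInstance, Module.finite_of_fg_torsion _ fun x => ⟨⟨p, mem_nonZeroDivisors_of_ne_zero
    (by exact_mod_cast hprime.ne_zero)⟩, by simp [Submonoid.smul_def]⟩, p, hprime, hp,
    (Matrix.of A0).map (MonoidAlgebra.mapRingHom G (Ideal.Quotient.mk m)), ?_, ?_, ?_⟩
  · have h1 : ((ringChar R : ℕ) : R0) = 0 := hι (by simp)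
    rw [← CharP.cast_eq_zero_iff (R0 ⧸ m), ← map_natCast (Ideal.Quotient.mk m), h1, map_zero]
  · rw [← Matrix.map_mul, hidem]
  · rw [tau_map]
    intro h0
    exact hxm (Ideal.Quotient.eq_zero_iff_mem.mp h0)

theorem finite_case {F : Type} [Field F] [Finite F] {p : ℕ} [Fact p.Prime] [CharP F p]
    {Λ : Subring ℚ} (Fl : Fill G Λ) (hΛ : (p : ℚ)⁻¹ ∉ Λ) {A : Matrix I I (MonoidAlgebra F G)}
    (hA : A * A = A) {g : G} (hg : ∀ k : ℤ, g ^ k = 1 → k = 0) :
    tau (fun h => IsConj h g) A = 0 := by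
  have := Fintype.ofFinite F
  let S0 : Finset G := insert 1 (Finset.univ.biUnion fun q : I × I => (A q.1 q.2).coeff.support)
  have hsub : ∀ i k, (A i k).coeff.support ⊆ S0 ∪ S0⁻¹ := fun i k u hu =>
    Finset.mem_union_left _ (Finset.mem_insert_of_mem
      (Finset.mem_biUnion.mpr ⟨(i, k), Finset.mem_univ _, hu⟩))
  have h : Idem (S0 ∪ S0⁻¹) fun u => Matrix.of fun i k => (A i k).coeff u := by
    refine ⟨Finset.mem_union_left _ (Finset.mem_insert_self _ _), fun u hu => ?_,
      fun u hu => ?_, fun v => ?_⟩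
    · rcases Finset.mem_union.mp hu with h | h
      · exact Finset.mem_union_right _ (Finset.inv_mem_inv h)
      · exact Finset.mem_union_left _ (by simpa using Finset.inv_mem_inv h)
    · ext i k
      exact Finsupp.notMem_support_iff.mp fun h => hu (hsub i k h)
    · ext i k
      conv_rhs => rw [Matrix.of_apply, ← hA, Matrix.mul_apply]
      simp only [Matrix.sum_apply, Matrix.mul_apply, Matrix.of_apply, MonoidAlgebra.coeff_sum,
        Finsupp.finsetSum_apply, MonoidAlgebra.coeff_mul_apply_left]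
      rw [Finset.sum_comm]
      exact Finset.sum_congr rfl fun l _ =>
        (Finsupp.sum_of_support_subset _ (hsub i l)
          (fun h r => r * (A l k).coeff (h⁻¹ * v)) (by simp)).symm
  rw [← core Fl hΛ h hg, tau_apply]
  simp only [Matrix.trace, Matrix.diag, Matrix.of_apply, Finset.sum_filter]
  rw [Finset.sum_congr rfl (g := fun i => ∑ w ∈ S0 ∪ S0⁻¹,
    if IsConj w g then (A i i).coeff w else 0), Finset.sum_comm]
  · refine Finset.sum_congr rfl fun w _ => ?_
    split_ifs <;> simp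
  · intro i _
    exact Finsupp.sum_of_support_subset _ (hsub i i)
      (fun w r => if IsConj w g then r else 0) (by simp)

theorem cd_two {R : Type} [CommRing R] [IsDomain R]
    (H : ∀ M : Rep ℤ G, (∀ m : ℕ, (ringChar R).Coprime m → Function.Bijective fun a : M => m • a) →
      CategoryTheory.Limits.IsZero (groupCohomology M 3))
    {A : Matrix I I (MonoidAlgebra R G)} (hA : A * A = A) {g : G}
    (hg : ¬ IsUnit ((orderOf g : ℕ) : R)) : tau (fun h => IsConj h g) A = 0 := by
  have hfill : ∀ p : ℕ, p.Prime → p ∣ ringChar R →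
      ∃ Λ : Subring ℚ, (p : ℚ)⁻¹ ∉ Λ ∧ Nonempty (Fill G Λ) := fun p hp hd =>
    have := Fact.mk hp
    exists_fill p fun M hM => H M fun m hm => hM m (hm.coprime_dvd_left hd)
  have h0 : orderOf g = 0 := by
    by_contra h0
    obtain ⟨l, hl, h1, h2⟩ : ∃ l : ℕ, l.Prime ∧ l ∣ ringChar R ∧ l ∣ orderOf g := by
      rcases CharP.char_is_prime_or_zero R (ringChar R) with h | h
      · exact ⟨_, h, dvd_rfl, not_not.mp (mt (CharP.isUnit_natCast_iff h).mpr hg)⟩
      · exact ⟨_, Nat.minFac_prime (fun h1 => hg (by rw [h1, Nat.cast_one]; exact isUnit_one)),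
          h ▸ dvd_zero _, Nat.minFac_dvd _⟩
    obtain ⟨Λ, h3, ⟨Fl⟩⟩ := hfill l hl h1
    have := Fact.mk hl
    obtain ⟨k, hk⟩ := h2
    have h4 := no_torsion Fl l h3 (g ^ k) (by rw [← pow_mul, mul_comm, ← hk, pow_orderOf_eq_one])
    have h5 := Nat.le_of_dvd (Nat.pos_of_ne_zero (by rintro rfl; exact h0 hk))
      (orderOf_dvd_of_pow_eq_one h4)
    have := hl.two_le
    have : k ≠ 0 := by rintro rfl; exact h0 hk
    rw [hk] at h5
    nlinarith [Nat.pos_of_ne_zero this]
  by_contra hne
  obtain ⟨k, _, _, p, hp, _, A', h1, h2, h3⟩ := reduce_finite _ hA hne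
  obtain ⟨Λ, h4, ⟨Fl⟩⟩ := hfill p hp h1
  have := Fact.mk hp
  exact h3 (finite_case Fl h4 h2 fun k hk => by
    simpa [h0] using orderOf_dvd_iff_zpow_eq_one.mpr hk)

end Pool.Agent.Lib.MP_7903c7_al.CD
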