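import Mathlib

set_option autoImplicit false

namespace Pool.Agent.Lib.MP_7903c7_al.CD

open scoped Classical

/-- A path metric for a symmetric connected relation. -/
structure PM {V : Type} (R : V → V → Prop) where
  D : V → V → ℕ
  tri : ∀ a b c, D a c ≤ D a b + D b c
  comm : ∀ a b, D a b = D b a
  self : ∀ a, D a a = 0
  one : ∀ a b, R a b → D a b ≤ 1
  map : ∀ f : V → V, (∀ a b, R a b → R (f a) (f b)) → ∀ a b, D (f a) (f b) ≤ D a b
  path : ∀ a b, ∃ π : ℕ → V, π 0 = a ∧ π (D a b) = b ∧ ∀ i < D a b, R (π i) (π (i + 1))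

lemma exists_PM {V : Type} (R : V → V → Prop) (hs : ∀ a b, R a b → R b a)
    (hc : ∀ a b, Relation.ReflTransGen R a b) : Nonempty (PM R) := by
  let Wk : ℕ → V → V → Prop := fun n a b =>
    ∃ π : ℕ → V, π 0 = a ∧ π n = b ∧ ∀ i < n, R (π i) (π (i + 1))
  have hadd : ∀ m n a b c, Wk m a b → Wk n b c → Wk (m + n) a c := by
    rintro m n a b c ⟨π, h0, h1, h2⟩ ⟨ρ, k0, k1, k2⟩
    refine ⟨fun i => if i ≤ m then π i else ρ (i - m), by simp [h0], ?_, fun i hi => ?_⟩
    · by_cases h : n = 0
      · subst h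
        simp [h1, ← k1, k0]
      · simp [h, k1]
    · rcases lt_trichotomy i m with h | h | h
      · simp only [if_pos h.le, if_pos (Nat.succ_le_of_lt h)]
        exact h2 i h
      · subst h
        simp only [le_refl, if_true, Nat.not_succ_le_self, if_false, h1, ← k0,
          Nat.add_sub_cancel_left]
        exact k2 0 (by omega)
      · simp only [if_neg (not_le.mpr h), if_neg (show ¬ i + 1 ≤ m by omega),
          show i + 1 - m = i - m + 1 by omega]
        exact k2 _ (by omega)
  have hone : ∀ a b, R a b → Wk 1 a b := fun a b h =>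
    ⟨fun i => if i = 0 then a else b, by simp, by simp, fun i hi => by
      simpa [show i = 0 by omega] using h⟩
  have hzero : ∀ a, Wk 0 a a := fun a => ⟨fun _ => a, rfl, rfl, fun i hi => absurd hi (by omega)⟩
  have hsym : ∀ n a b, Wk n a b → Wk n b a := by
    rintro n a b ⟨π, h0, h1, h2⟩
    refine ⟨fun i => π (n - i), by simp [h1], by simp [h0], fun i hi => ?_⟩
    have := hs _ _ (h2 (n - (i + 1)) (by omega))
    rwa [show n - (i + 1) + 1 = n - i by omega] at this
  have hex : ∀ a b, ∃ n, Wk n a b := by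
    intro a b
    induction hc a b with
    | refl => exact ⟨0, hzero a⟩
    | tail _ h ih =>
      obtain ⟨n, hn⟩ := ih
      exact ⟨n + 1, hadd _ _ _ _ _ hn (hone _ _ h)⟩
  have hle : ∀ a b n, Wk n a b → Nat.find (hex a b) ≤ n := fun a b n h => Nat.find_min' _ h
  refine ⟨⟨fun a b => Nat.find (hex a b), fun a b c => hle _ _ _
    (hadd _ _ _ _ _ (Nat.find_spec (hex a b)) (Nat.find_spec (hex b c))), fun a b => le_antisymm
    (hle _ _ _ (hsym _ _ _ (Nat.find_spec (hex b a))))
    (hle _ _ _ (hsym _ _ _ (Nat.find_spec (hex a b)))),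
    fun a => Nat.le_zero.mp (hle _ _ _ (hzero a)), fun a b h => hle _ _ _ (hone a b h),
    fun f hf a b => ?_, fun a b => Nat.find_spec (hex a b)⟩⟩
  obtain ⟨π, h0, h1, h2⟩ := Nat.find_spec (hex a b)
  exact hle _ _ _ ⟨fun i => f (π i), congrArg f h0, congrArg f h1, fun i hi => hf _ _ (h2 i hi)⟩

lemma PM.path_le {V : Type} {R : V → V → Prop} (M : PM R) {π : ℕ → V} {m : ℕ}
    (h : ∀ i < m, R (π i) (π (i + 1))) {i j : ℕ} (hij : i ≤ j) (hj : j ≤ m) :
    M.D (π i) (π j) ≤ j - i := by
  induction j, hij using Nat.le_induction with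
  | base => simp [M.self]
  | succ j hij ih =>
    have h1 := M.tri (π i) (π j) (π (j + 1))
    have h2 := M.one _ _ (h j hj)
    have h3 := ih (by omega)
    omega

lemma exists_stable {α : Type} (T : Finset α) (A : ℕ → α → Prop)
    (hA : ∀ r a, A r a → A (r + 1) a) :
    ∃ r, 1 ≤ r ∧ r ≤ T.card + 1 ∧ ∀ a ∈ T, A (r + 1) a → A r a := by
  by_contra hcon
  push Not at hcon
  have key : ∀ r, r ≤ T.card + 1 → r ≤ (T.filter (A (r + 1))).card := by
    intro r hr
    induction r with
    | zero => exact Nat.zero_le _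
    | succ r ih =>
      obtain ⟨a, ha, h1, h2⟩ := hcon (r + 1) (by omega) hr
      refine Nat.succ_le_of_lt ((ih (by omega)).trans_lt (Finset.card_lt_card ⟨?_, ?_⟩))
      · intro b hb
        rw [Finset.mem_filter] at hb ⊢
        exact ⟨hb.1, hA _ _ hb.2⟩
      · intro h3
        exact h2 (Finset.mem_filter.mp (h3 (Finset.mem_filter.mpr ⟨ha, h1⟩))).2
  have h1 := key _ le_rfl
  have h2 := Finset.card_filter_le T (A (T.card + 1 + 1))
  omega

end Pool.Agent.Lib.MP_7903c7_al.CD
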