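import Pool.Agent.Lib.MP_7903c7_al.CD.Kern
import Pool.Agent.Lib.MP_7903c7_al.Frob

set_option autoImplicit false

namespace Pool.Agent.Lib.MP_7903c7_al.CD

open scoped Classical Pointwise

section

open Polynomial

variable {n K : Type} [Fintype n] [DecidableEq n] [Field K]

lemma twist_trace_pow {p : ℕ} (hp : p.Prime) [CharP K p] (m : ℕ) (M : Matrix n n K) :
    (M ^ p ^ m).trace = M.trace ^ p ^ m := by
  have : Fact p.Prime := ⟨hp⟩
  obtain ⟨Φ, h1, h2⟩ := exists_frob hp (Matrix.traceAddMonoidHom n K) Matrix.trace_mul_comm m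
  obtain ⟨j, hj⟩ := Nat.exists_eq_succ_of_ne_zero (pow_ne_zero m hp.ne_zero)
  have hpow : ∀ (i : n) (a : K) (j : ℕ),
      (Matrix.single i i a) ^ (j + 1) = Matrix.single i i (a ^ (j + 1)) := by
    intro i a j
    induction j with
    | zero => simp
    | succ j ih => rw [pow_succ, ih, Matrix.single_mul_single_same, ← pow_succ]
  have h3 : Φ M = ∑ i, M i i ^ p ^ m := by
    conv_lhs => rw [Matrix.matrix_eq_sum_single M, map_sum]
    refine Finset.sum_congr rfl fun i _ => ?_
    rw [map_sum, Finset.sum_eq_single_of_mem i (Finset.mem_univ _)]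
    · rw [h2, hj, hpow, Matrix.traceAddMonoidHom_apply, Matrix.trace_single_eq_same]
    · intro k _ hk
      have : Matrix.single i k (M i k) = Matrix.single i i 1 * Matrix.single i k (M i k) := by
        rw [Matrix.single_mul_single_same, one_mul]
      rw [this, h1, Matrix.single_mul_single_of_ne _ _ _ _ hk, map_zero]
  rw [h2, Matrix.traceAddMonoidHom_apply] at h3
  rw [h3, ← sum_pow_char_pow]
  rfl

lemma twist_fitting (N : Matrix n n K) : ∃ (c : K[X]) (k : ℕ),
    IsIdempotentElem (aeval N c * N) ∧ ((1 - aeval N c * N) * N) ^ (k + 1) = 0 := by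
  obtain ⟨r, h1, h2⟩ := exists_eq_pow_rootMultiplicity_mul_and_not_dvd N.charpoly
    N.charpoly_monic.ne_zero 0
  rw [C_0, sub_zero] at h1 h2
  generalize rootMultiplicity 0 N.charpoly = k at h1
  obtain ⟨A, B, h3⟩ := ((irreducible_X.coprime_iff_not_dvd).2 h2).pow_left (m := k + 1)
  have h4 : ∀ q : K[X], aeval N (q * (X ^ k * r)) = 0 := fun q => by
    rw [map_mul, ← h1, Matrix.aeval_self_charpoly, mul_zero]
  have h5 : aeval N (A * X ^ k) * N = aeval N (A * X ^ k * X) := by rw [map_mul _ _ X, aeval_X]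
  refine ⟨A * X ^ k, k, ?_, ?_⟩
  · rw [IsIdempotentElem, h5, ← map_mul, ← sub_eq_zero, ← map_sub, ← h4 (-(A * X * B))]
    congr 1
    linear_combination (A * X ^ k * X) * h3
  · have h6 : (1 - aeval N (A * X ^ k * X)) * N = aeval N (B * r * X) := by
      rw [map_mul _ (B * r) X, aeval_X, ← map_one (aeval (R := K) N), ← map_sub]
      congr 2
      linear_combination -h3
    rw [h5, h6, ← map_pow, ← h4 ((B * r) ^ k * B * X)]
    congr 1
    ring

lemma twist_fit {p : ℕ} (hp : p.Prime) [CharP K p] (m : ℕ) {s ε : Matrix n n K} (he : ε * ε = ε)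
    (h1 : ε * (s * s - s) = (s * s - s) * ε) (h2 : (s * s - s) * (s * ε - ε * s) = 0) :
    ∃ w : K, (ε * (s ^ p ^ m - s)).trace = w ^ p ^ m - w := by
  obtain ⟨j, hj⟩ := Nat.exists_eq_add_one_of_ne_zero (pow_ne_zero m hp.ne_zero)
  obtain ⟨a, ha⟩ : ∃ a, a = s * s - s := ⟨_, rfl⟩
  rw [← ha] at h1 h2
  have has : s * a = a * s := by rw [ha]; noncomm_ring
  have hN : Commute s (a * ε) := by
    rw [mul_sub, sub_eq_zero] at h2
    rw [Commute, SemiconjBy, ← mul_assoc, has, mul_assoc, h2, mul_assoc]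
  have hNa : a * ε * (a * ε) = a * ε * a := by
    rw [← mul_assoc, mul_assoc a ε a, h1, mul_assoc, mul_assoc, he]
  obtain ⟨h, hh, hs⟩ : ∃ h, s ^ p ^ m - s = a * h ∧ Commute h (a * ε) := by
    refine ⟨∑ i ∈ Finset.range j, s ^ i, ?_, Commute.sum_left _ _ _ fun i _ => hN.pow_left i⟩
    rw [ha, ← mul_sub_one, mul_assoc, mul_geom_sum, hj, pow_succ', mul_sub_one]
  obtain ⟨c, k, hc, hk⟩ := twist_fitting (a * ε)
  have hcm : ∀ x, Commute x (a * ε) → Commute x (aeval (a * ε) c) := fun x hx => by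
    rw [aeval_eq_sum_range]
    exact Commute.sum_right _ _ _ fun i _ => (hx.pow_right i).smul_right _
  obtain ⟨ι, hι⟩ : ∃ ι, ι = aeval (a * ε) c * (a * ε) := ⟨_, rfl⟩
  rw [← hι] at hc hk
  have h3 : ((1 - ι) * (a * ε) * h).trace = 0 := by
    refine (Matrix.isNilpotent_trace_of_isNilpotent
      (Commute.isNilpotent_mul_right (Commute.symm ?_) ⟨_, hk⟩)).eq_zero
    exact ((Commute.one_right _).sub_right (hι ▸ (hcm h hs).mul_right hs)).mul_right hs
  have h4 : ι * (a * ε) * h = (ι * s) ^ p ^ m - ι * s := by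
    have h5 : Commute ι s := (hι ▸ (hcm s hN).mul_right hN : Commute s ι).symm
    rw [h5.mul_pow, hj, hc.pow_succ_eq, ← hj, ← mul_sub, hh, hι,
      mul_assoc (aeval (a * ε) c), hNa]
    simp only [mul_assoc]
  refine ⟨(ι * s).trace, ?_⟩
  rw [← twist_trace_pow hp, ← Matrix.trace_sub, ← h4, hh, ← mul_assoc, h1, ← sub_eq_zero,
    ← Matrix.trace_sub, ← h3]
  congr 1
  noncomm_ring

end

section

variable {Λ : Type} [AddCommGroup Λ] [LinearOrder Λ] [IsOrderedAddMonoid Λ] {F : Type} [Field F]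

/-- the part of a Hahn series supported where `T` holds -/
noncomputable def twist_cut (T : Λ → Prop) (w : HahnSeries Λ F) : HahnSeries Λ F :=
  ⟨fun γ => if T γ then w.coeff γ else 0, w.isPWO_support.mono fun γ h => by
    intro h0
    simp [h0] at h⟩

lemma twist_supp {r : Λ → Λ → Prop} (hr : ∀ a b c d, r a b → r c d → r (a + c) (b + d))
    (Q : ℕ) (c : Λ) (w : HahnSeries Λ F) (k : ℕ) :
    ∀ σ ∈ (twist_cut (fun γ => r (Q • γ) c) w ^ (k + 1)).support, r (Q • σ) ((k + 1) • c) := by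
  have h0 : ∀ σ ∈ (twist_cut (fun γ => r (Q • γ) c) w).support, r (Q • σ) c := fun σ h => by
    by_contra h1
    exact h (if_neg h1)
  induction k with
  | zero => simpa using h0
  | succ k ih =>
    intro σ h
    rw [pow_succ] at h
    obtain ⟨a, ha, b, hb, rfl⟩ := HahnSeries.support_mul_subset h
    rw [succ_nsmul c (k + 1)]
    simpa only [nsmul_add] using hr _ _ _ _ (ih a ha) (h0 b hb)

lemma twist_coeff_pow {p : ℕ} (hp : p.Prime) [CharP (HahnSeries Λ F) p] (m : ℕ)
    (w : HahnSeries Λ F) (c : Λ) :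
    (w ^ p ^ m).coeff c = (twist_cut (fun γ => p ^ m • γ = c) w ^ p ^ m).coeff c := by
  have : Fact p.Prime := ⟨hp⟩
  have e : w = twist_cut (fun γ => p ^ m • γ < c) w + twist_cut (fun γ => c < p ^ m • γ) w +
      twist_cut (fun γ => p ^ m • γ = c) w := by
    ext γ
    simp only [HahnSeries.coeff_add, twist_cut]
    rcases lt_trichotomy (p ^ m • γ) c with h | h | h
    · simp [h, h.ne, h.le]
    · simp [h]
    · simp [h, h.ne', h.le]
  obtain ⟨j, hj⟩ := Nat.exists_eq_succ_of_ne_zero (pow_ne_zero m hp.ne_zero)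
  have h1 : (twist_cut (fun γ => p ^ m • γ < c) w ^ p ^ m).coeff c = 0 := by
    by_contra h
    have := twist_supp (r := (· < ·)) (fun _ _ _ _ => add_lt_add) (p ^ m) c w j c
      (by rw [← Nat.succ_eq_add_one, ← hj]; exact h)
    rw [← Nat.succ_eq_add_one, ← hj] at this
    exact lt_irrefl _ this
  have h2 : (twist_cut (fun γ => c < p ^ m • γ) w ^ p ^ m).coeff c = 0 := by
    by_contra h
    have := twist_supp (r := fun a b => b < a) (fun _ _ _ _ => add_lt_add) (p ^ m) c w j c
      (by rw [← Nat.succ_eq_add_one, ← hj]; exact h)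
    rw [← Nat.succ_eq_add_one, ← hj] at this
    exact lt_irrefl _ this
  conv_lhs => rw [e, add_pow_char_pow, add_pow_char_pow, HahnSeries.coeff_add,
    HahnSeries.coeff_add, h1, h2, zero_add, zero_add]

lemma twist_coeff_smul {p : ℕ} (hp : p.Prime) [CharP (HahnSeries Λ F) p] (m : ℕ)
    (w : HahnSeries Λ F) (b : Λ) : (w ^ p ^ m).coeff (p ^ m • b) = w.coeff b ^ p ^ m := by
  have e : twist_cut (fun γ => p ^ m • γ = p ^ m • b) w = HahnSeries.single b (w.coeff b) := by
    ext γ
    simp only [twist_cut, nsmul_right_inj (pow_ne_zero m hp.ne_zero), HahnSeries.coeff_single]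
    split_ifs with h
    · rw [h]
    · rfl
  rw [twist_coeff_pow hp, e, HahnSeries.single_pow, HahnSeries.coeff_single_same]

lemma twist_coeff_not {p : ℕ} (hp : p.Prime) [CharP (HahnSeries Λ F) p] (m : ℕ)
    (w : HahnSeries Λ F) {c : Λ} (hc : ∀ b, p ^ m • b ≠ c) : (w ^ p ^ m).coeff c = 0 := by
  have e : twist_cut (fun γ => p ^ m • γ = c) w = 0 := by
    ext γ
    simp [twist_cut, hc γ]
  rw [twist_coeff_pow hp, e, zero_pow (pow_ne_zero m hp.ne_zero), HahnSeries.coeff_zero]

variable {I : Type} [Fintype I] [DecidableEq I]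

/-- a matrix placed in degree `c` -/
noncomputable def twist_sg (c : Λ) : Matrix I I F →+ Matrix I I (HahnSeries Λ F) :=
  (HahnSeries.single.addMonoidHom c).mapMatrix

omit [DecidableEq I] in
lemma twist_sg_mul (a b : Λ) (M N : Matrix I I F) :
    twist_sg a M * twist_sg b N = twist_sg (a + b) (M * N) := by
  ext1 i k
  show _ = HahnSeries.single.addMonoidHom (a + b) (∑ j, M i j * N j k)
  rw [map_sum]
  exact Finset.sum_congr rfl fun j _ => HahnSeries.single_mul_single

omit [DecidableEq I] [AddCommGroup Λ] [IsOrderedAddMonoid Λ] in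
lemma twist_sg_trace (a c : Λ) (M : Matrix I I F) :
    (twist_sg a M).trace.coeff c = if a = c then M.trace else 0 := by
  have : (twist_sg a M).trace = HahnSeries.single a M.trace :=
    (map_sum (HahnSeries.single.addMonoidHom a) _ _).symm
  rw [this, HahnSeries.coeff_single]
  simp only [eq_comm]

end

variable {G : Type} [Group G] {F : Type} [Field F] [Fintype F]
  {I : Type} [Fintype I] [DecidableEq I] {S : Finset G} {e : G → Matrix I I F}

section

variable {X : Type} [MulAction G X]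
  {Λ : Type} [AddCommGroup Λ] [LinearOrder Λ] [IsOrderedAddMonoid Λ]

/-- the twisted `m`-step matrix -/
noncomputable def twist_M (S : Finset G) (e : G → Matrix I I F) (B : Finset X) (lab : X → G → Λ)
    (Q m : ℕ) : Matrix B B (Matrix I I (HahnSeries Λ F)) := Matrix.of fun y x =>
  ∑ v ∈ S ^ Q, if v • (x : X) = y then
    twist_sg (lab x v) (KK S e (fun w => w • (x : X) ∈ B) m v) else 0

omit [Fintype F] in
lemma twist_M_succ (h : Idem S e) {B : Finset X} {lab : X → G → Λ} {Q : ℕ}
    (hlab : ∀ x ∈ B, ∀ v ∈ S ^ Q, ∀ u ∈ S, v • x ∈ B → (u * v) • x ∈ B →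
      lab x (u * v) = lab x v + lab (v • x) u) {m : ℕ} (hm : m + 1 ≤ Q) :
    twist_M S e B lab Q 1 * twist_M S e B lab Q m = twist_M S e B lab Q (m + 1) := by
  ext1 z x
  have hS : S ⊆ S ^ Q := fun u hu => mem_pow_mono h.one_mem (by omega : 1 ≤ Q) (by simpa using hu)
  obtain ⟨T, hT⟩ : ∃ T : G → G → Matrix I I (HahnSeries Λ F), ∀ u v, T u v =
      if (u * v) • (x : X) = z then twist_sg (lab x (u * v))
        (e u * KK S e (fun w => w • (x : X) ∈ B) m v) else 0 := ⟨_, fun _ _ => rfl⟩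
  have hT0 : ∀ u v, KK S e (fun w => w • (x : X) ∈ B) m v = 0 → T u v = 0 := fun u v h0 => by
    rw [hT, h0, mul_zero, map_zero, ite_self]
  trans ∑ u ∈ S, ∑ v ∈ S ^ Q, T u v
  · rw [Matrix.mul_apply]
    simp only [twist_M, Matrix.of_apply, Finset.mul_sum]
    rw [Finset.sum_comm, Finset.sum_comm (s := S)]
    refine Finset.sum_congr rfl fun v hv => ?_
    by_cases hB : v • (x : X) ∈ B
    · rw [Finset.sum_eq_single_of_mem ⟨_, hB⟩ (Finset.mem_univ _) fun y _ hy => by
        rw [if_neg fun h0 => hy (Subtype.ext h0.symm), mul_zero], if_pos rfl, Finset.sum_mul]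
      symm
      refine Finset.sum_subset_zero_on_sdiff hS (fun u hu => ?_) fun u hu => ?_
      · rw [KK_supp _ (by simpa using (Finset.mem_sdiff.1 hu).2), map_zero, ite_self, zero_mul]
      · rw [hT, mul_smul]
        split_ifs with h0
        · have h1 : u • v • (x : X) ∈ B := h0 ▸ z.2
          rw [twist_sg_mul, hlab x x.2 v hv u hu hB (by rwa [mul_smul]), add_comm, KK_one h,
            if_pos ⟨h1, by rwa [one_smul]⟩]
        · rw [zero_mul]
    · rw [Finset.sum_eq_zero fun u _ => hT0 u v (KK_not _ hB)]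
      refine Finset.sum_eq_zero fun y _ => ?_
      rw [if_neg fun h0 : v • (x : X) = y => hB (h0 ▸ y.2), mul_zero]
  · trans ∑ u ∈ S, ∑ w ∈ S ^ Q, T u (u⁻¹ * w)
    · refine Finset.sum_congr rfl fun u hu => ?_
      refine Finset.sum_bij_ne_zero (fun v _ _ => u * v) (fun v _ h0 => ?_) (fun v _ _ v' _ _ h0 => ?_)
        (fun w _ h0 => ?_) fun v _ _ => ?_
      · refine mem_pow_mono h.one_mem hm (mul_mem_pow_succ hu ?_)
        by_contra h1
        exact h0 (hT0 u v (KK_supp _ h1))
      · exact mul_left_cancel h0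
      · refine ⟨u⁻¹ * w, mem_pow_mono h.one_mem (by omega : m ≤ Q) ?_, h0, by simp⟩
        by_contra h1
        exact h0 (hT0 u _ (KK_supp _ h1))
      · simp
    · rw [Finset.sum_comm]
      refine Finset.sum_congr rfl fun w _ => ?_
      simp only [hT, mul_inv_cancel_left]
      split_ifs with h0
      · rw [KK_succ, if_pos (h0 ▸ z.2), map_sum]
      · simp

omit [Fintype F] in
lemma twist_KK_two (h : Idem S e) {A : G → Prop} (hA : ∀ u ∈ S, A u) {v : G} (hv : A v) :
    KK S e A 2 v = KK S e A 1 v := by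
  have h1 : ∀ w, KK S e A 1 w = e w := fun w =>
    (KK_congr h.one_mem (A' := fun _ => True) (fun u hu => by
      simpa using hA u (by simpa using hu)) w).trans (KK_true h 0 w)
  rw [KK_succ, if_pos hv]
  simp only [h1]
  exact h.idem v

end

theorem twist (h : Idem S e) {X : Type} [MulAction G X]
    {Λ : Type} [AddCommGroup Λ] [LinearOrder Λ] [IsOrderedAddMonoid Λ]
    (B : Finset X) (J : X → Prop) (lab : X → G → Λ)
    (hlab : ∀ x ∈ B, ∀ v ∈ S ^ Fintype.card F, ∀ u ∈ S, v • x ∈ B → (u * v) • x ∈ B →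
      lab x (u * v) = lab x v + lab (v • x) u)
    (hcol : ∀ x ∈ B, ∀ v ∈ S ^ 2, v • x ∈ B → ¬ (J x ↔ J (v • x)) → ∀ u ∈ S, u • x ∈ B)
    (α : Λ) (hα : α < 0) (hdiv : ∀ β : Λ, Fintype.card F • β ≠ α) :
    ∑ x ∈ B.filter (fun x => ¬ J x),
      ∑ v ∈ (S ^ Fintype.card F).filter
          (fun v => v • x = x ∧ ∃ j : ℕ, lab x v = Fintype.card F ^ j • α),
        ff S e (Fintype.card F) (fun w => w • x ∈ B) v = 0 := by
  obtain ⟨p, hchar, ⟨m, hm0⟩, hp, hQ⟩ := FiniteField.card' F
  have : CharP (HahnSeries Λ F) p := charP_of_injective_ringHom HahnSeries.C_injective p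
  have hQ2 : 2 ≤ Fintype.card F := Fintype.one_lt_card
  have hfix : ∀ x : F, x ^ Fintype.card F = x := FiniteField.pow_card
  change Fintype.card F = p ^ m at hQ
  generalize Fintype.card F = Q at *
  obtain ⟨s, hs⟩ : ∃ s, s = twist_M S e B lab Q 1 := ⟨_, rfl⟩
  have hpow : ∀ k, k + 1 ≤ Q → s ^ (k + 1) = twist_M S e B lab Q (k + 1) := by
    intro k hk
    induction k with
    | zero => rw [hs, zero_add, pow_one]
    | succ k ih => rw [pow_succ', ih (by omega), hs, twist_M_succ h hlab hk]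
  have ha : ∀ y x : B, (∀ v, v • (x : X) = y → v ∈ S ^ 2 → ∀ u ∈ S, u • (x : X) ∈ B) →
      (s * s - s) y x = 0 := by
    intro y x H
    rw [← sq, hpow 1 hQ2, hs, Matrix.sub_apply, sub_eq_zero]
    refine Finset.sum_congr rfl fun v _ => ?_
    split_ifs with h0
    · by_cases hv : v ∈ S ^ 2
      · rw [twist_KK_two h (H v h0 hv) (h0 ▸ y.2)]
      · rw [KK_supp _ hv, KK_supp _ fun h1 => hv (mem_pow_mono h.one_mem one_le_two h1)]
    · rfl
  obtain ⟨ε, hε⟩ : ∃ ε : Matrix B B (Matrix I I (HahnSeries Λ F)),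
      ε = Matrix.diagonal fun x : B => if J x then 0 else 1 := ⟨_, rfl⟩
  have he : ε * ε = ε := by
    rw [hε, Matrix.diagonal_mul_diagonal]
    congr 1
    funext x
    split_ifs <;> simp
  have h1 : ε * (s * s - s) = (s * s - s) * ε := by
    ext1 y x
    rw [hε, Matrix.diagonal_mul, Matrix.mul_diagonal]
    by_cases hJ : J x ↔ J y
    · simp only [hJ]
      split_ifs <;> simp
    · rw [ha y x fun v h0 hv => hcol x x.2 v hv (h0 ▸ y.2) (h0 ▸ hJ), mul_zero, zero_mul]
  have h2 : (s * s - s) * (s * ε - ε * s) = 0 := by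
    ext1 z x
    rw [Matrix.mul_apply, Matrix.zero_apply]
    refine Finset.sum_eq_zero fun y _ => ?_
    rw [Matrix.sub_apply (s * ε), hε, Matrix.diagonal_mul, Matrix.mul_diagonal]
    by_cases hJ : J y ↔ J x
    · simp only [hJ]
      split_ifs <;> simp
    by_cases h0 : ∃ u ∈ S, u • (x : X) = y
    · obtain ⟨u, hu, h0⟩ := h0
      have h3 : u⁻¹ • (y : X) = x := by rw [← h0, inv_smul_smul]
      rw [ha z y fun _ _ _ => hcol y y.2 u⁻¹ (mem_pow_mono h.one_mem one_le_two
        (by simpa using h.inv_mem u hu)) (h3 ▸ x.2) (h3 ▸ hJ), zero_mul]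
    · have h3 : s y x = 0 := by
        rw [hs]
        refine Finset.sum_eq_zero fun v _ => ?_
        split_ifs with h4
        · rw [KK_supp _ fun h5 => h0 ⟨v, by simpa using h5, h4⟩, map_zero]
        · rfl
      rw [h3, mul_zero, zero_mul, sub_zero, mul_zero]
  let φ := Matrix.compRingEquiv B I (HahnSeries Λ F)
  obtain ⟨w, hw⟩ := twist_fit hp m (s := φ s) (ε := φ ε) (by rw [← map_mul, he])
    (by simpa only [map_mul, map_sub] using congrArg φ h1)
    (by simpa only [map_mul, map_sub, map_zero] using congrArg φ h2)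
  rw [← map_pow, ← map_sub, ← map_mul, ← hQ] at hw
  have hy : ∀ c, (w ^ Q - w).coeff c = ∑ x ∈ B.filter (fun x => ¬ J x), ∑ v ∈ S ^ Q,
      if v • x = x ∧ lab x v = c then ff S e Q (fun w => w • x ∈ B) v else 0 := by
    intro c
    have e1 : (φ (ε * (s ^ Q - s))).trace = ∑ x, ((ε * (s ^ Q - s)) x x).trace := by
      simp only [Matrix.trace, Fintype.sum_prod_type]
      rfl
    obtain ⟨k, rfl⟩ : ∃ k, Q = k + 1 := ⟨Q - 1, by omega⟩
    rw [← hw, e1, HahnSeries.coeff_sum, Finset.sum_filter, ← Finset.sum_coe_sort B]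
    refine Finset.sum_congr rfl fun x _ => ?_
    rw [hε, Matrix.diagonal_mul, hpow k le_rfl, hs]
    by_cases hJ : J x
    · simp [hJ]
    rw [if_neg hJ, if_pos hJ, one_mul, Matrix.sub_apply, twist_M, twist_M, Matrix.of_apply,
      Matrix.of_apply, ← Finset.sum_sub_distrib, Matrix.trace_sum, HahnSeries.coeff_sum]
    refine Finset.sum_congr rfl fun v _ => ?_
    by_cases h0 : v • (x : X) = x
    · rw [if_pos h0, if_pos h0, ← map_sub, twist_sg_trace, Matrix.trace_sub, ff]
      simp only [h0, true_and]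
    · simp [h0]
  have hanti : StrictAnti fun j : ℕ => Q ^ j • α := fun a b hab =>
    neg_lt_neg_iff.1 (by
      simpa only [smul_neg] using
        nsmul_lt_nsmul_left (neg_pos.2 hα) (Nat.pow_lt_pow_right hQ2 hab))
  have htel : ∀ N, ∑ j ∈ Finset.range (N + 1), (w ^ Q - w).coeff (Q ^ j • α) =
      -w.coeff (Q ^ N • α) := by
    intro N
    induction N with
    | zero =>
      rw [Finset.sum_range_one, pow_zero, one_smul, HahnSeries.coeff_sub, hQ,
        twist_coeff_not hp m w (hQ ▸ hdiv), zero_sub]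
    | succ N ih =>
      have := twist_coeff_smul hp m w (Q ^ N • α)
      rw [← hQ, hfix, ← mul_smul, ← pow_succ'] at this
      rw [Finset.sum_range_succ, ih, HahnSeries.coeff_sub, this]
      ring
  have hev : ∀ᶠ N in Filter.atTop, ∀ x ∈ B, ∀ v ∈ S ^ Q, ∀ j, lab x v = Q ^ j • α → j < N + 1 := by
    refine (Finset.eventually_all _).2 fun x _ => (Finset.eventually_all _).2 fun v _ => ?_
    by_cases h0 : ∃ j, lab x v = Q ^ j • α
    · obtain ⟨j, hj⟩ := h0
      filter_upwards [Filter.eventually_ge_atTop j] with N hN j' hj'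
      have := hanti.injective (hj.symm.trans hj')
      omega
    · exact Filter.Eventually.of_forall fun N j hj => (h0 ⟨j, hj⟩).elim
  obtain ⟨N0, hN0⟩ := Filter.eventually_atTop.1 hev
  obtain ⟨N, hN, hz⟩ : ∃ N, N0 ≤ N ∧ w.coeff (Q ^ N • α) = 0 := by
    by_contra! H
    obtain ⟨a, b, hab, hle⟩ := Set.PartiallyWellOrderedOn.exists_lt w.isPWO_support
      (f := fun k => Q ^ (N0 + k) • α) fun k => H _ (Nat.le_add_right _ _)
    exact absurd hle (not_le.2 (hanti (by omega)))
  have := htel N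
  simp only [hy] at this
  rw [hz, neg_zero, Finset.sum_comm] at this
  refine (Finset.sum_congr rfl fun x hx => ?_).trans this
  rw [Finset.sum_filter, Finset.sum_comm]
  refine Finset.sum_congr rfl fun v hv => ?_
  split_ifs with h0
  · obtain ⟨h3, j, hj⟩ := h0
    rw [Finset.sum_eq_single_of_mem j
      (Finset.mem_range.2 (hN0 N hN x (Finset.mem_filter.1 hx).1 v hv j hj)), if_pos ⟨h3, hj⟩]
    exact fun j' _ hj' => if_neg fun h4 => hj' (hanti.injective (h4.2.symm.trans hj))
  · exact (Finset.sum_eq_zero fun j _ => if_neg fun h4 => h0 ⟨h4.1, j, h4.2⟩).symm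

end Pool.Agent.Lib.MP_7903c7_al.CD
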