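import Pool.Agent.Lib.MP_7903c7_al.CD.Flux
import Pool.Agent.Lib.MP_7903c7_al.CD.Twist

set_option autoImplicit false

namespace Pool.Agent.Lib.MP_7903c7_al.CD

open scoped Classical Pointwise

variable {G : Type} [Group G] {Λ : Subring ℚ}

lemma exists_lex (ι : Type) : ∃ (L : Type) (_ : AddCommGroup L) (_ : LinearOrder L)
    (_ : IsOrderedAddMonoid L) (φ : (ℤ × (ι →₀ ℚ)) ≃+ L), ∀ a, φ (-1, a) < 0 := by
  obtain ⟨o, -⟩ := exists_wellFoundedLT ι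
  exact ⟨Lex (ℤ × Lex (ι →₀ ℚ)), inferInstance, inferInstance, inferInstance,
    ⟨⟨fun q => toLex (q.1, toLex q.2), fun q => ((ofLex q).1, ofLex (ofLex q).2), fun _ => rfl,
      fun _ => rfl⟩, fun _ _ => rfl⟩, fun a => Prod.Lex.left _ _ (by norm_num)⟩

lemma rm_inv {z : G} (r : CZ z) (x : XX z) : rm r⁻¹ (rm r x) = x := by
  rw [← rm_mul, mul_inv_cancel, rm_one]

lemma out_inv_smul {z : G} (x : XX z) : x.out⁻¹ • x = cl z 1 := by
  rw [inv_smul_eq_iff, cl_smul, mul_one, cl, QuotientGroup.out_eq']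

namespace Wind

variable {Fl : Fill G Λ} {g : G} (W : Wind Fl g)

lemma lp_loop (x : XX g) (k : ℕ) :
    lp g (pj g x) k • x = x ∧ W.θ (x, lp g (pj g x) k) = k := by
  obtain ⟨y, rfl⟩ := cl_surj x
  have : y * g ^ k * y⁻¹ * y = y * g ^ (k : ℤ) := by simp
  rw [pj_cl, lp_mk]
  exact ⟨by rw [cl_smul, this, cl_mul_zpow], W.θ_loop this⟩

lemma eq_lp {x : XX g} {v : G} {k : ℕ} (h : v • x = x) (hk : W.θ (x, v) = k) :
    v = lp g (pj g x) k := by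
  obtain ⟨y, rfl⟩ := cl_surj x
  rw [pj_cl, lp_mk, ← zpow_natCast, ← hk, ← W.loop_eq h, mul_inv_cancel_right]

/-- Loops whose winding number is a power of `Q`. -/
def RL (Q : ℕ) (U : Finset G) (x : XX g) (u : G) : Prop :=
  W.Lp U x u ∧ ∃ j : ℕ, W.θ (x, u) = (Q ^ j : ℕ)

variable {F : Type} [Field F] [Fintype F] {I : Type} [Fintype I] [DecidableEq I]
  {S : Finset G} {e : G → Matrix I I F}

theorem pattern_sum (h : Idem S e) (B0 : Finset (CC g)) : ∃ B : Finset (CC g),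
    (∀ x ∈ B0, ∀ w ∈ S ^ Fintype.card F, w • x ∈ B) ∧
    ∀ x0 v0, W.RL (Fintype.card F) (S ^ Fintype.card F) x0 v0 → pj g x0 ∈ B →
      rs (fun τ => pj g τ.1 ∈ B0) (W.al x0 v0) ∉ IntC Λ _ →
      ∃ T : Finset (XX g × G), (∀ q, q ∈ T ↔ pj g q.1 ∈ B ∧
        W.RL (Fintype.card F) (S ^ Fintype.card F) q.1 q.2 ∧
        rs (fun τ => pj g τ.1 ∈ B0) (W.al q.1 q.2 - W.al x0 v0) ∈ IntC Λ _) ∧
      ∑ q ∈ T, ff S e (Fintype.card F) (fun w => w • pj g q.1 ∈ B) q.2 = 0 := by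
  have hQ2 : 2 ≤ Fintype.card F := Fintype.one_lt_card
  have htw := fun (L : Type) (i1 : AddCommGroup L) (i2 : LinearOrder L)
    (i3 : IsOrderedAddMonoid L) => twist h (X := XX g) (Λ := L)
  generalize Fintype.card F = Q at hQ2 htw ⊢
  have h1 : ∀ n, (1 : G) ∈ S ^ n := fun n => mem_pow_mono h.one_mem (Nat.zero_le n) (by simp)
  let SE : Finset G := insert 1 (((S ^ Q) ×ˢ S).biUnion fun q =>
    (Fl.E0 q.1 q.2).support.image fun t => t.1)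
  let B : Finset (CC g) := ((S ^ (2 * Q + 4)) ×ˢ SE ×ˢ B0).image fun q => q.1 • q.2.1⁻¹ • q.2.2
  have hB : ∀ w ∈ S ^ (2 * Q + 4), ∀ s ∈ SE, ∀ x ∈ B0, w • s⁻¹ • x ∈ B :=
    fun w hw s hs x hx => Finset.mem_image.mpr ⟨(w, s, x), by simp [hw, hs, hx], rfl⟩
  refine ⟨B, fun x hx w hw => by
    simpa using hB w (mem_pow_mono h.one_mem (by omega) hw) 1 (Finset.mem_insert_self _ _) x hx, ?_⟩
  intro x0 v0 hx0 hx0B hni
  obtain ⟨τ0, hτ0⟩ := not_forall.mp hni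
  rw [rs_apply] at hτ0
  have hτ1 : pj g τ0.1 ∈ B0 := by
    by_contra h2
    exact hτ0 (by rw [if_neg h2]; exact zero_mem _)
  rw [if_pos hτ1] at hτ0
  have hfin : {q : XX g × G | pj g q.1 ∈ B ∧ W.RL Q (S ^ Q) q.1 q.2 ∧
      W.al q.1 q.2 τ0 ∉ Λ}.Finite := by
    refine ((B ×ˢ (S ^ Q)).biUnion fun b => (W.al (cl g b.1.out) b.2).support.image fun τ =>
      ((b.1.out * τ.1.out⁻¹) • τ0.1, b.2)).finite_toSet.subset ?_
    rintro ⟨x, v⟩ ⟨h2, h3, h4⟩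
    obtain ⟨r, hr⟩ := pj_eq (x := cl g (pj g x).out) (x' := x) (QuotientGroup.out_eq' _)
    have h5 : W.Lp (S ^ Q) (cl g (pj g x).out) v := by
      rw [← rm_inv r (cl g (pj g x).out), hr]
      exact h3.1.rm r⁻¹
    have h6 := h5.al_rm_int r τ0
    rw [hr, Finsupp.sub_apply] at h6
    obtain ⟨τ, h7, h8⟩ := mp_ne (φ := fm (rm r)) (c := W.al (cl g (pj g x).out) v) (b := τ0)
      (fun h7 => h4 (by rwa [h7, sub_zero] at h6))
    refine Finset.mem_coe.mpr (Finset.mem_biUnion.mpr ⟨(pj g x, v),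
      Finset.mem_product.mpr ⟨h2, h3.1.1⟩, Finset.mem_image.mpr
        ⟨τ, Finsupp.mem_support_iff.mpr h7, Prod.ext ?_ rfl⟩⟩)
    simp only [← h8, fm]
    rw [← rm_smul, mul_smul, out_inv_smul, cl_smul, mul_one, hr]
  let FF := hfin.toFinset
  have hFF : ∀ q, q ∈ FF ↔ pj g q.1 ∈ B ∧ W.RL Q (S ^ Q) q.1 q.2 ∧ W.al q.1 q.2 τ0 ∉ Λ :=
    fun q => hfin.mem_toFinset
  let T := FF.filter fun q => rs (fun τ => pj g τ.1 ∈ B0) (W.al q.1 q.2 - W.al x0 v0) ∈ IntC Λ _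
  have hτ2 : ∀ q : XX g × G, rs (fun τ => pj g τ.1 ∈ B0) (W.al q.1 q.2 - W.al x0 v0) ∈ IntC Λ _ →
      W.al q.1 q.2 τ0 ∉ Λ := by
    intro q h2 h3
    have := h2 τ0
    rw [rs_apply, if_pos hτ1, Finsupp.sub_apply] at this
    exact hτ0 (by simpa using sub_mem h3 this)
  refine ⟨T, fun q => ?_, ?_⟩
  · rw [Finset.mem_filter, hFF]
    exact ⟨fun h2 => ⟨h2.1.1, h2.1.2.1, h2.2⟩, fun h2 => ⟨⟨h2.1, h2.2.1, hτ2 q h2.2.2⟩, h2.2.2⟩⟩
  let Y : Finset (XX g × G × G) :=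
    (FF.biUnion fun q => (W.al q.1 q.2).support).filter fun τ => pj g τ.1 ∈ B0
  have hY : ∀ q ∈ FF, ∀ τ, pj g τ.1 ∈ B0 → τ ∉ Y → W.al q.1 q.2 τ = 0 := by
    intro q hq τ h2 h3
    by_contra h4
    exact h3 (Finset.mem_filter.mpr ⟨Finset.mem_biUnion.mpr
      ⟨q, hq, Finsupp.mem_support_iff.mpr h4⟩, h2⟩)
  have hq0 : (x0, v0) ∈ FF := (hFF _).mpr ⟨hx0B, hx0, hτ0⟩
  have hτY : τ0 ∈ Y := by
    by_contra h2
    exact hτ0 (by rw [hY _ hq0 _ hτ1 h2]; exact zero_mem _)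
  let Bad : Finset (XX g) := (SE ×ˢ Y).image fun q => q.1⁻¹ • q.2.1
  have hBad : ∀ x ∈ Bad, ∀ w ∈ S ^ (2 * Q + 4), pj g (w • x) ∈ B := by
    intro x hx w hw
    obtain ⟨⟨s, τ⟩, h2, rfl⟩ := Finset.mem_image.mp hx
    rw [pj_smul, pj_smul]
    exact hB w hw s (Finset.mem_product.mp h2).1 _
      (Finset.mem_filter.mp (Finset.mem_product.mp h2).2).2
  let J : XX g → Prop := fun x => ∃ w ∈ S ^ (Q + 1), w • x ∈ Bad
  let R : Finset (XX g) := ((S ^ (Q + 4)) ×ˢ (Bad ∪ FF.image fun q => q.1)).image fun q => q.1 • q.2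
  have hR : ∀ w ∈ S ^ (Q + 4), ∀ x, x ∈ Bad ∨ (∃ v, (x, v) ∈ FF) → w • x ∈ R := by
    intro w hw x hx
    refine Finset.mem_image.mpr ⟨(w, x), Finset.mem_product.mpr ⟨hw, ?_⟩, rfl⟩
    rcases hx with hx | ⟨v, hx⟩
    · exact Finset.mem_union_left _ hx
    · exact Finset.mem_union_right _ (Finset.mem_image.mpr ⟨_, hx, rfl⟩)
  let B2 : Finset (XX g) := R.filter fun x => pj g x ∈ B ∧ x ∉ Bad
  obtain ⟨L, i1, i2, i3, φ, hφ⟩ := exists_lex (XX g × G × G)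
  let lab : XX g → G → L := fun x v => φ (- W.θ (x, v), rs (fun τ => τ ∈ Y) (W.Θ (sg (x, v))))
  replace htw := htw L i1 i2 i3 B2 J lab
    (by
      intro x hx v hv u hu _ _
      have h2 : rs (fun τ => τ ∈ Y) (W.Θ (d2 (sg (x, v, u)))) = 0 := by
        rw [W.Θ_d, Fl.E_sg]
        refine rs_eq_zero fun τ hτ h3 => (Finset.mem_filter.mp hx).2.2 ?_
        obtain ⟨t, h4, rfl⟩ := mp_ne hτ
        exact Finset.mem_image.mpr ⟨(t.1, _), Finset.mem_product.mpr ⟨Finset.mem_insert_of_mem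
          (Finset.mem_biUnion.mpr ⟨(v, u), Finset.mem_product.mpr ⟨hv, hu⟩,
            Finset.mem_image.mpr ⟨t, Finsupp.mem_support_iff.mpr h4, rfl⟩⟩), h3⟩, inv_smul_smul _ _⟩
      rw [d2_sg, map_add, map_sub, map_add, map_sub] at h2
      simp only [lab]
      rw [← map_add, Prod.mk_add_mk, W.θ_mul, neg_add]
      congr 2
      rw [← sub_eq_zero, ← neg_eq_zero, ← h2]
      abel)
    (by
      intro x _ v hv _ hJ u hu
      have h2 : ∃ w ∈ S ^ (Q + 3), w • x ∈ Bad := by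
        by_cases h3 : J x
        · obtain ⟨w, hw, h4⟩ := h3
          exact ⟨w, mem_pow_mono h.one_mem (by omega) hw, h4⟩
        · obtain ⟨w, hw, h4⟩ : J (v • x) := by tauto
          exact ⟨w * v, mul_mem_pow_add (m := Q + 1) (n := 2) hw hv, by rwa [mul_smul]⟩
      obtain ⟨w, hw, h4⟩ := h2
      have h5 : u * w⁻¹ ∈ S ^ (Q + 4) := mul_mem_pow_succ hu (inv_mem_pow h.inv_mem hw)
      have h6 : u • x = (u * w⁻¹) • w • x := by simp [mul_smul]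
      refine Finset.mem_filter.mpr ⟨h6 ▸ hR _ h5 _ (Or.inl h4),
        h6 ▸ hBad _ h4 _ (mem_pow_mono h.one_mem (by omega) h5), fun h7 => hJ (iff_of_true
          ⟨u, mem_pow_mono h.one_mem (m := 1) (by omega) (by simpa using hu), h7⟩
          ⟨u * v⁻¹, mem_pow_mono h.one_mem (by omega)
            (mul_mem_pow_succ hu (inv_mem_pow h.inv_mem hv)), by simpa [mul_smul] using h7⟩)⟩)
  rw [← Finset.sum_fiberwise_of_maps_to (t := T.image fun q => rs (fun τ => τ ∈ Y) (W.al q.1 q.2))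
    (fun q hq => Finset.mem_image_of_mem _ hq)]
  refine Finset.sum_eq_zero fun a ha => ?_
  obtain ⟨q1, hq1, ha1⟩ := Finset.mem_image.mp ha
  replace htw := htw (φ (-1, a)) (hφ a) (by
    intro β hβ
    obtain ⟨⟨k, b⟩, rfl⟩ := φ.surjective β
    rw [← map_nsmul, φ.apply_eq_iff_eq] at hβ
    have h2 : (Q : ℤ) * k = -1 := by simpa using congrArg Prod.fst hβ
    have := Int.isUnit_iff.mp (isUnit_of_dvd_one (a := (Q : ℤ)) ⟨-k, by linarith⟩)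
    omega)
  have hmatch : ∀ x v, v • x = x → ∀ j : ℕ, (lab x v = Q ^ j • φ (-1, a) ↔
      W.θ (x, v) = (Q ^ j : ℕ) ∧ rs (fun τ => τ ∈ Y) (W.al x v) = a) := by
    intro x v _ j
    simp only [lab]
    rw [← map_nsmul, φ.apply_eq_iff_eq, Prod.smul_mk, Prod.mk.injEq, smul_neg, neg_inj,
      nsmul_one]
    refine and_congr_right fun h2 => ?_
    have h3 : ((Q ^ j : ℕ) : ℚ) ≠ 0 := by positivity
    rw [al, be, map_smul, map_smul, h2, Int.cast_natCast, inv_smul_eq_iff₀ h3, Nat.cast_smul_eq_nsmul]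
  rw [← htw, Finset.sum_sigma']
  have hJ : ∀ q : XX g × G, ff S e Q (fun w => w • pj g q.1 ∈ B) q.2 ≠ 0 → ¬ J q.1 := by
    rintro q h2 ⟨w, hw, h3⟩
    refine h2 (ff_full h (by omega) (fun v hv => ?_) _)
    have := hBad _ h3 (v * w⁻¹) (mem_pow_mono h.one_mem (by omega)
      (mul_mem_pow_add hv (inv_mem_pow h.inv_mem hw)))
    rwa [mul_smul, inv_smul_smul, pj_smul] at this
  have hff : ∀ q ∈ FF, ¬ J q.1 → ff S e Q (fun w => w • pj g q.1 ∈ B) q.2 =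
      ff S e Q (fun w => w • q.1 ∈ B2) q.2 := by
    intro q hq h2
    refine ff_congr h.one_mem (by omega) (fun w hw => ?_) _
    rw [Finset.mem_filter, pj_smul]
    exact ⟨fun h3 => ⟨hR w (mem_pow_mono h.one_mem (by omega) hw) _ (Or.inr ⟨q.2, hq⟩), h3,
      fun h4 => h2 ⟨w, mem_pow_mono h.one_mem (by omega) hw, h4⟩⟩, fun h3 => h3.2.1⟩
  refine Finset.sum_bij_ne_zero (fun q _ _ => (⟨q.1, q.2⟩ : Σ _ : XX g, G)) ?_ ?_ ?_ ?_
  · intro q hq h2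
    obtain ⟨h3, h4⟩ := Finset.mem_filter.mp hq
    have h5 := (Finset.mem_filter.mp h3).1
    obtain ⟨h6, ⟨h7, j, h8⟩, -⟩ := (hFF q).mp h5
    simp only [Finset.mem_sigma, Finset.mem_filter]
    exact ⟨⟨Finset.mem_filter.mpr
      ⟨by simpa using hR 1 (h1 _) _ (Or.inr ⟨q.2, h5⟩), h6, fun h9 =>
        hJ q h2 ⟨1, h1 _, by simpa using h9⟩⟩, hJ q h2⟩,
      h7.1, h7.2.1, j, (hmatch _ _ h7.2.1 j).mpr ⟨h8, h4⟩⟩
  · intro q _ _ q' _ _ h2
    obtain ⟨h3, h4⟩ := Sigma.mk.inj h2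
    exact Prod.ext h3 (eq_of_heq h4)
  · rintro ⟨x, v⟩ hq h2
    simp only [Finset.mem_sigma, Finset.mem_filter] at hq
    obtain ⟨⟨h5, h6⟩, h7, h8, j, h9⟩ := hq
    obtain ⟨k1, k2⟩ := (hmatch _ _ h8 j).mp h9
    have k3 : ∀ τ ∈ Y, W.al x v τ = W.al q1.1 q1.2 τ := fun τ hτ => by
      have := DFunLike.congr_fun (k2.trans ha1.symm) τ
      rwa [rs_apply, rs_apply, if_pos hτ, if_pos hτ] at this
    have k4 := (Finset.mem_filter.mp hq1).2
    have k5 : (x, v) ∈ FF := (hFF _).mpr ⟨(Finset.mem_filter.mp h5).2.1,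
      ⟨⟨h7, h8, by rw [k1]; positivity⟩, j, k1⟩, by rw [k3 _ hτY]; exact hτ2 _ k4⟩
    refine ⟨(x, v), Finset.mem_filter.mpr ⟨Finset.mem_filter.mpr ⟨k5, fun τ => ?_⟩, k2⟩,
      by rwa [hff _ k5 h6], rfl⟩
    have k6 := k4 τ
    rw [rs_apply, Finsupp.sub_apply] at k6 ⊢
    split_ifs at k6 ⊢ with k7
    · by_cases k8 : τ ∈ Y
      · rwa [k3 _ k8]
      · rw [hY _ k5 _ k7 k8, hY _ hq0 _ k7 k8, sub_self]
        exact zero_mem _
    · exact k6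
  · intro q hq h2
    exact hff q (Finset.mem_filter.mp (Finset.mem_filter.mp hq).1).1 (hJ q h2)

end Wind

end Pool.Agent.Lib.MP_7903c7_al.CD
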