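import Pool.Agent.Lib.MP_7903c7_al.CD.Loop
import Pool.Agent.Lib.MP_7903c7_al.CD.Metric
import Pool.Agent.Lib.MP_7903c7_al.CD.Kern

set_option autoImplicit false

namespace Pool.Agent.Lib.MP_7903c7_al.CD

open scoped Classical Pointwise

variable {G : Type} [Group G] {Λ : Subring ℚ}

/-- `b` is an `S`-neighbour of `a`. -/
def Cl {X : Type} [MulAction G X] (S : Finset G) (a b : X) : Prop := ∃ s ∈ S, b = s • a

lemma Cl.symm {X : Type} [MulAction G X] {S : Finset G} (hi : ∀ u ∈ S, u⁻¹ ∈ S) {a b : X}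
    (h : Cl S a b) : Cl S b a := by
  obtain ⟨s, hs, rfl⟩ := h
  exact ⟨s⁻¹, hi s hs, by simp⟩

lemma Cl.two {X : Type} [MulAction G X] {S : Finset G} {a b c : X}
    (h : Cl S a c) (h' : Cl S b c) : Cl (S⁻¹ * S) a b := by
  obtain ⟨s, hs, rfl⟩ := h
  obtain ⟨t, ht, h'⟩ := h'
  exact ⟨t⁻¹ * s, Finset.mul_mem_mul (Finset.inv_mem_inv ht) hs, by rw [mul_smul, h']; simp⟩

lemma inv_mem_inv_mul {S : Finset G} : ∀ u ∈ S⁻¹ * S, u⁻¹ ∈ S⁻¹ * S := by
  intro u hu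
  obtain ⟨a, ha, b, hb, rfl⟩ := Finset.mem_mul.mp hu
  rw [mul_inv_rev]
  exact Finset.mul_mem_mul (Finset.inv_mem_inv hb) (by simpa using Finset.inv_mem_inv ha)

lemma exists_faces (T : Finset (G × G × G)) (S : Finset G) : ∃ Sf : Finset G, S ⊆ Sf ∧
    ∀ (X : Type) [MulAction G X] (x a : X) (u u' : G), Nr T x (a, u, u') →
      Cl Sf x a ∧ Cl Sf x (u • a) ∧ Cl Sf x (u' • u • a) := by
  refine ⟨S ∪ T.biUnion fun t => {t.1, t.2.1 * t.1, t.2.2 * t.2.1 * t.1},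
    Finset.subset_union_left, ?_⟩
  rintro X _ x a u u' ⟨⟨t, v, v'⟩, ht, h⟩
  obtain ⟨rfl, h2⟩ := Prod.mk.inj h
  obtain ⟨rfl, rfl⟩ := Prod.mk.inj h2
  exact ⟨⟨_, Finset.mem_union_right _ (Finset.mem_biUnion.mpr ⟨_, ht, by simp⟩), rfl⟩,
    ⟨u * t, Finset.mem_union_right _ (Finset.mem_biUnion.mpr ⟨_, ht, by simp⟩),
      (mul_smul _ _ _).symm⟩,
    ⟨u' * u * t, Finset.mem_union_right _ (Finset.mem_biUnion.mpr ⟨_, ht, by simp⟩),
      by simp only [mul_smul]⟩⟩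

namespace Wind

variable {F : Fill G Λ} {z : G} (W : Wind F z)

include W in
lemma E_congr {η η' : XX z × G × G →₀ ℚ} (h : d2 η = d2 η') : F.E η = F.E η' := by
  rw [← W.Θ_d, ← W.Θ_d, h]

lemma Lp.DD_sub {W : Wind F z} {U : Finset G} {x x' : XX z} {u u' : G} (h : W.Lp U x u)
    (h' : W.Lp U x' u') (A : XX z → Prop) : DD A (W.al x' u' - W.al x u) =
      d2 (rs (fun τ => A τ.1) (W.al x' u' - W.al x u)) -
        ((if A x' then W.be x' u' else 0) - (if A x then W.be x u else 0)) := by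
  rw [DD_apply, h.d2_sub h', map_sub (rs fun ε : XX z × G => A ε.1), rs_be, rs_be]

theorem tree (U S2 : Finset G) (h1 : (1 : G) ∈ S2) :
    ∃ S : Finset G, ∀ (P : XX z → Prop) (r : CZ z) (p : ℕ), p.Prime →
      (∀ a, P a → ∃ u, W.Lp U a u) →
      (∀ a b, P a → P b → Relation.ReflTransGen (fun a b => P b ∧ Cl S2 a b) a b) →
      (∀ a, P a → P (rm r a)) → (∀ a, rm (r ^ p) a = a) → (∃ a, P a) →
      ∃ a k, P a ∧ ¬ p ∣ k ∧ Cl S a (rm (r ^ k) a) := by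
  obtain ⟨T2, hT2⟩ := W.annulus U S2
  let T3 : Finset (G × G × G) := T2 ∪ T2.biUnion fun t' =>
    (F.E0 t'.2.1 t'.2.2).support.image fun t => (t.1 * t'.1, t.2)
  have hT23 : ∀ (x : XX z) τ, Nr T2 x τ → Nr T3 x τ := fun x τ ⟨t, ht, h⟩ =>
    ⟨t, Finset.mem_union_left _ ht, h⟩
  obtain ⟨Sf, hSf, hfa⟩ := exists_faces T3 S2
  have h1f : (1 : G) ∈ Sf := hSf h1
  let Sb := Sf⁻¹ * Sf
  have h1b : (1 : G) ∈ Sb := by
    have := Finset.mul_mem_mul (Finset.inv_mem_inv h1f) h1f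
    rwa [inv_mul_cancel] at this
  obtain ⟨Tb, hTb⟩ := W.annulus U Sb
  let D1 := 2 * Tb.card + 2
  let D2 := 2 * D1 + 1
  refine ⟨Sb ^ (3 * D2), fun P r p hp hP hcon hr hrp ⟨a0, ha0⟩ => ?_⟩
  let V := {q : XX z × G // P q.1 ∧ W.Lp U q.1 q.2}
  let A : V → (XX z × G × G →₀ ℚ) := fun v => W.al v.1.1 v.1.2
  let R : V → V → Prop := fun v w => Cl Sb v.1.1 w.1.1
  have hclself : ∀ x : XX z, Cl Sf x x := fun x => ⟨1, h1f, (one_smul _ _).symm⟩
  have hfine : ∀ (Q : V → V → Prop), (∀ v w : V, Cl S2 v.1.1 w.1.1 → Q v w) →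
      (∀ a b c, Q a b → Q b c → Q a c) → ∀ v w : V, Q v w := by
    intro Q hQ1 hQ2 v w
    have : ∀ b, Relation.ReflTransGen (fun a b => P b ∧ Cl S2 a b) v.1.1 b →
        ∀ w : V, w.1.1 = b → Q v w := by
      intro b hb
      induction hb with
      | refl => exact fun w hw => hQ1 v w ⟨1, h1, by rw [hw, one_smul]⟩
      | @tail b c hb hc ih =>
        intro w hw
        have hPb : P b := by
          rcases hb.cases_tail with h | ⟨_, _, h⟩
          · exact h ▸ v.2.1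
          · exact h.1
        obtain ⟨u, hu⟩ := hP b hPb
        exact hQ2 _ _ _ (ih ⟨(b, u), hPb, hu⟩ rfl) (hQ1 _ _ (hw ▸ hc.2))
    exact this _ (hcon _ _ v.2.1 w.2.1) w rfl
  obtain ⟨M⟩ := exists_PM R (fun a b h => h.symm inv_mem_inv_mul)
    (hfine _ (fun v w ⟨s, hs, h⟩ => .single (Cl.two ⟨s, hSf hs, h⟩ (hclself _)))
      fun _ _ _ => Relation.ReflTransGen.trans)
  have hFS : ∀ v w : V, ∀ τ, (A w - A v) τ ≠ 0 → ∃ y : V, Nr T2 y.1.1 τ := by
    refine hfine _ ?_ ?_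
    · rintro v w ⟨s, hs, h⟩ τ hτ
      refine ⟨v, hT2 _ s _ w.1.2 hs v.2.2 (h ▸ w.2.2) τ ?_⟩
      rw [← h]
      exact hτ
    · intro a b c hab hbc τ hτ
      rw [← sub_add_sub_cancel (A c) (A b) (A a)] at hτ
      exact (add_ne hτ).elim (hbc τ) (hab τ)
  have hR2 : ∀ (y y' : V) (a : XX z), Cl Sf y.1.1 a → Cl Sf y'.1.1 a → M.D y y' ≤ 1 :=
    fun y y' a h h' => M.one _ _ (h.two h')
  have hM : ∀ v w : V, R v w → ∀ τ, (A w - A v) τ ≠ 0 →
      ∃ y : V, M.D v y ≤ D1 ∧ Nr T3 y.1.1 τ := by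
    rintro v w ⟨s, hs, h⟩ τ hτ
    let FB : Finset (XX z) := Tb.image (fun t => t.1 • v.1.1) ∪
      Tb.image (fun t => t.2.1 • t.1 • v.1.1)
    have hFB : FB.card ≤ 2 * Tb.card := by
      refine (Finset.card_union_le _ _).trans ?_
      have h2 := Finset.card_image_le (s := Tb) (f := fun t => t.1 • v.1.1)
      have h3 := Finset.card_image_le (s := Tb) (f := fun t => t.2.1 • t.1 • v.1.1)
      omega
    let Ar : ℕ → XX z → Prop := fun n a => ∃ y : V, M.D v y ≤ n ∧ Cl Sf y.1.1 a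
    obtain ⟨n, hn1, hn2, hn3⟩ := exists_stable FB Ar
      (fun n a ⟨y, h2, h3⟩ => ⟨y, h2.trans (Nat.le_succ n), h3⟩)
    have hDD : DD (Ar n) (A w - A v) = 0 := by
      refine DD_eq_zero fun x u u' hx => ?_
      obtain ⟨y, hy⟩ := hFS _ _ _ hx
      obtain ⟨c1, c2, -⟩ := hfa _ _ _ _ _ (hT23 _ _ hy)
      obtain ⟨t, ht, h2⟩ := hTb _ s _ w.1.2 hs v.2.2 (h ▸ w.2.2) (x, u, u') (by rw [← h]; exact hx)
      obtain ⟨rfl, h3⟩ := Prod.mk.inj h2
      have h4 : u = t.2.1 := congrArg Prod.fst h3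
      constructor
      · rintro ⟨y0, h5, h6⟩
        refine hn3 _ (Finset.mem_union_right _ (Finset.mem_image.mpr ⟨t, ht, by rw [h4]⟩))
          ⟨y, ?_, c2⟩
        have := M.tri v y0 y
        have := hR2 _ _ _ h6 c1
        omega
      · rintro ⟨y0, h5, h6⟩
        refine hn3 _ (Finset.mem_union_left _ (Finset.mem_image.mpr ⟨t, ht, rfl⟩)) ⟨y, ?_, c1⟩
        have := M.tri v y0 y
        have := hR2 _ _ _ h6 c2
        omega
    rw [v.2.2.DD_sub w.2.2, sub_eq_zero,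
      if_pos ⟨w, (M.one _ _ ⟨s, hs, h⟩).trans hn1, hclself _⟩,
      if_pos ⟨v, by rw [M.self]; omega, hclself _⟩, ← v.2.2.d2_sub w.2.2] at hDD
    rw [← v.2.2.E_sub w.2.2, ← W.E_congr hDD] at hτ
    obtain ⟨x, u, u', t, h2, h3, rfl⟩ := F.E_ne hτ
    obtain ⟨⟨y0, h5, h6⟩, h4⟩ := rs_ne h2
    obtain ⟨y, hy⟩ := hFS _ _ _ h4
    obtain ⟨c1, -, -⟩ := hfa _ _ _ _ _ (hT23 _ _ hy)
    obtain ⟨t', ht', h7⟩ := hy
    obtain ⟨rfl, h8⟩ := Prod.mk.inj h7
    refine ⟨y, ?_, (t.1 * t'.1, t.2), Finset.mem_union_right _ (Finset.mem_biUnion.mpr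
      ⟨t', ht', Finset.mem_image.mpr ⟨t, Finsupp.mem_support_iff.mpr ?_, rfl⟩⟩), ?_⟩
    · have := M.tri v y0 y
      have := hR2 _ _ _ h6 c1
      omega
    · rw [← h8]
      exact h3
    · rw [mul_smul]
  have hrk : ∀ k a, P a → P (rm (r ^ k) a) := by
    intro k a ha
    induction k with
    | zero => rwa [pow_zero, rm_one]
    | succ k ih => rw [pow_succ, rm_mul]; exact hr _ ih
  let hk : ℕ → V → V := fun k v =>
    ⟨(rm (r ^ k) v.1.1, v.1.2), hrk k _ v.2.1, v.2.2.rm _⟩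
  have hkadd : ∀ k l v, hk (k + l) v = hk l (hk k v) := fun k l v =>
    Subtype.ext (by simp only [hk, pow_add, rm_mul])
  have hk0 : ∀ v, hk 0 v = v := fun v => Subtype.ext (by simp only [hk, pow_zero, rm_one])
  have hkp : ∀ k v, hk (k * p) v = v := by
    intro k v
    induction k with
    | zero => rw [zero_mul, hk0]
    | succ k ih =>
      rw [add_mul, one_mul, hkadd, ih]
      exact Subtype.ext (by simp only [hk, hrp])
  have hkD : ∀ k v w, M.D (hk k v) (hk k w) ≤ M.D v w :=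
    fun k => M.map _ fun a b ⟨s, hs, h⟩ => ⟨s, hs, by simp only [hk]; rw [h, rm_smul]⟩
  obtain ⟨u0, hu0⟩ := hP a0 ha0
  have hex : ∃ m, ∃ v k, ¬ p ∣ k ∧ M.D v (hk k v) = m :=
    ⟨_, ⟨(a0, u0), ha0, hu0⟩, 1, hp.not_dvd_one, rfl⟩
  obtain ⟨v, k, hpk, hm⟩ := Nat.find_spec hex
  have hmin : ∀ w l, ¬ p ∣ l → M.D v (hk k v) ≤ M.D w (hk l w) := fun w l hl =>
    hm ▸ Nat.find_min' hex ⟨w, l, hl, rfl⟩
  obtain ⟨π, hπ0, hπm, hπ⟩ := M.path v (hk k v)
  generalize hmm : M.D v (hk k v) = m at hmin hπm hπ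
  by_cases hsmall : m ≤ 3 * D2
  · have : ∀ i ≤ m, Cl (Sb ^ i) v.1.1 (π i).1.1 := by
      intro i hi
      induction i with
      | zero => exact ⟨1, by simp, by rw [hπ0, one_smul]⟩
      | succ i ih =>
        obtain ⟨s, hs, h2⟩ := ih (by omega)
        obtain ⟨s', hs', h3⟩ := hπ i hi
        exact ⟨s' * s, mul_mem_pow_succ hs' hs, by rw [h3, h2, mul_smul]⟩
    obtain ⟨s, hs, h2⟩ := this m le_rfl
    rw [hπm] at h2
    exact ⟨v.1.1, k, v.2.1, hpk, s, mem_pow_mono h1b hsmall hs, h2⟩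
  exfalso
  have hPS : ∀ n ≤ m, ∀ τ, (A (π n) - A v) τ ≠ 0 →
      ∃ i ≤ m, ∃ y : V, M.D (π i) y ≤ D1 ∧ Nr T3 y.1.1 τ := by
    intro n hn τ hτ
    induction n with
    | zero => simp [hπ0] at hτ
    | succ n ih =>
      rw [← sub_add_sub_cancel _ (A (π n)) _] at hτ
      rcases add_ne hτ with h | h
      · exact ⟨n, by omega, hM _ _ (hπ n hn) τ h⟩
      · exact ih (by omega) h
  replace hPS := hPS m le_rfl
  rw [hπm] at hPS
  have hsum : ∑ l ∈ Finset.range p, mp (fm (rm (r ^ (k * l)))) (A (hk k v) - A v) = 0 := by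
    have : ∀ l, mp (fm (rm (r ^ (k * l)))) (A (hk k v) - A v) =
        A (hk (k * (l + 1)) v) - A (hk (k * l) v) := by
      intro l
      rw [mul_add, mul_one, add_comm, hkadd]
      exact (v.2.2.sub_rm (hk k v).2.2 _).symm
    simp only [this]
    rw [Finset.sum_range_sub (fun l => A (hk (k * l) v)), hkp, mul_zero, hk0, sub_self]
  have hends : ∀ τ, (A (hk k v) - A v) τ ≠ 0 → ∃ i ≤ m, ∃ y : V, M.D (π i) y ≤ D1 ∧
      Nr T3 y.1.1 τ ∧ (i ≤ D2 ∨ m ≤ i + D2) := by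
    intro τ hτ
    obtain ⟨i, hi, y, h2, h3⟩ := hPS τ hτ
    refine ⟨i, hi, y, h2, h3, ?_⟩
    have h4 := DFunLike.congr_fun hsum τ
    obtain ⟨q, hq⟩ := Nat.exists_eq_succ_of_ne_zero hp.ne_zero
    rw [Finsupp.finsetSum_apply, hq, Finset.sum_range_succ', mul_zero, pow_zero] at h4
    have h5 : fm (T := G × G) (rm (1 : CZ z)) = fun a => a := funext fun a => by
      simp [fm, rm_one]
    rw [h5, mp_id, Finsupp.zero_apply] at h4
    obtain ⟨l, hl, h6⟩ := Finset.exists_ne_zero_of_sum_ne_zero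
      (fun h => hτ (by rwa [h, zero_add] at h4))
    obtain ⟨τ', h7, rfl⟩ := mp_ne h6
    obtain ⟨i', hi', y', h8, t, ht, rfl⟩ := hPS τ' h7
    have hl' : ¬ p ∣ k * (l + 1) := by
      rw [hp.dvd_mul]
      rintro (h | h)
      · exact hpk h
      · have := Nat.le_of_dvd (Nat.succ_pos l) h
        have := Finset.mem_range.mp hl
        omega
    have h9 : Nr T3 (hk (k * (l + 1)) y').1.1 (fm (rm (r ^ (k * (l + 1)))) (t.1 • y'.1.1, t.2)) :=
      ⟨t, ht, by simp only [fm, hk, rm_smul]⟩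
    have h10 := hR2 _ _ _ (hfa _ _ _ _ _ h3).1 (hfa _ _ _ _ _ h9).1
    have h11 := hmin (π i) _ hl'
    have h12 := M.tri (π i) y (hk (k * (l + 1)) (π i))
    have h13 := M.tri y (hk (k * (l + 1)) y') (hk (k * (l + 1)) (π i))
    have h14 := hkD (k * (l + 1)) y' (π i)
    have h15 := M.tri y' (π i') (π i)
    have h16 := M.comm y' (π i')
    rcases le_total i i' with h | h
    · have := M.path_le hπ h hi'
      have := M.comm (π i) (π i')
      omega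
    · have := M.path_le hπ h hi
      omega
  let A0 : XX z → Prop := fun a => ∃ i ≤ D2, ∃ y : V, M.D (π i) y ≤ D1 ∧ Cl Sf y.1.1 a
  have hfar : ∀ i ≤ m, ∀ y : V, M.D (π i) y ≤ D1 → m ≤ i + D2 → ∀ a, Cl Sf y.1.1 a → ¬ A0 a := by
    rintro i hi y h2 h3 a h4 ⟨i', hi', y', h5, h6⟩
    have h7 := hR2 _ _ _ h6 h4
    have h8 := M.path_le hπ (Nat.zero_le i') (by omega)
    have h9 := M.path_le hπ hi le_rfl
    rw [hπ0] at h8
    rw [hπm] at h9
    have := M.tri v (π i') (hk k v)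
    have := M.tri (π i') y' (hk k v)
    have := M.tri y' y (hk k v)
    have := M.tri y (π i) (hk k v)
    have := M.comm y (π i)
    omega
  have hDD : DD A0 (A (hk k v) - A v) = 0 := by
    refine DD_eq_zero fun x u u' hx => ?_
    obtain ⟨i, hi, y, h2, h3, h4⟩ := hends _ hx
    obtain ⟨c1, c2, -⟩ := hfa _ _ _ _ _ h3
    rcases h4 with h4 | h4
    · exact iff_of_true ⟨i, h4, y, h2, c1⟩ ⟨i, h4, y, h2, c2⟩
    · exact iff_of_false (hfar i hi y h2 h4 _ c1) (hfar i hi y h2 h4 _ c2)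
  rw [v.2.2.DD_sub (hk k v).2.2, sub_eq_zero,
    if_neg (hfar m le_rfl (hk k v) (by rw [hπm, M.self]; omega) (by omega) _ (hclself _)),
    if_pos ⟨0, by omega, v, by rw [hπ0, M.self]; omega, hclself _⟩] at hDD
  have := congrArg W.th hDD
  rw [W.th_d2, map_sub, map_zero, v.2.2.th_be] at this
  norm_num at this

end Wind

end Pool.Agent.Lib.MP_7903c7_al.CD
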