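import Pool.Agent.Lib.MP_7903c7_al.CD.Chain
import Pool.Agent.Lib.MP_7903c7_al.CD.Height

set_option autoImplicit false

namespace Pool.Agent.Lib.MP_7903c7_al.CD

open scoped Classical

variable {G : Type} [Group G] {Λ : Subring ℚ}

/-- Cosets of the cyclic group generated by `z`. -/
abbrev XX (z : G) : Type := G ⧸ Subgroup.zpowers z

/-- The class of a group element. -/
abbrev cl (z x : G) : XX z := QuotientGroup.mk x

lemma cl_smul (z u x : G) : u • cl z x = cl z (u * x) := rfl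

lemma cl_eq {z x y : G} : cl z x = cl z y ↔ ∃ k : ℤ, y = x * z ^ k := by
  rw [QuotientGroup.eq, Subgroup.mem_zpowers_iff]
  exact exists_congr fun k => by rw [eq_inv_mul_iff_mul_eq, eq_comm]

lemma cl_mul_zpow (z x : G) (k : ℤ) : cl z (x * z ^ k) = cl z x := (cl_eq.mpr ⟨k, rfl⟩).symm

lemma cl_surj {z : G} (x : XX z) : ∃ y, cl z y = x := QuotientGroup.mk_surjective x

/-- Winding number and canonical fillings in the quotient by `z`. -/
structure Wind (F : Fill G Λ) (z : G) where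
  n : G → ℤ
  n_mul : ∀ x (k : ℤ), n (x * z ^ k) = n x + k
  θ : XX z × G → ℤ
  θ_mk : ∀ x u, θ (cl z x, u) = n (u * x) - n x
  Θ : (XX z × G →₀ ℚ) →ₗ[ℚ] (XX z × G × G →₀ ℚ)
  Θ_d : ∀ η, Θ (d2 η) = F.E η
  d_Θ : ∀ c, d1 c = 0 → d2 (Θ c) = c - lin (fun ε => (θ ε : ℚ)) c • sg (cl z 1, z)
  Θ_int : ∀ c ∈ IntC Λ _, Θ c ∈ IntC Λ _

lemma int_ind {Q : ℤ → Prop} (h0 : Q 0) (hs : ∀ k, Q k ↔ Q (k + 1)) (k : ℤ) : Q k := by
  induction k using Int.induction_on with
  | zero => exact h0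
  | succ i h => exact (hs i).mp h
  | pred i h => exact (hs _).mpr (by simpa using h)

lemma exists_int_sum {M : Type} [AddCommGroup M] (f : ℤ → M) :
    ∃ P : ℤ → M, P 0 = 0 ∧ ∀ k, P (k + 1) = P k + f k := by
  refine ⟨fun k => Int.rec (fun m => ∑ i ∈ Finset.range m, f i)
    (fun m => - ∑ i ∈ Finset.range (m + 1), f (Int.negSucc i)) k, Finset.sum_range_zero _, fun k => ?_⟩
  rcases k with m | m
  · exact Finset.sum_range_succ _ m
  · rcases m with _ | m
    · show ∑ i ∈ Finset.range 0, f i = - ∑ i ∈ Finset.range (0 + 1), f (Int.negSucc i) + _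
      simp
    · show - ∑ i ∈ Finset.range (m + 1), f (Int.negSucc i) =
        - ∑ i ∈ Finset.range (m + 1 + 1), f (Int.negSucc i) + _
      rw [Finset.sum_range_succ _ (m + 1)]
      abel

theorem exists_wind (F : Fill G Λ) {z : G} (hz : ∀ k : ℤ, z ^ k = 1 → k = 0) :
    Nonempty (Wind F z) := by
  obtain ⟨n0, -, hn0⟩ := exists_height (r := fun x y : G => x = y) eq_equivalence z
    (fun k x y h => by rw [h]) 0 (fun x k h => by
      rw [hz k (mul_eq_left.mp h)]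
      exact dvd_zero _)
  let n : G → ℤ := n0
  have hn1 : ∀ x, n (x * z) = n x + 1 := hn0
  have hn : ∀ x (k : ℤ), n (x * z ^ k) = n x + k := fun x =>
    int_ind (by simp) fun k => by
      rw [zpow_add_one, ← mul_assoc, hn1]
      omega
  obtain ⟨P, hP0, hP⟩ := exists_int_sum (fun k => sg (z ^ k, z))
  let R : ℤ → (G × G →₀ ℚ) →ₗ[ℚ] (G × G →₀ ℚ) := fun k => mp (fm fun y => y * z ^ k)
  let pu1 : (G × G →₀ ℚ) →ₗ[ℚ] (XX z × G →₀ ℚ) := mp (fm (cl z))
  let pu2 : (G × G × G →₀ ℚ) →ₗ[ℚ] (XX z × G × G →₀ ℚ) := mp (fm (cl z))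
  have hPd : ∀ k, d1 (P k) = sg (z ^ k) - sg 1 :=
    int_ind (by simp [hP0]) fun k => by
      rw [hP, map_add, d1_sg, smul_eq_mul, ← zpow_one_add, add_comm 1 k]
      constructor <;> intro h
      · rw [h]; abel
      · rw [eq_sub_of_add_eq h]; abel
  have hPa : ∀ k l, P (k + l) = P k + R k (P l) := fun k =>
    int_ind (by simp [hP0]) fun l => by
      have : R k (sg (z ^ l, z)) = sg (z ^ (k + l), z) := by
        simp [R, fm, ← zpow_add, add_comm]
      rw [← add_assoc, hP, hP, map_add, this, ← add_assoc, add_left_inj]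
  have hPp : ∀ k, pu1 (P k) = (k : ℚ) • sg (cl z 1, z) :=
    int_ind (by simp [hP0]) fun k => by
      have : pu1 (sg (z ^ k, z)) = sg (cl z 1, z) := by
        have := cl_mul_zpow z 1 k
        rw [one_mul] at this
        simp [pu1, fm, this]
      rw [hP, map_add, this, Int.cast_add, add_smul, Int.cast_one, one_smul, add_left_inj]
  have hPi : ∀ k, P k ∈ IntC Λ _ :=
    int_ind (by rw [hP0]; exact zero_mem _) fun k => by
      rw [hP]
      exact (Submodule.add_mem_iff_left _ (sg_int _)).symm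
  let κ : XX z × G → ℤ := fun ε => n (ε.2 * ε.1.out) - n (ε.2 • ε.1).out
  have hκ : ∀ (x : XX z) u, u * x.out = (u • x).out * z ^ κ (x, u) := by
    intro x u
    have h1 : cl z (u • x).out = cl z (u * x.out) := by
      rw [← cl_smul, cl, cl, QuotientGroup.out_eq', QuotientGroup.out_eq']
    obtain ⟨k, hk⟩ := cl_eq.mp h1
    have : κ (x, u) = k := by
      simp only [κ]
      rw [hk, hn]
      omega
    rw [this, hk]
  let cyc : XX z × G → (G × G →₀ ℚ) := fun ε =>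
    sg (1, ε.1.out) + sg (ε.1.out, ε.2) - sg (z ^ κ ε, (ε.2 • ε.1).out) - P (κ ε)
  have hcyc : ∀ ε, d1 (cyc ε) = 0 := by
    rintro ⟨x, u⟩
    simp only [cyc, map_sub, map_add, d1_sg, hPd, smul_eq_mul, mul_one, ← hκ]
    abel
  have hpR : ∀ k c, d1 c = 0 → pu2 (F.σ (R k c)) = pu2 (F.σ c) := by
    intro k c hc
    simp only [R, pu2]
    rw [F.σ_mp hc, mp_mp]
    congr 2
    funext a
    simp only [fm, cl_mul_zpow]
  have hcl : ∀ (u : G) x, cl z (u • x) = u • cl z x := fun _ _ => rfl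
  refine ⟨⟨n, hn, fun ε => n (ε.2 * ε.1.out) - n ε.1.out, fun x u => ?_,
    lin fun ε => pu2 (F.σ (cyc ε)), fun η => ?_, fun c hc => ?_, fun c hc => ?_⟩⟩
  · obtain ⟨k, hk⟩ := cl_eq.mp (QuotientGroup.out_eq' (cl z x)).symm
    simp only
    rw [hk, ← mul_assoc, hn, hn]
    omega
  · refine ext_sg ((lin fun ε => pu2 (F.σ (cyc ε))).comp d2) F.E ?_ η
    rintro ⟨x, u, u'⟩
    have hk : κ (x, u' * u) = κ (x, u) + κ (u • x, u') := by
      simp only [κ]
      rw [mul_assoc, hκ x u, ← mul_assoc, hn, hn, mul_smul]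
      omega
    rw [LinearMap.comp_apply, d2_sg, map_add, map_sub, lin_sg, lin_sg, lin_sg,
      ← hpR (κ (x, u)) _ (hcyc (u • x, u')), ← map_sub, ← map_add, ← map_sub, ← map_add]
    have : R (κ (x, u)) (cyc (u • x, u')) - cyc (x, u' * u) + cyc (x, u) =
        d2 (sg (x.out, u, u')) := by
      simp only [cyc, map_sub, map_add, R, mp_sg, fm, d2_sg, smul_eq_mul, one_mul, ← hκ, hk,
        mul_smul, ← zpow_add, add_comm (κ (u • x, u'))]
      rw [hPa]
      simp only [R]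
      abel
    rw [this, F.σ_d2]
    simp only [pu2]
    rw [← F.E_mp hcl, mp_sg]
    simp [fm]
  · have := ext_sg (d2.comp (lin fun ε => pu2 (F.σ (cyc ε))))
      (LinearMap.id - (lin fun ε : XX z × G => ((n (ε.2 * ε.1.out) - n ε.1.out : ℤ) : ℚ)).smulRight
        (sg (cl z 1, z)) - (lin fun x : XX z => sg (cl z 1, x.out) -
          (n x.out : ℚ) • sg (cl z 1, z)).comp d1) (fun ⟨x, u⟩ => by
        rw [LinearMap.comp_apply, lin_sg]
        simp only [pu2]
        rw [d2_mp hcl, F.d2_σ (hcyc _)]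
        have h1 := hPp (κ (x, u))
        have h2 := cl_mul_zpow z 1 (κ (x, u))
        rw [one_mul] at h2
        simp only [pu1] at h1
        simp only [cyc, map_sub, map_add, mp_sg, fm, h1, h2, LinearMap.sub_apply,
          LinearMap.id_apply, LinearMap.smulRight_apply, LinearMap.comp_apply, d1_sg, lin_sg, cl,
          QuotientGroup.out_eq', κ]
        push_cast
        module) c
    simpa [hc] using this
  · refine map_mem _ _ hc fun ε _ => ?_
    rw [lin_sg]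
    exact mp_int _ (F.σ_int (sub_mem (sub_mem (add_mem (sg_int _) (sg_int _)) (sg_int _)) (hPi _)))

/-- The centraliser of an element. -/
abbrev CZ (z : G) : Subgroup G := Subgroup.centralizer ({z} : Set G)

lemma CZ_comm {z : G} (c : CZ z) : Commute (c : G) z := (c.2 z rfl).symm

lemma mem_CZ {z c : G} : c ∈ CZ z ↔ Commute c z := by
  rw [Subgroup.mem_centralizer_singleton_iff]
  rfl

/-- Right multiplication by an element of the centraliser. -/
def rm {z : G} (c : CZ z) : XX z → XX z :=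
  Quotient.map' (fun y => y * c) fun a b h => by
    rw [QuotientGroup.leftRel_apply] at h ⊢
    obtain ⟨k, hk⟩ := Subgroup.mem_zpowers_iff.mp h
    refine Subgroup.mem_zpowers_iff.mpr ⟨k, ?_⟩
    rw [mul_inv_rev, mul_assoc, ← mul_assoc a⁻¹, ← hk, ← ((CZ_comm c).zpow_right k).eq]
    simp

lemma rm_cl {z : G} (c : CZ z) (y : G) : rm c (cl z y) = cl z (y * c) := rfl

lemma rm_smul {z : G} (c : CZ z) (u : G) (x : XX z) : rm c (u • x) = u • rm c x := by
  obtain ⟨y, rfl⟩ := cl_surj x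
  rw [cl_smul, rm_cl, rm_cl, cl_smul, mul_assoc]

lemma rm_mul {z : G} (c c' : CZ z) (x : XX z) : rm (c * c') x = rm c' (rm c x) := by
  obtain ⟨y, rfl⟩ := cl_surj x
  rw [rm_cl, rm_cl, rm_cl, Subgroup.coe_mul, mul_assoc]

lemma rm_zpow {z : G} (c : CZ z) {k : ℤ} (h : (c : G) = z ^ k) (x : XX z) : rm c x = x := by
  obtain ⟨y, rfl⟩ := cl_surj x
  rw [rm_cl, h, cl_mul_zpow]

lemma rm_one {z : G} (x : XX z) : rm 1 x = x := rm_zpow 1 (k := 0) (by simp) x

namespace Wind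

variable {F : Fill G Λ} {z : G} (W : Wind F z)

/-- The winding number of a chain. -/
noncomputable def th : (XX z × G →₀ ℚ) →ₗ[ℚ] ℚ := lin fun ε => (W.θ ε : ℚ)

lemma th_sg (ε : XX z × G) : W.th (sg ε) = W.θ ε := lin_sg _ _

lemma θ_mul (x : XX z) (u u' : G) : W.θ (x, u' * u) = W.θ (x, u) + W.θ (u • x, u') := by
  obtain ⟨y, rfl⟩ := cl_surj x
  rw [cl_smul, W.θ_mk, W.θ_mk, W.θ_mk, mul_assoc]
  omega

lemma th_d2 (η : XX z × G × G →₀ ℚ) : W.th (d2 η) = 0 :=
  zero_on (W.th.comp d2) η fun ⟨x, u, u'⟩ _ => by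
    simp [th_sg, θ_mul]

lemma θ_loop {x u : G} {k : ℤ} (h : u * x = x * z ^ k) : W.θ (cl z x, u) = k := by
  rw [W.θ_mk, h, W.n_mul]
  omega

lemma loop_eq {x u : G} (h : u • cl z x = cl z x) : u * x = x * z ^ W.θ (cl z x, u) := by
  rw [cl_smul] at h
  obtain ⟨k, hk⟩ := cl_eq.mp h.symm
  rw [W.θ_loop hk, hk]

include W in
lemma zpow_inj {k l : ℤ} (h : z ^ k = z ^ l) : k = l := by
  have h1 := W.n_mul 1 k
  rw [h, W.n_mul] at h1
  omega

lemma d_Θ' {c : XX z × G →₀ ℚ} (hc : d1 c = 0) :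
    d2 (W.Θ c) = c - W.th c • sg (cl z 1, z) := W.d_Θ c hc

lemma E_Θ {c : XX z × G →₀ ℚ} (hc : d1 c = 0) (h0 : W.th c = 0) : F.E (W.Θ c) = W.Θ c := by
  rw [← W.Θ_d, W.d_Θ' hc, h0, zero_smul, sub_zero]

lemma Θ_mp (r : CZ z) {c : XX z × G →₀ ℚ} (hc : d1 c = 0) (h0 : W.th c = 0) :
    W.Θ (mp (fm (rm r)) c) = mp (fm (rm r)) (W.Θ c) := by
  have h1 : d2 (W.Θ c) = c := by rw [W.d_Θ' hc, h0, zero_smul, sub_zero]
  conv_lhs => rw [← h1, ← d2_mp (rm_smul r), W.Θ_d, F.E_mp (rm_smul r), W.E_Θ hc h0]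

lemma d1_base : d1 (sg (cl z 1, z)) = 0 := by
  have := cl_mul_zpow z 1 1
  rw [d1_sg, cl_smul, mul_one, sub_eq_zero]
  simp at this
  simp [this]

lemma th_base : W.th (sg (cl z 1, z)) = 1 := by
  rw [th_sg, W.θ_loop (k := 1) (by simp), Int.cast_one]

lemma th_mp (r : CZ z) {c : XX z × G →₀ ℚ} (hc : d1 c = 0) :
    W.th (mp (fm (rm r)) c) = W.th c := by
  have h1 := congrArg (fun c => W.th (mp (fm (rm r)) c)) (W.d_Θ' hc)
  simp only [← d2_mp (rm_smul r), th_d2, map_sub, map_smul, mp_sg, fm, rm_cl, th_sg] at h1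
  rw [W.θ_loop (k := 1) (by simp [(CZ_comm r).eq])] at h1
  simpa [sub_eq_zero] using h1.symm

lemma Θ_mp_int (r : CZ z) {c : XX z × G →₀ ℚ} (hc : d1 c = 0) (h1 : W.th c = 1) :
    W.Θ (mp (fm (rm r)) c) - mp (fm (rm r)) (W.Θ c) ∈ IntC Λ _ := by
  have h2 := W.Θ_mp r (c := c - sg (cl z 1, z)) (by rw [map_sub, hc, d1_base, sub_zero])
    (by rw [map_sub, h1, th_base, sub_self])
  simp only [map_sub] at h2
  have : W.Θ (mp (fm (rm r)) c) - mp (fm (rm r)) (W.Θ c) =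
      W.Θ (mp (fm (rm r)) (sg (cl z 1, z))) - mp (fm (rm r)) (W.Θ (sg (cl z 1, z))) := by
    rw [sub_eq_sub_iff_sub_eq_sub, h2]
  rw [this]
  exact sub_mem (W.Θ_int _ (mp_int _ (sg_int _))) (mp_int _ (W.Θ_int _ (sg_int _)))

end Wind

end Pool.Agent.Lib.MP_7903c7_al.CD
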